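import Pool.Agent.P.MP_26a8c3_nt.QT.St
import Pool.Agent.P.MP_26a8c3_nt.QK.Lim

/-! The limit coefficients exist. -/

namespace Pool.Agent.P.MP_26a8c3_nt.QT

open MeasureTheory Set Filter Topology
open Pool.Agent.P.MP_26a8c3_nt.QO Pool.Agent.P.MP_26a8c3_nt.QH Pool.Agent.P.MP_26a8c3_nt.QK
open scoped Classical MatrixGroups ComplexConjugate ENNReal

namespace AsP

variable {a b : ℝ} {f h k : ℝ → ℂ}

theorem nq_nonneg (ha : 0 < a) : 0 ≤ nq a b f :=
  setIntegral_nonneg measurableSet_Icc fun v hv => by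
    have := ha.trans_le hv.1
    positivity

theorem int_nq (ha : 0 < a) (hf : ContinuousOn f (Ioi 0)) :
    IntegrableOn (fun v => ‖f v‖ ^ 2 / v ^ 3) (Icc a b) :=
  (((hf.mono fun _ hv => ha.trans_le hv.1).norm.pow 2).div (by fun_prop)
    fun v hv => pow_ne_zero 3 (ha.trans_le hv.1).ne').integrableOn_Icc

theorem Sq_le_nq (ha : 0 < a) (hf : ContinuousOn f (Ioi 0)) : Sq a b f ≤ b ^ 3 * nq a b f := by
  rw [Sq, nq, ← integral_const_mul]
  refine setIntegral_mono_on (int_Sq ha hf) ((int_nq ha hf).const_mul _) measurableSet_Icc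
    fun v hv => ?_
  have := ha.trans_le hv.1
  rw [← mul_div_assoc, le_div_iff₀ (by positivity), mul_comm]
  exact mul_le_mul_of_nonneg_right (pow_le_pow_left₀ this.le hv.2 3) (by positivity)

theorem nq_le_Sq (ha : 0 < a) (hf : ContinuousOn f (Ioi 0)) : nq a b f ≤ (a ^ 3)⁻¹ * Sq a b f := by
  rw [Sq, nq, ← integral_const_mul]
  refine setIntegral_mono_on (int_nq ha hf) ((int_Sq ha hf).const_mul _) measurableSet_Icc
    fun v hv => ?_
  rw [← div_eq_inv_mul]
  exact div_le_div_of_nonneg_left (by positivity) (by positivity) (pow_le_pow_left₀ ha.le hv.1 3)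

theorem nq_tri (ha : 0 < a) (hf : ContinuousOn f (Ioi 0)) (hh : ContinuousOn h (Ioi 0))
    (hk : ContinuousOn k (Ioi 0)) : nq a b (fun v => f v - k v) ≤
      2 * nq a b (fun v => f v - h v) + 2 * nq a b (fun v => h v - k v) := by
  have i1 := (int_nq (b := b) (f := fun v => f v - h v) ha (hf.sub hh)).const_mul 2
  have i2 := (int_nq (b := b) (f := fun v => h v - k v) ha (hh.sub hk)).const_mul 2
  rw [nq, nq, nq, ← integral_const_mul, ← integral_const_mul, ← integral_add i1 i2]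
  refine setIntegral_mono_on (int_nq ha (hf.sub hk)) (i1.add i2) measurableSet_Icc fun v hv => ?_
  have := ha.trans_le hv.1
  have e := norm_add_sq_le (f v - h v) (h v - k v)
  rw [sub_add_sub_cancel] at e
  rw [← mul_div_assoc, ← mul_div_assoc, ← add_div]
  exact div_le_div_of_nonneg_right e (by positivity)

theorem Sq_of_le (hab : b ≤ a) : Sq a b f = 0 :=
  setIntegral_measure_zero _ (by simp [hab])

theorem B0_pos : 0 < B0 := by
  unfold B0
  positivity

theorem BN (m : O) : 0 ≤ B0 * N m := mul_nonneg B0_pos.le (Nat.cast_nonneg _)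

theorem gs_congr {x x' : O} (e : (3 : O) ∣ x - x') (q m : O) : gs x q m = gs x' q m := by
  funext c
  have : (3 : O) ∣ c - x ↔ (3 : O) ∣ c - x' :=
    ⟨fun k => by simpa using dvd_add k e, fun k => by simpa using dvd_sub k e⟩
  simp only [gs, this]

theorem lower : ∃ c : ℝ, 0 < c ∧ ∀ (U : ℝ) (m : O) (A : ℂ), 1 ≤ U → (N m : ℝ) ≤ U →
    c * ‖A * ((ab m ^ (1 / 3 : ℝ) : ℝ) : ℂ)‖ ^ 2 ≤
      nq (√U)⁻¹ (2 * (√U)⁻¹) fun v => A * ((kB (B0 * N m) v : ℝ) : ℂ) := by
  obtain ⟨c, hc, hk⟩ := le_kB' B0_pos.le two_pos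
  refine ⟨c ^ 2 / 2, by positivity, fun U m A hU hm => ?_⟩
  have hs : 0 < √U := Real.sqrt_pos.2 (by linarith)
  have ha : 0 < (√U)⁻¹ := inv_pos.2 hs
  rcases eq_or_ne m 0 with rfl | h0
  · have : ab 0 = 0 := by simp [ab]
    rw [this, Real.zero_rpow (by norm_num)]
    simpa using nq_nonneg ha
  have hab := ab_pos h0
  have h1 : ab m ≤ √U := by
    rw [ab_eq]
    exact Real.sqrt_le_sqrt hm
  have h2 : ∫ _ in Icc (√U)⁻¹ (2 * (√U)⁻¹),
      c ^ 2 / 2 * ‖A * ((ab m ^ (1 / 3 : ℝ) : ℝ) : ℂ)‖ ^ 2 * √U ≤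
      nq (√U)⁻¹ (2 * (√U)⁻¹) fun v => A * ((kB (B0 * N m) v : ℝ) : ℂ) := by
    refine setIntegral_mono_on continuousOn_const.integrableOn_Icc
      (int_nq ha (continuousOn_const.mul (cont_kB (BN m))))
      measurableSet_Icc fun v hv => ?_
    have hv' := ha.trans_le hv.1
    have h3 : √U * v ≤ 2 := by
      have := mul_le_mul_of_nonneg_left hv.2 hs.le
      rwa [mul_left_comm, mul_inv_cancel₀ hs.ne', mul_one] at this
    have h4 := hk (ab m * v) (mul_pos hab hv')
      ((mul_le_mul_of_nonneg_right h1 hv'.le).trans h3)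
    have h5 : c * ab m ^ (1 / 3 : ℝ) * v ≤ kB (B0 * N m) v := by
      rw [← ab_sq, mul_comm B0, kB_scale hab]
      refine le_trans (le_of_eq ?_) (mul_le_mul_of_nonneg_left h4 (by positivity))
      rw [show (1 / 3 : ℝ) = -(2 / 3) + 1 by norm_num, Real.rpow_add_one hab.ne']
      ring
    rw [norm_mul, norm_mul, Complex.norm_real, Complex.norm_real,
      Real.norm_of_nonneg (by positivity), Real.norm_of_nonneg (kB_pos (BN m) hv').le,
      le_div_iff₀ (by positivity)]
    calc c ^ 2 / 2 * (‖A‖ * ab m ^ (1 / 3 : ℝ)) ^ 2 * √U * v ^ 3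
        = (‖A‖ * (c * ab m ^ (1 / 3 : ℝ) * v)) ^ 2 * (√U * v / 2) := by ring
      _ ≤ (‖A‖ * kB (B0 * N m) v) ^ 2 * 1 := by
        gcongr
        linarith
      _ = _ := mul_one _
  rwa [setIntegral_const, Real.volume_real_Icc_of_le (by linarith), smul_eq_mul,
    show 2 * (√U)⁻¹ - (√U)⁻¹ = (√U)⁻¹ by ring, mul_comm, mul_inv_cancel_right₀ hs.ne'] at h2

end AsP

open AsP in
theorem pAs (hf : S_Four) (hc : S_Cst) (h : S_Coef) : S_As := by
  obtain ⟨-, hA, -⟩ := hf
  obtain ⟨⟨C, h1⟩, h2, h3⟩ := h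
  have cc : ∀ x q m {y : ℝ}, 0 < y → ContinuousOn (cn x q m y) (Ioi 0) := fun x q m _ hy =>
    (hA x q m).cont_ff (BN m) hy
  have ck : ∀ (A : ℂ) (m : O), ContinuousOn (fun v => A * ((kB (B0 * N m) v : ℝ) : ℂ)) (Ioi 0) :=
    fun A m => continuousOn_const.mul (cont_kB (BN m))
  have hex : ∀ x m, ∃ A, Lm x 1 m A := fun x m => by
    refine shape (hA x 1 m) (BN m) fun a b ha => ?_
    rcases le_or_gt b a with hab | hab
    · simp [Sq_of_le hab]
    have hb := ha.trans hab
    rw [prod_atTop_atTop_eq]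
    refine Metric.tendsto_atTop.2 fun ε hε => ?_
    obtain ⟨Y, hY⟩ := h2 x a b (ε / 2 / b ^ 3) ha hab (by positivity)
    refine ⟨(max Y 1, max Y 1), fun p hp => ?_⟩
    have k1 := hY p.1 ((le_max_left _ _).trans hp.1) p.2 ((le_max_left _ _).trans hp.2) {m}
    rw [Finset.sum_singleton, le_div_iff₀' (by positivity)] at k1
    have k2 := Sq_le_nq (b := b) (f := fun v => cn x 1 m p.1 v - cn x 1 m p.2 v) ha
      ((cc x 1 m (one_pos.trans_le ((le_max_right _ _).trans hp.1))).sub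
        (cc x 1 m (one_pos.trans_le ((le_max_right _ _).trans hp.2))))
    rw [Real.dist_eq, sub_zero, abs_of_nonneg Sq_nonneg]
    exact (k2.trans k1).trans_lt (half_lt_self hε)
  have hl : ∀ x m, Lm x 1 m (Classical.epsilon (Lm x 1 m)) := fun x m =>
    Classical.epsilon_spec (hex x m)
  have hn : ∀ (x : O) (a b : ℝ) (A : Finset O), 0 < a → Tendsto (fun y => ∑ m ∈ A, nq a b fun v =>
      cn x 1 m y v - Classical.epsilon (Lm x 1 m) * ((kB (B0 * N m) v : ℝ) : ℂ)) atTop (𝓝 0) := by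
    intro x a b A ha
    have := tendsto_finsetSum A (a := fun _ => (0 : ℝ)) (f := fun m y => nq a b fun v =>
      cn x 1 m y v - Classical.epsilon (Lm x 1 m) * ((kB (B0 * N m) v : ℝ) : ℂ)) fun m _ => by
      have k := (hl x m a b ha).const_mul (a ^ 3)⁻¹
      rw [mul_zero] at k
      refine squeeze_zero' (Eventually.of_forall fun _ => nq_nonneg ha) ?_ k
      filter_upwards [eventually_gt_atTop 0] with y hy
      exact nq_le_Sq ha ((cc x 1 m hy).sub (ck _ m))
    simpa using this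
  refine ⟨fun x m => Classical.epsilon (Lm x 1 m), hl, fun p x m hp hp' => ?_, fun x x' e => ?_,
    ?_, ?_, fun x a b ε ha hab hε => ?_⟩
  · have := Lim.of_close (hA x 1 m) (hA x p m) (BN m) (hl x m) ((N p : ℂ) + 1)⁻¹ fun a b ha => by
      rcases le_or_gt b a with hab | hab
      · simp [Sq_of_le hab]
      have k := (h3 p x m a b hp hp' ha hab).const_mul (b ^ 3)
      rw [mul_zero] at k
      refine squeeze_zero' (Eventually.of_forall fun _ => Sq_nonneg) ?_ k
      filter_upwards [eventually_gt_atTop 0] with y hy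
      simp only [div_eq_inv_mul]
      exact Sq_le_nq ha ((cc x p m hy).sub (continuousOn_const.mul (cc x 1 m hy)))
    rwa [← div_eq_inv_mul] at this
  · funext m
    have : Lm x 1 m = Lm x' 1 m := by
      funext A
      rw [Lm, Lm, gs_congr e]
    simp only [this]
  · obtain ⟨s0, -, k1, -, k2, -⟩ := hc
    have k3 := lim_zero (N := fun c : O => (N c : ℝ)) (g := gs 0 1 0) (s := s0)
      (by simp only [Complex.ofReal_natCast]; exact k2)
    have k4 := hl 0 0
    rw [Lm, map_zero, Nat.cast_zero, mul_zero] at k4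
    change Classical.epsilon (Lm 0 1 0) ≠ 0
    rw [k4.unique (hA 0 1 0) le_rfl k3]
    exact div_ne_zero (Complex.ofReal_ne_zero.2 k1.ne')
      (Complex.ofReal_ne_zero.2 (Real.Gamma_pos_of_pos (by norm_num)).ne')
  · obtain ⟨c, c0, hc⟩ := AsP.lower
    refine ⟨4 * |C| / c, fun x U A hU hm => ?_⟩
    have hs : 0 < √U := Real.sqrt_pos.2 (by linarith)
    have ha : 0 < (√U)⁻¹ := inv_pos.2 hs
    have k1 : ∑ m ∈ A, nq (√U)⁻¹ (2 * (√U)⁻¹) (fun v =>
        Classical.epsilon (Lm x 1 m) * ((kB (B0 * N m) v : ℝ) : ℂ)) ≤ 2 * (C * (1 + U)) := by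
      have k := ((hn x _ (2 * (√U)⁻¹) A ha).const_mul 2).add_const (2 * (C * (1 + U)))
      rw [mul_zero, zero_add] at k
      refine ge_of_tendsto k ?_
      filter_upwards [eventually_ge_atTop 1] with y hy
      have k2 := h1 x _ (2 * (√U)⁻¹) y A ha (by linarith) hy
      rw [inv_inv, Real.sq_sqrt (by linarith)] at k2
      refine le_trans ?_ (add_le_add le_rfl (mul_le_mul_of_nonneg_left k2 two_pos.le))
      rw [Finset.mul_sum, Finset.mul_sum, ← Finset.sum_add_distrib]
      refine Finset.sum_le_sum fun m _ => ?_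
      have k3 := nq_tri (b := 2 * (√U)⁻¹) (k := fun _ => 0) ha
        (ck (Classical.epsilon (Lm x 1 m)) m) (cc x 1 m (one_pos.trans_le hy)) continuousOn_const
      simp only [sub_zero] at k3
      refine k3.trans (le_of_eq ?_)
      simp only [nq, norm_sub_rev (cn x 1 m y _)]
    have k4 : c * ∑ m ∈ A, ‖ta (fun x m => Classical.epsilon (Lm x 1 m)) x m‖ ^ 2 ≤
        2 * (C * (1 + U)) := by
      rw [Finset.mul_sum]
      exact (Finset.sum_le_sum fun m k => hc U m _ hU (hm m k)).trans k1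
    rw [div_mul_eq_mul_div, le_div_iff₀' c0]
    nlinarith [le_abs_self C, abs_nonneg C]
  · obtain ⟨Y, hY⟩ := h2 x a b (ε / 2) ha hab (half_pos hε)
    refine ⟨max Y 1, fun y hy A => ?_⟩
    have k := ((hn x a b A ha).const_mul 2).const_add ε
    rw [mul_zero, add_zero] at k
    refine ge_of_tendsto k ?_
    filter_upwards [eventually_ge_atTop (max Y 1)] with y' hy'
    have k2 := hY y ((le_max_left _ _).trans hy) y' ((le_max_left _ _).trans hy') A
    refine le_trans ?_ (add_le_add (show 2 * ∑ m ∈ A, nq a b (fun v => cn x 1 m y v -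
      cn x 1 m y' v) ≤ ε by linarith) le_rfl)
    rw [Finset.mul_sum, Finset.mul_sum, ← Finset.sum_add_distrib]
    exact Finset.sum_le_sum fun m _ => nq_tri ha
      (cc x 1 m (one_pos.trans_le ((le_max_right _ _).trans hy)))
      (cc x 1 m (one_pos.trans_le ((le_max_right _ _).trans hy'))) (ck _ m)

end Pool.Agent.P.MP_26a8c3_nt.QT
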