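import Pool.Agent.P.MP_26a8c3_nt.QT.St

/-! Automorphy of the limit series. -/

namespace Pool.Agent.P.MP_26a8c3_nt.QT

open MeasureTheory Set Filter Topology
open Pool.Agent.P.MP_26a8c3_nt.QO Pool.Agent.P.MP_26a8c3_nt.QH Pool.Agent.P.MP_26a8c3_nt.QK
open scoped Classical MatrixGroups ComplexConjugate ENNReal

namespace Aut

lemma image_rows {g : SL(2, O)} (hg : g ∈ G0) (x : O) :
    rm g '' rows x 1 = rows (x + g 1 0) 1 := by
  obtain ⟨⟨b, hb⟩, hd⟩ := mem_G0.1 hg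
  have ha := primary00 ⟨b, hb⟩ hd
  have hdet := det2 g
  ext ⟨c', d'⟩
  constructor
  · rintro ⟨⟨c, d⟩, ⟨⟨k, hk⟩, -, h3⟩, e⟩
    simp only [rm, Prod.mk.injEq] at e hk h3
    obtain ⟨rfl, rfl⟩ := e
    refine ⟨?_, one_dvd _, (h3.mul hd).of_dvd_sub ⟨3 * c * b, by simp only [hb]; ring⟩⟩
    obtain ⟨s, hs⟩ := ha
    obtain ⟨t, ht⟩ := h3
    exact ⟨c * s + k + t * g 1 0, by linear_combination c * hs + hk + g 1 0 * ht⟩
  · rintro ⟨⟨k, hk⟩, -, h3⟩
    simp only at hk h3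
    refine ⟨(c' * g 1 1 - d' * g 1 0, -(c' * g 0 1) + d' * g 0 0),
      ⟨?_, one_dvd _, (h3.mul ha).of_dvd_sub ⟨-(3 * c' * b), by simp only [hb]; ring⟩⟩, ?_⟩
    · obtain ⟨s, hs⟩ := hd
      obtain ⟨t, ht⟩ := h3
      exact ⟨c' * s + k - t * g 1 0, by linear_combination c' * hs + hk - g 1 0 * ht⟩
    · simp only [rm, Prod.mk.injEq]
      exact ⟨by linear_combination c' * hdet, by linear_combination d' * hdet⟩

lemma emb (g : SL(2, O)) : MeasurableEmbedding (ac g) :=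
  (MeasurableEquiv.mk ⟨ac g, ac g⁻¹, ac_inv_ac g, ac_ac_inv g⟩ (measurable_ac g)
    (measurable_ac g⁻¹)).measurableEmbedding

lemma enorm_sq_le (a b k : ℂ) (hk : ‖k‖ ≤ 1) :
    ‖-a + k * b‖ₑ ^ 2 ≤ 2 * ‖a‖ₑ ^ 2 + 2 * ‖b‖ₑ ^ 2 := by
  have h1 : ‖-a + k * b‖ ≤ ‖a‖ + ‖b‖ := by
    refine (norm_add_le _ _).trans ?_
    rw [norm_neg, norm_mul]
    nlinarith [norm_nonneg b, norm_nonneg k]
  have h2 : ‖-a + k * b‖ ^ 2 ≤ 2 * ‖a‖ ^ 2 + 2 * ‖b‖ ^ 2 := by
    nlinarith [norm_nonneg (-a + k * b), sq_nonneg (‖a‖ - ‖b‖), norm_nonneg a, norm_nonneg b]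
  have e : ∀ z : ℂ, ‖z‖ₑ ^ 2 = ENNReal.ofReal (‖z‖ ^ 2) := fun z => by
    rw [ENNReal.ofReal_pow (norm_nonneg _), ofReal_norm]
  rw [e, e, e, ← ENNReal.ofReal_ofNat 2, ← ENNReal.ofReal_mul (by norm_num),
    ← ENNReal.ofReal_mul (by norm_num), ← ENNReal.ofReal_add (by positivity) (by positivity)]
  exact ENNReal.ofReal_le_ofReal h2

/-- a continuous function with vanishing square integral on an open set vanishes there -/
lemma eq_zero {U : Set (ℂ × ℝ)} (hU : IsOpen U) (hs : U ⊆ {w | 0 < w.2}) {D : ℂ × ℝ → ℂ}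
    (hD : ContinuousOn D U) (h : ∫⁻ w in U, ‖D w‖ₑ ^ 2 ∂dm = 0) : ∀ w ∈ U, D w = 0 := by
  have h1 := (lintegral_eq_zero_iff'
    ((hD.aemeasurable hU.measurableSet).enorm.pow_const 2)).1 h
  have h2 : (volume.restrict {w : ℂ × ℝ | 0 < w.2}) ≪ dm := by
    rw [dm_eq]
    refine withDensity_absolutelyContinuous' (measurable_rho.comp measurable_snd).aemeasurable ?_
    filter_upwards [ae_restrict_mem measurableSet_up] with w hw
    have : 0 < w.2 := hw
    exact (ENNReal.ofReal_pos.2 (by positivity)).ne'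
  have h3 := h2.restrict U
  rw [Measure.restrict_restrict hU.measurableSet, inter_eq_left.2 hs] at h3
  have h4 : D =ᵐ[volume.restrict U] fun _ => 0 := by
    filter_upwards [h3.ae_le h1] with w hw
    simpa using hw
  exact Measure.eqOn_open_of_ae_eq h4 hU hD continuousOn_const

end Aut

open Aut in
theorem pAut (hb : S_Bd) (ht : S_Tr) (hc : S_Cont) (hl : S_Loc) : S_Aut := by
  intro As hA g x w0 hg hw0
  set ka : ℂ := conj (chi (g 1 1) (g 1 0)) with hka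
  have hk1 : ‖ka‖ ≤ 1 := by rw [hka, Complex.norm_conj]; exact norm_chi_le _ _
  have hw1 := ac_snd_pos g hw0
  set w1 := ac g w0 with hw1d
  have hup : IsOpen {w : ℂ × ℝ | 0 < w.2} := isOpen_lt continuous_const continuous_snd
  let B : ℂ × ℝ → Set (ℂ × ℝ) := fun w => Metric.ball w.1 1 ×ˢ Ioo (w.2 / 2) (2 * w.2)
  let B' : ℂ × ℝ → Set (ℂ × ℝ) := fun w => Metric.ball w.1 1 ×ˢ Icc (w.2 / 2) (2 * w.2)
  have hBo : ∀ w, IsOpen (B w) := fun w => Metric.isOpen_ball.prod isOpen_Ioo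
  have hBs : ∀ w, B w ⊆ B' w := fun w => prod_mono subset_rfl Ioo_subset_Icc_self
  have hBm : ∀ w : ℂ × ℝ, 0 < w.2 → w ∈ B w := fun w hw =>
    ⟨Metric.mem_ball_self one_pos, by linarith, by linarith⟩
  let U : Set (ℂ × ℝ) := ({w | 0 < w.2} ∩ ac g ⁻¹' B w1) ∩ B w0
  have hU : IsOpen U := ((continuousOn_ac g).isOpen_inter_preimage hup (hBo w1)).inter (hBo w0)
  have hUs : U ⊆ {w | 0 < w.2} := fun w hw => hw.1.1
  let D : ℂ × ℝ → ℂ := fun w => tht (As x) (ac g w) - ka * tht (As (x + g 1 0)) w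
  have hc2 : ContinuousOn (tht (As (x + g 1 0))) U := (hc As hA _).2.mono hUs
  have hD : ContinuousOn D U :=
    (((hc As hA x).2.comp (continuousOn_ac g) fun w hw => ac_snd_pos g hw).mono hUs).sub
      (continuousOn_const.mul hc2)
  have key : ∀ y, 0 < y → ∫⁻ w in U, ‖D w‖ₑ ^ 2 ∂dm ≤
      2 * (∫⁻ w in B' w1, ‖FT x 1 y w - tht (As x) w‖ₑ ^ 2 ∂dm) +
        2 * ∫⁻ w in B' w0, ‖FT (x + g 1 0) 1 y w - tht (As (x + g 1 0)) w‖ₑ ^ 2 ∂dm := by
    intro y hy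
    have hm : AEMeasurable (fun w => FT (x + g 1 0) 1 y w - tht (As (x + g 1 0)) w)
        (dm.restrict U) :=
      ((hb.2.1 _ y hy).const_mul _).aemeasurable.sub (hc2.aemeasurable hU.measurableSet)
    calc _ ≤ ∫⁻ w in U, (2 * ‖FT x 1 y (ac g w) - tht (As x) (ac g w)‖ₑ ^ 2 +
          2 * ‖FT (x + g 1 0) 1 y w - tht (As (x + g 1 0)) w‖ₑ ^ 2) ∂dm := by
          refine setLIntegral_mono' hU.measurableSet fun w hw => ?_
          refine le_trans (le_of_eq ?_) (enorm_sq_le _ _ ka hk1)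
          congr 2
          have := ht g (rows x 1) y w hg (fun r hr => hr.2.2) (hUs hw)
          rw [image_rows hg] at this
          simp only [D, FT, this]
          ring
      _ = 2 * (∫⁻ w in U, ‖FT x 1 y (ac g w) - tht (As x) (ac g w)‖ₑ ^ 2 ∂dm) +
          2 * ∫⁻ w in U, ‖FT (x + g 1 0) 1 y w - tht (As (x + g 1 0)) w‖ₑ ^ 2 ∂dm := by
          rw [lintegral_add_right' _ ((hm.enorm.pow_const 2).const_mul 2),
            lintegral_const_mul' _ _ (by simp), lintegral_const_mul' _ _ (by simp)]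
      _ ≤ _ := by
          refine add_le_add (mul_le_mul_right ?_ _) (mul_le_mul_right ?_ _)
          · rw [← (mp_ac g).setLIntegral_comp_preimage_emb (emb g) _ (B' w1)]
            exact lintegral_mono_set fun w hw => hBs _ hw.1.2
          · exact lintegral_mono_set fun w hw => hBs _ hw.2
  have lim := (ENNReal.Tendsto.const_mul (a := 2)
      (hl As hA x w1.1 (w1.2 / 2) (2 * w1.2) (by linarith) (by linarith)) (Or.inr (by simp))).add
    (ENNReal.Tendsto.const_mul (a := 2)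
      (hl As hA (x + g 1 0) w0.1 (w0.2 / 2) (2 * w0.2) (by linarith) (by linarith)) (Or.inr (by simp)))
  have h0 : ∫⁻ w in U, ‖D w‖ₑ ^ 2 ∂dm = 0 := by
    refine le_antisymm ?_ zero_le
    simpa using ge_of_tendsto lim ((eventually_gt_atTop 0).mono key)
  exact sub_eq_zero.1 (eq_zero hU hUs hD h0 w0 ⟨⟨hw0, hBm w1 hw1⟩, hBm w0 hw0⟩)

end Pool.Agent.P.MP_26a8c3_nt.QT
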