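import Pool.Agent.P.MP_26a8c3_nt.QT.St

/-! Convergence, size, measurability and periodicity of the approximate theta function. -/

namespace Pool.Agent.P.MP_26a8c3_nt.QT

open MeasureTheory Set Filter Topology
open Pool.Agent.P.MP_26a8c3_nt.QO Pool.Agent.P.MP_26a8c3_nt.QH Pool.Agent.P.MP_26a8c3_nt.QK
open scoped Classical MatrixGroups ComplexConjugate ENNReal

namespace Bd

lemma wt_nonneg (y : ℝ) (w : ℂ × ℝ) (r : O × O) : 0 ≤ wt y w r := by
  unfold wt
  split_ifs
  exacts [(Real.exp_pos _).le, le_rfl]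

lemma wt_eq {y : ℝ} {w : ℂ × ℝ} (hy : 0 < y) (hw : 0 < w.2) (c d : O) :
    wt y w (c, d) = Real.exp (-(‖toC d + toC c * w.1‖ ^ 2 / (y * w.2))) *
      Real.exp (-(‖toC c + 0‖ ^ 2 / (y / w.2))) := by
  rw [wt, if_pos hw, ← Real.exp_add, Dl, Complex.sq_norm, Complex.sq_norm, add_zero,
    add_comm (toC d)]
  congr 1
  field_simp
  ring

lemma inner_le {y : ℝ} {w : ℂ × ℝ} (hy : 0 < y) (hw : 0 < w.2) (c : O) :
    ∑' d, wt y w (c, d) ≤
      th * a0 * (1 + y * w.2) * Real.exp (-(‖toC c + 0‖ ^ 2 / (y / w.2))) := by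
  simp only [wt_eq hy hw]
  rw [tsum_mul_right]
  exact mul_le_mul_of_nonneg_right (tsum_exp_shift_le (mul_pos hy hw) _) (Real.exp_pos _).le

lemma inner_summable {y : ℝ} {w : ℂ × ℝ} (hy : 0 < y) (hw : 0 < w.2) (c : O) :
    Summable fun d => wt y w (c, d) := by
  simp only [wt_eq hy hw]
  exact (summable_exp_shift (mul_pos hy hw) _).mul_right _

lemma outer_summable {y : ℝ} {w : ℂ × ℝ} (hy : 0 < y) (hw : 0 < w.2) :
    Summable fun c => ∑' d, wt y w (c, d) :=
  Summable.of_nonneg_of_le (fun _ => tsum_nonneg fun _ => wt_nonneg _ _ _) (inner_le hy hw)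
    ((summable_exp_shift (div_pos hy hw) 0).mul_left _)

lemma summable_wt {y : ℝ} {w : ℂ × ℝ} (hy : 0 < y) (hw : 0 < w.2) : Summable (wt y w) :=
  (summable_prod_of_nonneg fun r => wt_nonneg y w r).2
    ⟨inner_summable hy hw, outer_summable hy hw⟩

lemma tsum_wt_le {y : ℝ} {w : ℂ × ℝ} (hy : 0 < y) (hw : 0 < w.2) :
    ∑' r, wt y w r ≤ (th * a0) ^ 2 * ((1 + y / w.2) * (1 + y * w.2)) := by
  have h0 : 0 ≤ th * a0 * (1 + y * w.2) := by
    have := one_le_th
    have := a0_pos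
    positivity
  rw [(summable_wt hy hw).tsum_prod]
  refine ((outer_summable hy hw).tsum_le_tsum (inner_le hy hw)
    ((summable_exp_shift (div_pos hy hw) 0).mul_left _)).trans ?_
  rw [tsum_mul_left]
  refine (mul_le_mul_of_nonneg_left (tsum_exp_shift_le (div_pos hy hw) 0) h0).trans_eq ?_
  ring

lemma term_le (S : Set (O × O)) (y : ℝ) (w : ℂ × ℝ) (r : O × O) :
    ‖(if r ∈ S then chi r.2 r.1 * (wt y w r : ℝ) else 0 : ℂ)‖ ≤ wt y w r := by
  split_ifs
  · rw [norm_mul, Complex.norm_real, Real.norm_of_nonneg (wt_nonneg y w r)]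
    exact mul_le_of_le_one_left (wt_nonneg y w r) (norm_chi_le _ _)
  · simpa using wt_nonneg y w r

lemma norm_TH_le {y : ℝ} {w : ℂ × ℝ} (hy : 0 < y) (hw : 0 < w.2) (S : Set (O × O)) :
    ‖TH S y w‖ ≤ ∑' r, wt y w r :=
  tsum_of_norm_bounded (summable_wt hy hw).hasSum (term_le S y w)

lemma measurable_wt (y : ℝ) (r : O × O) : Measurable fun w => wt y w r := by
  unfold wt
  refine Measurable.ite (measurableSet_lt measurable_const measurable_snd) ?_ measurable_const
  exact (((continuous_Dl _ _).measurable.div (measurable_snd.const_mul y)).neg).exp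

lemma measurable_TH (S : Set (O × O)) (y : ℝ) : Measurable (TH S y) := by
  unfold TH
  refine Measurable.tsum fun r => ?_
  split_ifs
  · exact (Complex.measurable_ofReal.comp (measurable_wt y r)).const_mul _
  · exact measurable_const

/-- the shear of rows that corresponds to a translation -/
def sh (b : O) : O × O ≃ O × O where
  toFun r := (r.1, r.2 + r.1 * b)
  invFun r := (r.1, r.2 - r.1 * b)
  left_inv r := by simp
  right_inv r := by simp

lemma per (A : Alg) (x q : O) (y : ℝ) : Per9 (TH (rows x q) y) := by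
  intro t w hw
  unfold TH
  symm
  rw [← (sh (9 * t)).tsum_eq]
  refine tsum_congr fun r => ?_
  obtain ⟨c, d⟩ := r
  have h3 : (3 : O) ∣ c * (9 * t) := ⟨c * (3 * t), by ring⟩
  have hp : Primary (d + c * (9 * t)) ↔ Primary d :=
    ⟨fun h => h.of_dvd_sub (by simpa using h3), fun h => h.of_dvd_sub (by simpa using h3)⟩
  have hm : sh (9 * t) (c, d) ∈ rows x q ↔ (c, d) ∈ rows x q := by
    simp only [sh, rows, Equiv.coe_fn_mk, mem_ofPred_eq, hp]
  by_cases h : (c, d) ∈ rows x q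
  · rw [if_pos h, if_pos (hm.2 h)]
    have e1 : chi (d + c * (9 * t)) c = chi d c :=
      A.r2 c _ _ (hp.2 h.2.2) h.2.2 ⟨c * t, by ring⟩ ⟨9 * t, by ring⟩
    have e2 : wt y w (c, d + c * (9 * t)) = wt y (w.1 + toC (9 * t), w.2) (c, d) := by
      have e : toC c * w.1 + toC (d + c * (9 * t)) = toC c * (w.1 + toC (9 * t)) + toC d := by
        rw [map_add, map_mul toC c]
        ring
      simp only [wt, Dl, e]
    simp only [sh, Equiv.coe_fn_mk, e1, e2]
  · rw [if_neg h, if_neg (mt hm.1 h)]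

end Bd

theorem pBd (A : Alg) : S_Bd :=
  ⟨⟨(th * a0) ^ 2, fun _ _ hy hw => ⟨Bd.summable_wt hy hw, Bd.tsum_wt_le hy hw,
    fun S => (Bd.norm_TH_le hy hw S).trans (Bd.tsum_wt_le hy hw)⟩⟩,
    fun S y _ => Bd.measurable_TH S y, fun x q y _ => Bd.per A x q y⟩

end Pool.Agent.P.MP_26a8c3_nt.QT
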