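import Pool.Agent.P.MP_26a8c3_nt.QT.St
import Pool.Agent.P.MP_26a8c3_nt.QH.Unf

/-! Mean square bounds on boxes. -/

namespace Pool.Agent.P.MP_26a8c3_nt.QT

open MeasureTheory Set Filter Topology
open Pool.Agent.P.MP_26a8c3_nt.QO Pool.Agent.P.MP_26a8c3_nt.QH Pool.Agent.P.MP_26a8c3_nt.QK
open scoped Classical MatrixGroups ComplexConjugate ENNReal

namespace Box

theorem image_rows {g : SL(2, O)} (hg : g ∈ G0) (x q : O) : rm g '' rows x q =
    {r | (3 : O) ∣ r.1 - (x + g 1 0) ∧ q ∣ r.1 * g 1 1 - g 1 0 * r.2 ∧ Primary r.2} := by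
  have hd := det2 g
  obtain ⟨⟨b, hb⟩, h11⟩ := mem_G0.1 hg
  obtain ⟨a, ha⟩ := primary00 ⟨b, hb⟩ h11
  obtain ⟨e, he⟩ := h11
  ext r
  constructor
  · rintro ⟨⟨c, d⟩, ⟨⟨s, hs⟩, h2, ⟨t, ht⟩⟩, rfl⟩
    simp only [rm, mem_ofPred_eq] at *
    refine ⟨⟨c * a + s + t * g 1 0, by linear_combination c * ha + hs + g 1 0 * ht⟩, ?_,
      ⟨c * 3 * b + d * e + t, by linear_combination c * hb + d * he + ht⟩⟩
    convert h2 using 1
    linear_combination c * hd
  · rintro ⟨⟨s, hs⟩, h2, ⟨t, ht⟩⟩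
    refine ⟨(r.1 * g 1 1 - g 1 0 * r.2, -(r.1 * g 0 1) + r.2 * g 0 0),
      ⟨⟨r.1 * e + s - g 1 0 * t, by linear_combination r.1 * he + hs - g 1 0 * ht⟩, h2,
        ⟨-(r.1 * 3 * b) + r.2 * a + t, by linear_combination (-r.1) * hb + r.2 * ha + ht⟩⟩, ?_⟩
    refine Prod.ext ?_ ?_
    · simp only [rm]; linear_combination r.1 * hd
    · simp only [rm]; linear_combination r.2 * hd

theorem TH_congr {S S' : Set (O × O)} (hS : ∀ r ∈ S, Primary r.2) (hS' : ∀ r ∈ S', Primary r.2)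
    (h : ∀ r : Row, r.1 ∈ S ↔ r.1 ∈ S') (y : ℝ) (w : ℂ × ℝ) : TH S y w = TH S' y w := by
  refine tsum_congr fun r => ?_
  by_cases hp : Primary r.2
  · by_cases hc : IsCoprime r.1 r.2
    · exact if_congr (h ⟨r, hc, hp⟩) rfl rfl
    · rw [(chi_eq_zero hp.ne_zero).2 hc]
      simp
  · rw [if_neg fun e => hp (hS r e), if_neg fun e => hp (hS' r e)]

theorem conj_nf (y : ℝ) : conj (nf y) = nf y := Complex.conj_ofReal _

theorem norm_ka (g : SL(2, O)) (hg : g ∈ G0) : ‖conj (chi (g 1 1) (g 1 0))‖ = 1 := by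
  rw [Complex.norm_conj]
  exact norm_chi hg.2.ne_zero (cop_row g)

theorem meas_FT (hb : S_Bd) (x q : O) {y : ℝ} (hy : 0 < y) : Measurable (FT x q y) :=
  (hb.2.1 _ _ hy).const_mul _

theorem per_FT (hb : S_Bd) (x q : O) {y : ℝ} (hy : 0 < y) : Per9 (FT x q y) := fun t w hw => by
  simp only [FT, hb.2.2 x q y hy t w hw]

/-- the normalised sum over a class of rows -/
noncomputable def Tl {L : Type} (lab : O × O → L) (l : L) (y : ℝ) (w : ℂ × ℝ) : ℂ :=
  nf y * TH {r | Primary r.2 ∧ lab r = l} y w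

theorem gen (hb : S_Bd) (hi : S_Inn) (hc : S_Cls) (q : O) {L : Type} [Fintype L]
    (lab : O × O → L) (hl : ∀ r r' : Row, lab r.1 = lab r'.1 ↔
      (3 : O) ∣ r.1.1 - r'.1.1 ∧ q ∣ r.1.1 * r'.1.2 - r'.1.1 * r.1.2)
    {y y' : ℝ} (hy : 0 < y) (hy' : 0 < y') :
    Integrable (fun w => ∑ l, Tl lab l y w * conj (Tl lab l y' w)) muG ∧
      ∫ w, ∑ l, Tl lab l y w * conj (Tl lab l y' w) ∂muG = JJ q y y' := by
  obtain ⟨-, -, h1, h2⟩ := unfold row_sec0
    (Ψ := fun w => nf y * ((Real.exp (-(1 / (y * w.2))) : ℝ) : ℂ) * conj (FT 0 q y' w))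
    (fun t w hw => by simp only [per_FT hb 0 q hy' t w hw]) (hi.1 q y y' hy hy')
  have e : (fun w => ∑' r : Row, nf y * ((Real.exp (-(1 / (y * (ac (sec0 r) w).2))) : ℝ) : ℂ) *
      conj (FT 0 q y' (ac (sec0 r) w))) =ᵐ[muG]
      fun w => ∑ l, Tl lab l y w * conj (Tl lab l y' w) := ae_up_muG.mono fun w hw => by
    have := hc q L lab hl y y' w hy hy' hw
    simp only [Tl, FT, map_mul, conj_nf]
    rw [Finset.sum_congr rfl fun l _ => mul_mul_mul_comm _ _ _ _, ← Finset.mul_sum, ← this,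
      ← tsum_mul_left]
    exact tsum_congr fun r => by ring
  exact ⟨h1.congr e, (integral_congr_ae e).symm.trans h2⟩

theorem trf {Φ : ℂ × ℝ → ℂ} (hm : Measurable Φ) (hp : Per9 Φ) {M : ℂ × ℝ → ℝ}
    (hM : Integrable M muG) (h : ∀ g ∈ G0, ∀ w : ℂ × ℝ, 0 < w.2 → ‖Φ (ac g w)‖ ^ 2 ≤ M w)
    {δ : ℝ} (hδ : 0 < δ) {b : ℝ} (hb : ∫ w, M w ∂muG ≤ b) :
    ∫⁻ w in FF ×ˢ Ici δ, ‖Φ w‖ₑ ^ 2 ∂dm ≤ ENNReal.ofReal (64 * b * (1 + δ⁻¹ ^ 2)) := by
  have hS : MeasurableSet {w : ℂ × ℝ | δ ≤ w.2} := measurableSet_le measurable_const measurable_snd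
  have e : FF ×ˢ Ici δ = {w : ℂ × ℝ | δ ≤ w.2} ∩ St := by
    ext w
    exact ⟨fun h => ⟨h.2, h.1, hδ.trans_le h.2⟩, fun h => ⟨h.2.1, h.1⟩⟩
  have h0 : 0 ≤ᵐ[muG] M := ae_up_muG.mono fun w hw => (sq_nonneg _).trans (h 1 G0.one_mem w hw)
  have hm2 : Measurable fun w => ‖Φ w‖ₑ ^ 2 := hm.enorm.pow_const 2
  have k : ENNReal.ofReal (64 * (1 + δ⁻¹ ^ 2)) * ∫⁻ w, ENNReal.ofReal (M w) ∂muG ≤
      ENNReal.ofReal (64 * b * (1 + δ⁻¹ ^ 2)) := by
    rw [← ofReal_integral_eq_lintegral_ofReal hM h0, ← ENNReal.ofReal_mul (by positivity)]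
    refine ENNReal.ofReal_le_ofReal ?_
    have : 0 ≤ 64 * (1 + δ⁻¹ ^ 2) := by positivity
    nlinarith
  refine le_trans ?_ k
  rw [e, ← Measure.restrict_restrict hS, ← lintegral_indicator hS,
    ← unfold_l row_sec0 (hm2.indicator hS) fun t w hw => by
      simp only [indicator, mem_ofPred_eq, hp t w hw],
    ← lintegral_const_mul' _ _ ENNReal.ofReal_ne_top]
  refine lintegral_mono_ae (ae_up_muG.mono fun w hw => ?_)
  obtain ⟨a, b⟩ := pack hw hδ
  have e2 : ∀ r, {w : ℂ × ℝ | δ ≤ w.2}.indicator (fun w => ‖Φ w‖ₑ ^ 2) (ac (sec0 r) w) ≤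
      {r : Row | δ ≤ hr r w}.indicator (fun _ => 1) r * ENNReal.ofReal (M w) := fun r => by
    simp only [indicator, mem_ofPred_eq, ← hr_row _ hw, row_sec0, ite_mul, one_mul, zero_mul]
    split_ifs
    · rw [← ofReal_norm, ← ENNReal.ofReal_pow (norm_nonneg _)]
      exact ENNReal.ofReal_le_ofReal (h _ (sec0 r).2 w hw)
    · exact le_rfl
  refine (ENNReal.tsum_le_tsum e2).trans ?_
  rw [ENNReal.tsum_mul_right, ← tsum_subtype, ENNReal.tsum_set_one, ← a.cast_ncard_eq]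
  refine mul_le_mul_left ?_ _
  simpa using ENNReal.ofReal_le_ofReal b

theorem sq_re (z : ℂ) : ‖z‖ ^ 2 = (z * conj z).re := by
  rw [Complex.mul_conj, Complex.ofReal_re, Complex.normSq_eq_norm_sq]

instance : Finite (Rq 3) := finite_Rq (by decide)

noncomputable instance : Fintype (Rq 3) := Fintype.ofFinite _

/-- the class of the cusp -/
def lab1 (r : O × O) : Rq 3 := mk 3 r.1

theorem lab1_iff (r r' : Row) : lab1 r.1 = lab1 r'.1 ↔
    (3 : O) ∣ r.1.1 - r'.1.1 ∧ (1 : O) ∣ r.1.1 * r'.1.2 - r'.1.1 * r.1.2 := by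
  simp [lab1, mk_eq_iff]

theorem FT_ac (ht : S_Tr) {g : SL(2, O)} (hg : g ∈ G0) (x : O) (y : ℝ) {w : ℂ × ℝ}
    (hw : 0 < w.2) : FT x 1 y (ac g w) =
      conj (chi (g 1 1) (g 1 0)) * Tl lab1 (mk 3 (x + g 1 0)) y w := by
  rw [FT, ht g _ y w hg (fun r h => h.2.2) hw, image_rows hg, Tl, mul_left_comm]
  congr 3
  ext r
  simp [lab1, mk_eq_iff, and_comm, -map_add]

/-- the class of a row in the projective line -/
noncomputable def lab2 (p : O) [Fact (Prime p)] (r : O × O) : Option (Rq p) :=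
  if p ∣ r.2 then none else some (mk p r.1 / mk p r.2)

theorem lab2_iff (p : O) [hp : Fact (Prime p)] {r r' : O × O} (h : IsCoprime r.1 r.2)
    (h' : IsCoprime r'.1 r'.2) : lab2 p r = lab2 p r' ↔ p ∣ r.1 * r'.2 - r'.1 * r.2 := by
  have k : ∀ {a b : O}, IsCoprime a b → p ∣ a → p ∣ b → False := fun h a b =>
    hp.out.not_isUnit (h.isUnit_of_dvd' a b)
  unfold lab2
  split_ifs with h1 h2 h2
  · exact iff_of_true rfl (dvd_sub (h2.mul_left _) (h1.mul_left _))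
  · refine iff_of_false (by simp) fun e => ?_
    have := dvd_add e (h1.mul_left r'.1)
    rw [sub_add_cancel] at this
    exact (hp.out.dvd_or_dvd this).elim (fun a => k h a h1) h2
  · refine iff_of_false (by simp) fun e => ?_
    have := dvd_sub (h2.mul_left r.1) e
    rw [sub_sub_cancel] at this
    exact (hp.out.dvd_or_dvd this).elim (fun a => k h' a h2) h1
  · rw [Option.some_inj, div_eq_div_iff (mt mk_eq_zero.1 h1) (mt mk_eq_zero.1 h2), ← map_mul,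
      ← map_mul, mk_eq_iff]

/-- the joint class -/
noncomputable def lab3 (p : O) [Fact (Prime p)] (r : O × O) : Rq 3 × Option (Rq p) :=
  (lab1 r, lab2 p r)

theorem lab3_iff (p : O) [Fact (Prime p)] (r r' : Row) : lab3 p r.1 = lab3 p r'.1 ↔
    (3 : O) ∣ r.1.1 - r'.1.1 ∧ p ∣ r.1.1 * r'.1.2 - r'.1.1 * r.1.2 := by
  rw [lab3, lab3, Prod.mk.injEq, lab2_iff p r.2.1 r'.2.1, lab1, lab1, mk_eq_iff]

theorem FT_ac3 (ht : S_Tr) (p : O) [Fact (Prime p)] {g : SL(2, O)} (hg : g ∈ G0) (x : O) (y : ℝ)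
    {w : ℂ × ℝ} (hw : 0 < w.2) : FT x p y (ac g w) = conj (chi (g 1 1) (g 1 0)) *
      Tl (lab3 p) (mk 3 (x + g 1 0), lab2 p (g 1 0, g 1 1)) y w := by
  rw [FT, ht g _ y w hg (fun r h => h.2.2) hw, image_rows hg, Tl, mul_left_comm]
  congr 2
  refine TH_congr (fun r h => h.2.2) (fun r h => h.1) (fun r => ?_) y w
  simp only [mem_ofPred_eq, lab3, Prod.mk.injEq, lab1, mk_eq_iff,
    lab2_iff p r.2.1 (r' := (g 1 0, g 1 1)) (cop_row g), r.2.2, and_true, true_and]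

theorem Tl_sum (hb : S_Bd) (p : O) [Fact (Prime p)] (x : Rq 3) {y : ℝ} (hy : 0 < y)
    {w : ℂ × ℝ} (hw : 0 < w.2) : ∑ o, Tl (lab3 p) (x, o) y w = Tl lab1 x y w := by
  obtain ⟨C, hC⟩ := hb.1
  simp only [Tl, TH]
  rw [← Finset.mul_sum, ← Summable.tsum_finsetSum fun o _ => ?_]
  · congr 1
    refine tsum_congr fun r => ?_
    simp only [mem_ofPred_eq, lab3, Prod.mk.injEq, ← and_assoc, ite_and (_ ∧ _)]
    split_ifs
    · simp
    · simp
  · refine (hC y w hy hw).1.of_norm_bounded fun r => ?_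
    have h0 : 0 ≤ wt y w r := by
      unfold wt
      split_ifs <;> positivity
    split_ifs
    · rw [norm_mul, Complex.norm_real, Real.norm_of_nonneg h0]
      exact mul_le_of_le_one_left h0 (norm_chi_le _ _)
    · simpa using h0

theorem var_eq {ι : Type} [Fintype ι] (a : ι → ℂ) {n : ℝ} (hn : (Fintype.card ι : ℝ) = n)
    (h0 : n ≠ 0) : ∑ i, (a i - (∑ j, a j) / n) * conj (a i - (∑ j, a j) / n) =
      ∑ i, a i * conj (a i) - (∑ j, a j) * conj (∑ j, a j) / n := by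
  have hc : ((Fintype.card ι : ℕ) : ℂ) = n := by exact_mod_cast hn
  have h1 : (n : ℂ) ≠ 0 := by exact_mod_cast h0
  generalize hs : ∑ j, a j = s
  have e : ∀ i, (a i - s / n) * conj (a i - s / n) =
      a i * conj (a i) - a i * (conj s / n) - conj (a i) * (s / n) + s / n * (conj s / n) :=
    fun i => by rw [map_sub, map_div₀, Complex.conj_ofReal]; ring
  simp only [e, Finset.sum_add_distrib, Finset.sum_sub_distrib, ← Finset.sum_mul, ← map_sum, hs,
    Finset.sum_const, Finset.card_univ, nsmul_eq_mul, hc]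
  field_simp
  ring

end Box

open Box

theorem pBox1 (hb : S_Bd) (ht : S_Tr) (hi : S_Inn) (hc : S_Cls) : S_Box1 := by
  obtain ⟨R, C, h1, h2, -⟩ := hi.2
  have G := fun {y y' : ℝ} (hy : 0 < y) (hy' : 0 < y') => gen hb hi hc 1 lab1 lab1_iff hy hy'
  refine ⟨⟨64 * C, fun x v0 y hv hy => ?_⟩, fun v0 ε hv hε => ?_⟩
  · have hy0 : 0 < y := one_pos.trans_le hy
    refine trf (meas_FT hb x 1 hy0) (per_FT hb x 1 hy0) (G hy0 hy0).1.re (fun g hg w hw => ?_) hv ?_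
    · rw [FT_ac ht hg x y hw, norm_mul, norm_ka g hg, one_mul]
      simp only [RCLike.re_to_complex, Complex.re_sum, ← sq_re]
      exact Finset.single_le_sum (f := fun l => ‖Tl lab1 l y w‖ ^ 2) (fun _ _ => sq_nonneg _)
        (Finset.mem_univ _)
    · rw [integral_re (G hy0 hy0).1, (G hy0 hy0).2]
      exact (Complex.re_le_norm _).trans (h1 y hy)
  · have hK : 0 < 64 * (1 + v0⁻¹ ^ 2) := by positivity
    obtain ⟨Y, hY⟩ := h2 (ε / (64 * (1 + v0⁻¹ ^ 2)) / 4) (by positivity)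
    refine ⟨max Y 1, fun x y hy y' hy' => ?_⟩
    have a1 : Y ≤ y := (le_max_left _ _).trans hy
    have a2 : Y ≤ y' := (le_max_left _ _).trans hy'
    have p1 : 0 < y := one_pos.trans_le ((le_max_right _ _).trans hy)
    have p2 : 0 < y' := one_pos.trans_le ((le_max_right _ _).trans hy')
    have I := (((G p1 p1).1.sub (G p1 p2).1).sub ((G p2 p1).1.sub (G p2 p2).1))
    refine (trf (Φ := fun w => FT x 1 y w - FT x 1 y' w) (b := ε / (64 * (1 + v0⁻¹ ^ 2)))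
      ((meas_FT hb x 1 p1).sub (meas_FT hb x 1 p2))
      (fun t w hw => by simp only [per_FT hb x 1 p1 t w hw, per_FT hb x 1 p2 t w hw]) I.re
      (fun g hg w hw => ?_) hv ?_).trans (le_of_eq ?_)
    · rw [FT_ac ht hg x y hw, FT_ac ht hg x y' hw, ← mul_sub, norm_mul, norm_ka g hg, one_mul]
      refine (Finset.single_le_sum (f := fun l => ‖Tl lab1 l y w - Tl lab1 l y' w‖ ^ 2)
        (fun _ _ => sq_nonneg _) (Finset.mem_univ _)).trans (le_of_eq ?_)
      simp only [RCLike.re_to_complex, Pi.sub_apply, sq_re, ← Complex.re_sum,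
        ← Finset.sum_sub_distrib]
      congr 1
      exact Finset.sum_congr rfl fun l _ => by rw [map_sub]; ring
    · rw [integral_re I, integral_sub' ((G p1 p1).1.sub (G p1 p2).1) ((G p2 p1).1.sub (G p2 p2).1),
        integral_sub' (G p1 p1).1 (G p1 p2).1, integral_sub' (G p2 p1).1 (G p2 p2).1,
        (G p1 p1).2, (G p1 p2).2, (G p2 p1).2, (G p2 p2).2]
      refine (RCLike.re_le_norm _).trans ?_
      rw [show JJ 1 y y - JJ 1 y y' - (JJ 1 y' y - JJ 1 y' y') =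
        (JJ 1 y y - R) - (JJ 1 y y' - R) - ((JJ 1 y' y - R) - (JJ 1 y' y' - R)) by ring]
      have b1 := hY y a1 y a1
      have b2 := hY y a1 y' a2
      have b3 := hY y' a2 y a1
      have b4 := hY y' a2 y' a2
      refine (norm_sub_le _ _).trans ((add_le_add (norm_sub_le _ _) (norm_sub_le _ _)).trans ?_)
      linarith
    · congr 1
      field_simp

theorem pBox2 (hb : S_Bd) (ht : S_Tr) (hi : S_Inn) (hc : S_Cls) : S_Box2 := by
  intro p hp h1 v0 ε hv hε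
  have : Fact (Prime p) := ⟨hp⟩
  obtain ⟨R, C, -, h2, h3⟩ := hi.2
  have hK : 0 < 64 * (1 + v0⁻¹ ^ 2) := by positivity
  have hn : (1 : ℝ) ≤ N p + 1 := by simp
  have hη : 0 < ε / (64 * (1 + v0⁻¹ ^ 2)) / 2 := by positivity
  obtain ⟨Y, hY⟩ := h2 _ hη
  obtain ⟨Y', hY'⟩ := eventually_atTop.1 ((Metric.tendsto_nhds.1 (h3 p hp h1)) _ hη)
  refine ⟨max (max Y Y') 1, fun x y hy => ?_⟩
  have a1 : Y ≤ y := ((le_max_left _ _).trans (le_max_left _ _)).trans hy
  have a2 : Y' ≤ y := ((le_max_right _ _).trans (le_max_left _ _)).trans hy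
  have p1 : 0 < y := one_pos.trans_le ((le_max_right _ _).trans hy)
  have G1 := gen hb hi hc 1 lab1 lab1_iff p1 p1
  have G3 := gen hb hi hc p (lab3 p) (lab3_iff p) p1 p1
  have I := G3.1.sub (G1.1.div_const ((N p + 1 : ℝ) : ℂ))
  refine (trf (Φ := fun w => FT x p y w - FT x 1 y w / (N p + 1))
    (b := ε / (64 * (1 + v0⁻¹ ^ 2))) ((meas_FT hb x p p1).sub ((meas_FT hb x 1 p1).div_const _))
    (fun t w hw => by simp only [per_FT hb x 1 p1 t w hw, per_FT hb x p p1 t w hw]) I.re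
    (fun g hg w hw => ?_) hv ?_).trans (le_of_eq ?_)
  · rw [FT_ac ht hg x y hw, FT_ac3 ht p hg x y hw, mul_div_assoc, ← mul_sub, norm_mul,
      norm_ka g hg, one_mul]
    have e : ((N p : ℂ) + 1) = ((N p + 1 : ℝ) : ℂ) := by push_cast; rfl
    rw [e]
    refine (Finset.single_le_sum (f := fun l : Rq 3 × Option (Rq p) =>
      ‖Tl (lab3 p) l y w - Tl lab1 l.1 y w / ((N p + 1 : ℝ) : ℂ)‖ ^ 2)
      (fun _ _ => sq_nonneg _) (Finset.mem_univ (mk 3 (x + g 1 0), lab2 p (g 1 0, g 1 1)))).trans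
      (le_of_eq ?_)
    simp only [RCLike.re_to_complex, Pi.sub_apply, sq_re, ← Complex.re_sum]
    congr 1
    rw [Fintype.sum_prod_type, Fintype.sum_prod_type, Finset.sum_div, ← Finset.sum_sub_distrib]
    refine Finset.sum_congr rfl fun l _ => ?_
    simp only [← Tl_sum hb p l p1 hw]
    exact var_eq (fun o => Tl (lab3 p) (l, o) y w) (by simp [fcard_Rq]) (by positivity)
  · rw [integral_re I, integral_sub' G3.1 (G1.1.div_const _), integral_div, G1.2, G3.2]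
    refine (RCLike.re_le_norm _).trans ?_
    have h0 : ((N p + 1 : ℝ) : ℂ) ≠ 0 := Complex.ofReal_ne_zero.2 (by positivity)
    rw [show JJ p y y - JJ 1 y y / ((N p + 1 : ℝ) : ℂ) = (JJ p y y - ((R / (N p + 1) : ℝ) : ℂ)) -
      (JJ 1 y y - R) / ((N p + 1 : ℝ) : ℂ) by rw [Complex.ofReal_div]; ring]
    have b1 := hY y a1 y a1
    have b2 := (hY' y a2).le
    rw [dist_eq_norm] at b2
    have b3 : ‖(JJ 1 y y - R) / ((N p + 1 : ℝ) : ℂ)‖ ≤ ‖JJ 1 y y - R‖ := by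
      rw [norm_div, Complex.norm_real, Real.norm_of_nonneg (by positivity)]
      exact div_le_self (norm_nonneg _) hn
    refine (norm_sub_le _ _).trans ?_
    linarith
  · congr 1
    field_simp

end Pool.Agent.P.MP_26a8c3_nt.QT
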