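import Pool.Agent.P.MP_26a8c3_nt.QT.St

/-! The sum over classes of rows. -/

namespace Pool.Agent.P.MP_26a8c3_nt.QT

open MeasureTheory Set Filter Topology
open Pool.Agent.P.MP_26a8c3_nt.QO Pool.Agent.P.MP_26a8c3_nt.QH Pool.Agent.P.MP_26a8c3_nt.QK
open scoped Classical MatrixGroups ComplexConjugate ENNReal

namespace Cls

theorem primary_image {g : SL(2, O)} (hg : g ∈ G0) {q : O} {r : O × O}
    (h : r ∈ rm g '' rows 0 q) : Primary r.2 := by
  obtain ⟨s, hs, rfl⟩ := h
  exact (hs.2.2.mul hg.2).of_dvd_sub (by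
    simpa [rm] using (three_dvd_nine.trans hg.1).mul_left s.1)

theorem mem_image {g : SL(2, O)} (hg : g ∈ G0) {q : O} {r : O × O} (hr : Primary r.2) :
    r ∈ rm g '' rows 0 q ↔ (3 : O) ∣ r.1 - g 1 0 ∧ q ∣ r.1 * g 1 1 - g 1 0 * r.2 := by
  have hd := det2 g
  constructor
  · rintro ⟨s, ⟨h1, h2, h3⟩, rfl⟩
    rw [sub_zero] at h1
    constructor
    · have e : (rm g s).1 - g 1 0 = s.1 * g 0 0 + (s.2 - 1) * g 1 0 := by
        simp only [rm]
        ring
      rw [e]
      exact dvd_add (h1.mul_right _) (Dvd.dvd.mul_right h3 _)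
    · have e : (rm g s).1 * g 1 1 - g 1 0 * (rm g s).2 = s.1 := by
        simp only [rm]
        linear_combination s.1 * hd
      rwa [e]
  · rintro ⟨h1, h2⟩
    refine ⟨(r.1 * g 1 1 - g 1 0 * r.2, r.2 * g 0 0 - r.1 * g 0 1), ⟨?_, h2, ?_⟩, ?_⟩
    · have e : r.1 * g 1 1 - g 1 0 * r.2 - 0 =
          (r.1 - g 1 0) * g 1 1 + (g 1 1 - 1) * g 1 0 - (r.2 - 1) * g 1 0 := by ring
      simp only
      rw [e]
      exact dvd_sub (dvd_add (h1.mul_right _) (Dvd.dvd.mul_right hg.2 _)) (Dvd.dvd.mul_right hr _)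
    · exact (hr.mul (primary00 hg.1 hg.2)).of_dvd_sub (by
        simpa using (three_dvd_nine.trans hg.1).mul_left r.1)
    · refine Prod.ext ?_ ?_
      · simp only [rm]
        linear_combination r.1 * hd
      · simp only [rm]
        linear_combination r.2 * hd

theorem exp_eq (r : Row) (y : ℝ) {w : ℂ × ℝ} (hw : 0 < w.2) :
    Real.exp (-(1 / (y * (ac (sec0 r) w).2))) = wt y w r.1 := by
  rw [← hr_row _ hw, row_sec0, wt, if_pos hw, hr, ht, ← mul_div_assoc, one_div_div]

theorem TH_eq {L : Type} (lab : O × O → L) (l : L) (y : ℝ) (w : ℂ × ℝ) :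
    TH {r | Primary r.2 ∧ lab r = l} y w =
      ∑' r : Row, if lab r.1 = l then chi r.1.2 r.1.1 * (wt y w r.1 : ℝ) else 0 := by
  rw [TH, ← (Subtype.val_injective : Function.Injective (Subtype.val : Row → O × O)).tsum_eq]
  · exact tsum_congr fun r => by simp [r.2.2]
  · intro r hr
    rw [Function.mem_support] at hr
    split_ifs at hr with h
    · refine ⟨⟨r, ?_, h.1⟩, rfl⟩
      by_contra hc
      exact hr (by rw [(chi_eq_zero h.1.ne_zero).2 hc, zero_mul])
    · exact absurd rfl hr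

end Cls

open Cls in
theorem pCls (hb : S_Bd) (ht : S_Tr) : S_Cls := by
  intro q L _ lab hlab y y' w hy _ hw
  obtain ⟨⟨C, hC⟩, -⟩ := hb
  have hs : Summable fun r : Row => wt y w r.1 :=
    (hC y w hy hw).1.comp_injective Subtype.val_injective
  have h0 : ∀ r, 0 ≤ wt y w r := fun r => by
    rw [wt, if_pos hw]
    exact (Real.exp_pos _).le
  have h1 : ∀ r : Row, TH (rm (sec0 r) '' rows 0 q) y' w =
      TH {s | Primary s.2 ∧ lab s = lab r.1} y' w := fun r => by
    refine tsum_congr fun s => ?_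
    by_cases hp : Primary s.2
    · by_cases hc : IsCoprime s.1 s.2
      · have e := hlab ⟨s, hc, hp⟩ r
        have e1 : (sec0 r).1 1 0 = r.1.1 := congrArg (·.1.1) (row_sec0 r)
        have e2 : (sec0 r).1 1 1 = r.1.2 := congrArg (·.1.2) (row_sec0 r)
        have e3 : s ∈ rm (sec0 r) '' rows 0 q ↔ s ∈ {s | Primary s.2 ∧ lab s = lab r.1} := by
          rw [mem_image (sec0 r).2 hp, e1, e2, ← e]
          simp [hp]
        by_cases h : s ∈ rm (sec0 r) '' rows 0 q
        · rw [if_pos h, if_pos (e3.1 h)]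
        · rw [if_neg h, if_neg (mt e3.2 h)]
      · simp [(chi_eq_zero hp.ne_zero).2 hc]
    · rw [if_neg fun h => hp (primary_image (sec0 r).2 h), if_neg fun h => hp h.1]
  have h2 : ∀ r : Row, ((Real.exp (-(1 / (y * (ac (sec0 r) w).2))) : ℝ) : ℂ) *
      conj (TH (rows 0 q) y' (ac (sec0 r) w)) =
      ∑ l : L, (if lab r.1 = l then chi r.1.2 r.1.1 * (wt y w r.1 : ℝ) else 0) *
        conj (TH {s | Primary s.2 ∧ lab s = l} y' w) := fun r => by
    have e1 : (sec0 r).1 1 0 = r.1.1 := congrArg (·.1.1) (row_sec0 r)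
    have e2 : (sec0 r).1 1 1 = r.1.2 := congrArg (·.1.2) (row_sec0 r)
    rw [exp_eq r y hw, ht _ _ y' w (sec0 r).2 (fun s hs => hs.2.2) hw, h1, e1, e2, map_mul,
      Complex.conj_conj]
    simp only [ite_mul, zero_mul, Finset.sum_ite_eq, Finset.mem_univ, if_true]
    ring
  simp only [h2]
  rw [Summable.tsum_finsetSum]
  · refine Finset.sum_congr rfl fun l _ => ?_
    rw [tsum_mul_right, TH_eq lab l y w]
  · refine fun l _ => Summable.mul_right _ (Summable.of_norm_bounded hs fun r => ?_)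
    split_ifs
    · rw [norm_mul, Complex.norm_real, Real.norm_of_nonneg (h0 _)]
      exact mul_le_of_le_one_left (h0 _) (norm_chi_le _ _)
    · simpa using h0 _

end Pool.Agent.P.MP_26a8c3_nt.QT
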