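import Pool.Agent.P.MP_26a8c3_nt.QT.St

/-! From mean square bounds on boxes to bounds for the Fourier coefficients. -/

namespace Pool.Agent.P.MP_26a8c3_nt.QT

open MeasureTheory Set Filter Topology
open Pool.Agent.P.MP_26a8c3_nt.QO Pool.Agent.P.MP_26a8c3_nt.QH Pool.Agent.P.MP_26a8c3_nt.QK
open scoped Classical MatrixGroups ComplexConjugate ENNReal

namespace Coef

variable {v0 v1 : ℝ} {f h : ℝ → ℂ}

lemma norm_ch (m : O) (z : ℂ) : ‖ch m z‖ = 1 := norm_ex _

lemma ch_zero (z : ℂ) : ch 0 z = 1 := by simp [ch]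

lemma cont_ch (m : O) : Continuous (ch m) := by
  unfold ch ex
  fun_prop

lemma sm_ch {b : O → ℂ} (hb : Summable fun m => ‖b m‖) (z : ℂ) :
    Summable fun m => b m * ch m z :=
  hb.of_norm_bounded fun m => by rw [norm_mul, norm_ch, mul_one]

lemma int_nq (hv : 0 < v0) (hf : ContinuousOn f (Ioi 0)) :
    IntegrableOn (fun v => ‖f v‖ ^ 2 / v ^ 3) (Icc v0 v1) :=
  (((hf.mono fun _ hw => hv.trans_le hw.1).norm.pow 2).div (by fun_prop)
    fun _ hw => pow_ne_zero _ (hv.trans_le hw.1).ne').integrableOn_Icc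

lemma nq_nonneg (hv : 0 < v0) : 0 ≤ nq v0 v1 f :=
  setIntegral_nonneg measurableSet_Icc fun _ hw =>
    div_nonneg (sq_nonneg _) (pow_pos (hv.trans_le hw.1) 3).le

lemma nq_sub_le (hv : 0 < v0) (hf : ContinuousOn f (Ioi 0)) (hh : ContinuousOn h (Ioi 0)) :
    nq v0 v1 (fun v => f v - h v) ≤ 2 * nq v0 v1 f + 2 * nq v0 v1 h := by
  rw [nq, nq, nq, ← integral_const_mul, ← integral_const_mul,
    ← integral_add ((int_nq hv hf).const_mul _) ((int_nq hv hh).const_mul _)]
  refine setIntegral_mono_on (int_nq hv (hf.sub hh))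
    (((int_nq hv hf).const_mul _).add ((int_nq hv hh).const_mul _)) measurableSet_Icc
    fun v hw => ?_
  have h1 := norm_add_sq_le (f v) (-h v)
  rw [norm_neg, ← sub_eq_add_neg] at h1
  have h2 := pow_pos (hv.trans_le hw.1) 3
  rw [← mul_div_assoc, ← mul_div_assoc, ← add_div]
  exact div_le_div_of_nonneg_right h1 h2.le

lemma nq_le {δ : ℝ} (hv : 0 < v0) (h01 : v0 < v1) (hf : ContinuousOn f (Ioi 0))
    (hδ : ∀ v, 0 < v → ‖f v‖ ≤ δ) : 2 * nq v0 v1 f ≤ δ ^ 2 * v0⁻¹ ^ 2 := by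
  have h1 : nq v0 v1 f ≤ nq v0 v1 fun _ => (δ : ℂ) :=
    setIntegral_mono_on (int_nq hv hf) (int_nq hv continuousOn_const) measurableSet_Icc
      fun v hw => by
        have h2 := hv.trans_le hw.1
        rw [Complex.norm_real, Real.norm_eq_abs, sq_abs]
        exact div_le_div_of_nonneg_right (pow_le_pow_left₀ (norm_nonneg _) (hδ v h2) 2)
          (pow_pos h2 3).le
  have h2 : (nq v0 v1 fun _ => (δ : ℂ)) = δ ^ 2 * ∫ v in v0..v1, v ^ (-3 : ℤ) := by
    rw [intervalIntegral.integral_of_le h01.le, ← integral_Icc_eq_integral_Ioc,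
      ← integral_const_mul, nq]
    simp only [Complex.norm_real, Real.norm_eq_abs, sq_abs, div_eq_mul_inv, zpow_neg,
      zpow_ofNat]
  rw [h2, integral_zpow (Or.inr ⟨by norm_num, by
    rw [uIcc_of_le h01.le]
    exact fun hw => absurd hw.1 (not_le.2 hv)⟩)] at h1
  have h3 : 0 ≤ δ ^ 2 * v1⁻¹ ^ 2 := by positivity
  norm_num at h1
  simp only [← inv_pow] at h1
  linarith

lemma core (ho : S_Orth) (hv : 0 < v0) {F : ℂ × ℝ → ℂ} {b : O → ℝ → ℂ}
    (hb : ∀ m, ContinuousOn (b m) (Ioi 0)) (hs : ∀ v, 0 < v → Summable fun m => ‖b m v‖)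
    (hF : ∀ z v, 0 < v → F (z, v) = ∑' m, b m v * ch m z) (A : Finset O) :
    volume FF * ENNReal.ofReal (∑ m ∈ A, nq v0 v1 (b m)) ≤
      ∫⁻ w in FF ×ˢ Ici v0, ‖F w‖ₑ ^ 2 ∂dm := by
  have hS : MeasurableSet (FF ×ˢ Icc v0 v1) := measurableSet_FF.prod measurableSet_Icc
  have hm : AEMeasurable (fun w : ℂ × ℝ => ‖∑' m, b m w.2 * ch m w.1‖ₑ ^ 2)
      ((volume.prod nu).restrict (FF ×ˢ Icc v0 v1)) := by
    refine (AEMeasurable.tsum fun m => ?_).enorm.pow_const 2
    refine ContinuousOn.aemeasurable ?_ hS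
    exact ((hb m).comp continuousOn_snd fun w hw => hv.trans_le hw.2.1).mul
      ((cont_ch m).comp continuous_fst).continuousOn
  have e1 : ∫⁻ w in FF ×ˢ Icc v0 v1, ‖F w‖ₑ ^ 2 ∂dm =
      ∫⁻ v in Icc v0 v1, volume FF * ∑' m, ‖b m v‖ₑ ^ 2 ∂nu := by
    rw [setLIntegral_congr_fun hS (g := fun w => ‖∑' m, b m w.2 * ch m w.1‖ₑ ^ 2)
      fun w hw => by simp only [← hF w.1 w.2 (hv.trans_le hw.2.1)], dm, setLIntegral_prod_symm _ hm]
    refine setLIntegral_congr_fun measurableSet_Icc fun v hw => ?_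
    simpa using (ho _ (hs v (hv.trans_le hw.1))).2.2 0
  refine le_trans ?_ (e1.symm.le.trans (lintegral_mono_set (prod_mono_right Icc_subset_Ici_self)))
  rw [lintegral_const_mul' _ _ volume_FF_lt_top.ne]
  refine mul_le_mul_right ?_ _
  simp only [nq]
  rw [← integral_finsetSum _ fun m _ => int_nq hv (hb m), ofReal_integral_eq_lintegral_ofReal
    (integrable_finsetSum _ fun m _ => int_nq hv (hb m))
    ((ae_restrict_mem measurableSet_Icc).mono fun v hw => Finset.sum_nonneg fun m _ =>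
      div_nonneg (sq_nonneg _) (pow_pos (hv.trans_le hw.1) 3).le), nu,
    setLIntegral_withDensity_eq_setLIntegral_mul_non_measurable _ measurable_rho _
      measurableSet_Icc (Eventually.of_forall fun _ => ENNReal.ofReal_lt_top),
    Measure.restrict_restrict measurableSet_Icc,
    inter_eq_left.2 (show Icc v0 v1 ⊆ Ioi 0 from fun _ hw => hv.trans_le hw.1)]
  refine setLIntegral_mono' measurableSet_Icc fun v hw => ?_
  have h3 := pow_pos (hv.trans_le hw.1) 3
  rw [← Finset.sum_div, div_eq_inv_mul, ENNReal.ofReal_mul (inv_nonneg.2 h3.le), Pi.mul_apply,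
    ENNReal.ofReal_sum_of_nonneg fun _ _ => sq_nonneg _]
  refine mul_le_mul_right (le_trans (le_of_eq ?_) (ENNReal.sum_le_tsum A)) _
  exact Finset.sum_congr rfl fun m _ => by
    rw [ENNReal.ofReal_pow (norm_nonneg _), ofReal_norm]

/-- a Fourier expansion with a small extra constant term -/
structure Ex (F : ℂ × ℝ → ℂ) (b : O → ℝ → ℂ) (c : ℝ → ℂ) (δ : ℝ) : Prop where
  cb : ∀ m, ContinuousOn (b m) (Ioi 0)
  cc : ContinuousOn c (Ioi 0)
  sm : ∀ v, 0 < v → Summable fun m => ‖b m v‖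
  eq : ∀ z v, 0 < v → F (z, v) = c v + ∑' m, b m v * ch m z
  le : ∀ v, 0 < v → ‖c v‖ ≤ δ

variable {F F' : ℂ × ℝ → ℂ} {b b' : O → ℝ → ℂ} {c c' : ℝ → ℂ} {δ δ' : ℝ}

lemma Ex.sub (e : Ex F b c δ) (e' : Ex F' b' c' δ') :
    Ex (fun w => F w - F' w) (fun m v => b m v - b' m v) (fun v => c v - c' v) (δ + δ') where
  cb m := (e.cb m).sub (e'.cb m)
  cc := e.cc.sub e'.cc
  sm v hv := ((e.sm v hv).add (e'.sm v hv)).of_nonneg_of_le (fun _ => norm_nonneg _)
    fun _ => norm_sub_le _ _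
  eq z v hv := by
    simp only [sub_mul]
    rw [e.eq z v hv, e'.eq z v hv, (sm_ch (e.sm v hv) z).tsum_sub (sm_ch (e'.sm v hv) z)]
    ring
  le v hv := (norm_sub_le _ _).trans (add_le_add (e.le v hv) (e'.le v hv))

lemma Ex.div (e : Ex F b c δ) {k : ℂ} (hk : 1 ≤ ‖k‖) :
    Ex (fun w => F w / k) (fun m v => b m v / k) (fun v => c v / k) δ where
  cb m := (e.cb m).div_const k
  cc := e.cc.div_const k
  sm v hv := by simpa only [norm_div] using (e.sm v hv).div_const ‖k‖
  eq z v hv := by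
    simp only [div_mul_eq_mul_div, tsum_div_const]
    rw [e.eq z v hv, add_div]
  le v hv := by
    rw [norm_div]
    exact (div_le_self (norm_nonneg _) hk).trans (e.le v hv)

lemma ex_FT (hf : S_Four) (x q : O) {y : ℝ} (hy : 0 < y) :
    Ex (FT x q y) (fun m => cn x q m y) (fun v => nf y *
      if (3 : O) ∣ x then ((Real.exp (-(1 / (y * v))) : ℝ) : ℂ) else 0) (y ^ (-(4 / 3) : ℝ)) where
  cb m := (hf.2.1 x q m).cont_ff (by unfold B0; positivity) hy
  cc := by
    refine continuousOn_const.mul ?_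
    split_ifs
    · refine Complex.continuous_ofReal.comp_continuousOn
        (Real.continuous_exp.comp_continuousOn (ContinuousOn.neg ?_))
      exact continuousOn_const.div (by fun_prop) fun v hv => (mul_pos hy hv).ne'
    · exact continuousOn_const
  sm v hv := by
    have := ((hf.2.2 x q y (0, v) hy hv).1).mul_left ‖nf y‖
    simp only [← norm_mul] at this
    exact this
  eq z v hv := by
    rw [FT, (hf.2.2 x q y (z, v) hy hv).2, mul_add, ← tsum_mul_left]
    simp only [← mul_assoc]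
    rfl
  le v hv := by
    have h0 := Real.rpow_pos_of_pos hy (-(4 / 3))
    rw [norm_mul, nf, Complex.norm_real, Real.norm_of_nonneg h0.le]
    refine mul_le_of_le_one_right h0.le ?_
    split_ifs
    · rw [Complex.norm_real, Real.norm_of_nonneg (Real.exp_pos _).le, Real.exp_le_one_iff]
      exact neg_nonpos.2 (by positivity)
    · simp

lemma V_pos : 0 < (volume FF).toReal := ENNReal.toReal_pos volume_FF_pos.ne' volume_FF_lt_top.ne

lemma key (ho : S_Orth) (hv : 0 < v0) (h01 : v0 < v1) (e : Ex F b c δ) {E : ℝ} (hE0 : 0 ≤ E)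
    (hE : ∫⁻ w in FF ×ˢ Ici v0, ‖F w‖ₑ ^ 2 ∂dm ≤ ENNReal.ofReal E) (A : Finset O) :
    ∑ m ∈ A, nq v0 v1 (b m) ≤ 2 * E / (volume FF).toReal + δ ^ 2 * v0⁻¹ ^ 2 := by
  let d : O → ℝ → ℂ := fun m v => if m = 0 then c v else 0
  have hd : ∀ m, ContinuousOn (d m) (Ioi 0) := fun m => by
    by_cases hm : m = 0
    · simpa only [d, hm, if_true] using e.cc
    · simpa only [d, hm, if_false] using continuousOn_const
  have sd : ∀ v, Summable fun m => ‖d m v‖ := fun v =>
    summable_of_ne_finset_zero (s := {0}) fun m hm => by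
      simp [d, Finset.notMem_singleton.1 hm]
  have h1 := (core ho hv (v1 := v1) (F := F) (b := fun m v => b m v + d m v)
    (fun m => (e.cb m).add (hd m))
    (fun v hw => ((e.sm v hw).add (sd v)).of_nonneg_of_le (fun _ => norm_nonneg _)
      fun _ => norm_add_le _ _)
    (fun z v hw => by
      simp only [add_mul]
      rw [e.eq z v hw, (sm_ch (e.sm v hw) z).tsum_add (sm_ch (sd v) z), add_comm,
        tsum_eq_single (f := fun m => d m v * ch m z) 0 fun m hm => by simp [d, hm]]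
      simp [d, ch_zero]) A).trans hE
  rw [← ENNReal.ofReal_toReal volume_FF_lt_top.ne, ← ENNReal.ofReal_mul V_pos.le,
    ENNReal.ofReal_le_ofReal_iff hE0, ← le_div_iff₀' V_pos] at h1
  have h2 : ∑ m ∈ A, nq v0 v1 (d m) ≤ nq v0 v1 c := by
    have : ∀ m, nq v0 v1 (d m) = if m = 0 then nq v0 v1 c else 0 := fun m => by
      by_cases hm : m = 0 <;> simp [d, hm, nq]
    simp only [this, Finset.sum_ite_eq']
    split_ifs
    · exact le_rfl
    · exact nq_nonneg hv
  have h3 : ∑ m ∈ A, nq v0 v1 (b m) ≤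
      ∑ m ∈ A, (2 * nq v0 v1 (fun v => b m v + d m v) + 2 * nq v0 v1 (d m)) :=
    Finset.sum_le_sum fun m _ => by
      simpa only [add_sub_cancel_right] using nq_sub_le (v1 := v1)
        (f := fun v => b m v + d m v) hv ((e.cb m).add (hd m)) (hd m)
  rw [Finset.sum_add_distrib, ← Finset.mul_sum, ← Finset.mul_sum] at h3
  have h4 := nq_le hv h01 e.cc e.le
  rw [mul_div_assoc]
  linarith

lemma small (hv : 0 < v0) {ε : ℝ} (hε : 0 < ε) : ∃ Y : ℝ, 0 < Y ∧ ∀ y ≥ Y, ∀ y' ≥ Y,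
    (y ^ (-(4 / 3) : ℝ) + y' ^ (-(4 / 3) : ℝ)) ^ 2 * v0⁻¹ ^ 2 ≤ ε := by
  have h0 : 0 < v0 * √ε / 2 := by positivity
  obtain ⟨Y, hY⟩ := eventually_atTop.1
    ((tendsto_rpow_neg_atTop (y := 4 / 3) (by norm_num)).eventually (ge_mem_nhds h0))
  refine ⟨max Y 1, by positivity, fun y hy y' hy' => ?_⟩
  have a := hY y (le_of_max_le_left hy)
  have a' := hY y' (le_of_max_le_left hy')
  have p := Real.rpow_pos_of_pos (one_pos.trans_le (le_of_max_le_right hy)) (-(4 / 3))
  have p' := Real.rpow_pos_of_pos (one_pos.trans_le (le_of_max_le_right hy')) (-(4 / 3))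
  calc _ ≤ (v0 * √ε) ^ 2 * v0⁻¹ ^ 2 := by
        gcongr
        linarith
    _ = ε := by
        rw [mul_pow, Real.sq_sqrt hε.le]
        field_simp

end Coef

open Coef in
theorem pCoef (hf : S_Four) (ho : S_Orth) (h1 : S_Box1) (h2 : S_Box2) : S_Coef := by
  have hV := V_pos
  refine ⟨?_, fun x v0 v1 ε hv h01 hε => ?_, fun p x m v0 v1 hp hp' hv h01 => ?_⟩
  · obtain ⟨C, hC⟩ := h1.1
    refine ⟨2 * |C| / (volume FF).toReal + 1, fun x v0 v1 y A hv h01 hy => ?_⟩
    have hy0 : 0 < y := by linarith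
    have k := key ho hv h01 (ex_FT hf x 1 hy0) (E := |C| * (1 + v0⁻¹ ^ 2)) (by positivity)
      ((hC x v0 y hv hy).trans (ENNReal.ofReal_le_ofReal
        (mul_le_mul_of_nonneg_right (le_abs_self C) (by positivity)))) A
    have k1 : (y ^ (-(4 / 3) : ℝ)) ^ 2 ≤ 1 :=
      pow_le_one₀ (by positivity) (Real.rpow_le_one_of_one_le_of_nonpos hy (by norm_num))
    have k2 := mul_le_mul_of_nonneg_right k1 (sq_nonneg v0⁻¹)
    refine k.trans ?_
    rw [add_mul, div_mul_eq_mul_div, mul_assoc]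
    linarith
  · obtain ⟨Y, hY⟩ := h1.2 v0 (ε / 4 * (volume FF).toReal) hv (by positivity)
    obtain ⟨Z, hZ0, hZ⟩ := small hv (half_pos hε)
    refine ⟨max Y Z, fun y hy y' hy' A => ?_⟩
    have k := key ho hv h01 ((ex_FT hf x 1 (hZ0.trans_le (le_of_max_le_right hy))).sub
      (ex_FT hf x 1 (hZ0.trans_le (le_of_max_le_right hy')))) (by positivity)
      (hY x y (le_of_max_le_left hy) y' (le_of_max_le_left hy')) A
    have k1 := hZ y (le_of_max_le_right hy) y' (le_of_max_le_right hy')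
    rw [← mul_assoc, mul_div_cancel_right₀ _ hV.ne'] at k
    linarith
  · refine Metric.tendsto_atTop.2 fun ε hε => ?_
    obtain ⟨Y, hY⟩ := h2 p hp hp' v0 (ε / 8 * (volume FF).toReal) hv (by positivity)
    obtain ⟨Z, hZ0, hZ⟩ := small hv (half_pos hε)
    refine ⟨max Y Z, fun y hy => ?_⟩
    have hy0 := hZ0.trans_le (le_of_max_le_right hy)
    have hk : 1 ≤ ‖(N p : ℂ) + 1‖ := by
      rw [← Nat.cast_succ, Complex.norm_natCast]
      exact_mod_cast Nat.succ_pos _
    have k := key ho hv h01 ((ex_FT hf x p hy0).sub ((ex_FT hf x 1 hy0).div hk)) (by positivity)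
      (hY x y (le_of_max_le_left hy)) {m}
    have k1 := hZ y (le_of_max_le_right hy) y (le_of_max_le_right hy)
    rw [← mul_assoc, mul_div_cancel_right₀ _ hV.ne', Finset.sum_singleton] at k
    rw [Real.dist_eq, sub_zero, abs_of_nonneg (nq_nonneg hv)]
    linarith

end Pool.Agent.P.MP_26a8c3_nt.QT
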