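import Pool.Agent.P.MP_26a8c3_nt.QG.Hec
import Pool.Agent.P.MP_26a8c3_nt.QO.Cnt

/-! The constant term. -/

namespace Pool.Agent.P.MP_26a8c3_nt.QT

open MeasureTheory Set Filter Topology
open Pool.Agent.P.MP_26a8c3_nt.QO Pool.Agent.P.MP_26a8c3_nt.QH Pool.Agent.P.MP_26a8c3_nt.QK
open scoped Classical MatrixGroups ComplexConjugate ENNReal

theorem cP_eq (y : ℝ) : QG.cP y = (((QO.ball y).filter Primary).card : ℝ) := by
  rw [QG.cP, ← Set.ncard_coe_finset]
  congr 2
  ext n
  simp [QO.mem_ball, and_comm]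

theorem cntH : QG.CntH where
  sum2 := summable_N_inv_pow le_rfl
  bd := ⟨16, fun y hy => by
    rw [cP_eq]
    exact card_le_of_N_le hy.le fun n hn =>
      ⟨(Finset.mem_filter.1 hn).2.ne_zero, QO.mem_ball.1 (Finset.mem_filter.1 hn).1⟩⟩
  lim := by
    have ha := a0_pos
    refine ⟨a0 / 9, by positivity, tendsto_iff_norm_sub_tendsto_zero.2 ?_⟩
    have h1 : Tendsto (fun y : ℝ => a0 * ((√y)⁻¹ + y⁻¹)) atTop (𝓝 (a0 * (0 + 0))) :=
      ((tendsto_inv_atTop_zero.comp Real.tendsto_sqrt_atTop).add tendsto_inv_atTop_zero).const_mul _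
    rw [add_zero, mul_zero] at h1
    refine squeeze_zero' (Eventually.of_forall fun _ => norm_nonneg _) ?_ h1
    filter_upwards [eventually_gt_atTop 0] with y hy
    have h := card_primary hy.le
    have hs := Real.sqrt_pos.2 hy
    have e : QG.cP y / y - a0 / 9 = (QG.cP y - a0 / 9 * y) / y := by field_simp
    rw [e, Real.norm_eq_abs, abs_div, abs_of_pos hy, div_le_iff₀ hy, cP_eq]
    refine h.trans (le_of_eq ?_)
    have := Real.mul_self_sqrt hy.le
    field_simp
    linear_combination this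

theorem pCst (A : Alg) : S_Cst := QG.pCst A cntH

end Pool.Agent.P.MP_26a8c3_nt.QT
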