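import Pool.Agent.P.MP_26a8c3_nt.QT.St
import Pool.Agent.P.MP_26a8c3_nt.QK.Lim

/-! The Fourier expansion of the approximate theta function. -/

namespace Pool.Agent.P.MP_26a8c3_nt.QT

open MeasureTheory Set Filter Topology
open Pool.Agent.P.MP_26a8c3_nt.QO Pool.Agent.P.MP_26a8c3_nt.QH Pool.Agent.P.MP_26a8c3_nt.QK
open scoped Classical MatrixGroups ComplexConjugate ENNReal

namespace Four

lemma N9 (c : O) : (N (9 * c) : ℝ) = 81 * N c := by
  rw [map_mul, N_ofNat]; push_cast; norm_num

lemma norm_Gs (m : O) {c : O} (hc : c ≠ 0) : ‖Gs m c‖ ≤ 81 * N c := by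
  have h9 : (9 : O) * c ≠ 0 := mul_ne_zero (by norm_num) hc
  have := norm_sm_le h9 (B := 1)
    (F := fun d => if Primary d then chi d c * el (m * d) (9 * c) else 0) fun d => by
      split_ifs
      · simpa using norm_chi_le d c
      · simp
  rwa [N9, mul_one] at this

lemma norm_gs (x q m c : O) : ‖gs x q m c‖ ≤ a0 * N c := by
  have := a0_pos
  unfold gs
  split_ifs with h
  · rw [norm_mul, Complex.norm_real, Real.norm_of_nonneg (by positivity)]
    have := norm_Gs m h.1
    nlinarith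
  · rw [norm_zero]; positivity

lemma summable_exp {R : ℝ} (hR : 0 < R) : Summable fun m : O => Real.exp (-(N m / R)) := by
  simpa [norm_toC_sq] using summable_exp_shift hR 0

lemma tsum_exp_le {R : ℝ} (hR : 0 < R) :
    ∑' m : O, Real.exp (-(N m / R)) ≤ th * a0 * (1 + R) := by
  simpa [norm_toC_sq] using tsum_exp_shift_le hR 0

lemma summable_inv3 : Summable fun c : O => ((N c : ℝ) ^ 3)⁻¹ := by
  have h := (EisensteinSeries.summable_one_div_norm_rpow (k := 6) (by norm_num)).comp_injective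
    (i := fun z : O => ![z.re, z.im]) fun a b e =>
      QuadraticAlgebra.ext (congrFun e 0) (congrFun e 1)
  refine Summable.of_nonneg_of_le (fun _ => by positivity) (fun z => ?_) (h.mul_left 8)
  rcases eq_or_ne z 0 with rfl | hz
  · simp
  have hN := N_pos_real hz
  have h1 : ‖(![z.re, z.im] : Fin 2 → ℤ)‖ ^ 2 ≤ 2 * (N z : ℝ) := by
    obtain ⟨k1, k2⟩ := abs_le_of_N z
    have k3 : 3 * (z.re : ℝ) ^ 2 ≤ 4 * (N z : ℝ) := by exact_mod_cast k1
    have k4 : 3 * (z.im : ℝ) ^ 2 ≤ 4 * (N z : ℝ) := by exact_mod_cast k2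
    rw [EisensteinSeries.norm_eq_max_natAbs]
    simp only [Matrix.cons_val_zero, Matrix.cons_val_one, Nat.cast_max, Nat.cast_natAbs,
      Int.cast_abs]
    rcases le_total |(z.re : ℝ)| |(z.im : ℝ)| with e | e
    · rw [max_eq_right e, sq_abs]; linarith
    · rw [max_eq_left e, sq_abs]; linarith
  have h2 : 0 < ‖(![z.re, z.im] : Fin 2 → ℤ)‖ := by
    refine norm_pos_iff.2 fun e => hz (QuadraticAlgebra.ext ?_ ?_)
    · simpa using congrFun e 0
    · simpa using congrFun e 1
  simp only [Function.comp]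
  rw [Real.rpow_neg h2.le, show (6 : ℝ) = (6 : ℕ) by norm_num, Real.rpow_natCast,
    ← div_eq_mul_inv, le_div_iff₀ (by positivity), inv_mul_le_iff₀ (by positivity)]
  calc ‖(![z.re, z.im] : Fin 2 → ℤ)‖ ^ 6 = (‖(![z.re, z.im] : Fin 2 → ℤ)‖ ^ 2) ^ 3 := by ring
    _ ≤ (2 * (N z : ℝ)) ^ 3 := by gcongr
    _ = _ := by ring

lemma adm (x q m : O) : Adm (fun c : O => (N c : ℝ)) (gs x q m) :=
  adm_of_le (K := a0) (fun c h => N_pos_real fun e => h (by simp [gs, e])) (norm_gs x q m)
    summable_inv3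

lemma B0_pos : 0 < B0 := by unfold B0; positivity

lemma a0_sq : a0 * a0 = 81 * B0 := by
  have h := sqrt3_sq
  have h' := sqrt3_pos.ne'
  rw [a0, B0, div_mul_div_comm, h]; ring

/-- one term of the double series -/
noncomputable def tm (x q : O) (y v : ℝ) (p : O × O) : ℂ :=
  gs x q p.2 p.1 * ((y / N p.1 * Kv (B0 * N p.2) v (N p.1 / y) : ℝ) : ℂ)

/-- its majorant -/
noncomputable def mj (y v : ℝ) (p : O × O) : ℝ :=
  if p.1 = 0 then 0 else
    a0 * y * v * Real.exp (-(N p.1 / (y / v))) * Real.exp (-(N p.2 / (N p.1 / (B0 * y * v))))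

lemma Kv_eq {y v n : ℝ} (hy : 0 < y) (hv : 0 < v) (hn : 0 < n) (k : ℝ) :
    Kv (B0 * k) v (n / y) =
      v * (Real.exp (-(n / (y / v))) * Real.exp (-(k / (n / (B0 * y * v))))) := by
  have := B0_pos
  rw [Kv, ← Real.exp_add]
  congr 2
  field_simp
  ring

lemma norm_tm (x q : O) {y v : ℝ} (hy : 0 < y) (hv : 0 < v) (p : O × O) :
    ‖tm x q y v p‖ ≤ mj y v p := by
  unfold tm mj
  split_ifs with h
  · simp [gs, h]
  have hN := N_pos_real h
  rw [norm_mul, Complex.norm_real, Real.norm_of_nonneg (mul_pos (by positivity) (Kv_pos hv)).le]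
  refine (mul_le_mul_of_nonneg_right (norm_gs _ _ _ _)
    (mul_pos (by positivity) (Kv_pos hv)).le).trans (le_of_eq ?_)
  rw [Kv_eq hy hv hN]
  field_simp

lemma exp_lin {R K t : ℝ} (hR : 0 < R) (hK : 0 ≤ K) (ht : 0 ≤ t) :
    Real.exp (-(t / R)) * (1 + t * K) ≤ (1 + 2 * R * K) * Real.exp (-(t / (2 * R))) := by
  have h1 : t / (2 * R) + 1 ≤ Real.exp (t / (2 * R)) := Real.add_one_le_exp _
  have h0 : 0 ≤ t / (2 * R) := by positivity
  have h2 : 1 + t * K ≤ (1 + 2 * R * K) * Real.exp (t / (2 * R)) := by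
    have h3 : t * K = 2 * R * K * (t / (2 * R)) := by field_simp
    have h4 : 0 ≤ 2 * R * K := by positivity
    rw [h3]
    nlinarith
  refine (mul_le_mul_of_nonneg_left h2 (Real.exp_pos _).le).trans (le_of_eq ?_)
  rw [mul_left_comm, ← Real.exp_add]
  congr 2
  field_simp
  ring

lemma summable_mj {y v : ℝ} (hy : 0 < y) (hv : 0 < v) : Summable (mj y v) := by
  have hB := B0_pos
  have ha := a0_pos
  have hth : 0 < th := lt_of_lt_of_le one_pos one_le_th
  rw [summable_prod_of_nonneg fun p => by unfold mj; split_ifs <;> positivity]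
  refine ⟨fun c => ?_, ?_⟩
  · rcases eq_or_ne c 0 with rfl | hc
    · simp [mj, summable_zero]
    have hN := N_pos_real hc
    simp only [mj, if_neg hc]
    exact (summable_exp (by positivity)).mul_left _
  · refine Summable.of_nonneg_of_le
      (fun c => tsum_nonneg fun m => by unfold mj; split_ifs <;> positivity) (fun c => ?_)
      ((summable_exp (R := 2 * (y / v)) (by positivity)).mul_left
        (a0 * y * v * (th * a0) * (1 + 2 * (y / v) * (B0 * y * v)⁻¹)))
    rcases eq_or_ne c 0 with rfl | hc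
    · simp only [mj, if_true, tsum_zero]; positivity
    have hN := N_pos_real hc
    simp only [mj, if_neg hc]
    rw [tsum_mul_left]
    refine (mul_le_mul_of_nonneg_left (tsum_exp_le (by positivity)) (by positivity)).trans ?_
    have := exp_lin (R := y / v) (K := (B0 * y * v)⁻¹) (t := N c) (by positivity) (by positivity)
      hN.le
    calc _ = a0 * y * v * (th * a0) *
          (Real.exp (-(N c / (y / v))) * (1 + N c * (B0 * y * v)⁻¹)) := by
          rw [div_eq_mul_inv (N c : ℝ) (B0 * y * v)]; ring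
      _ ≤ a0 * y * v * (th * a0) * ((1 + 2 * (y / v) * (B0 * y * v)⁻¹) *
          Real.exp (-(N c / (2 * (y / v))))) := by gcongr
      _ = _ := by ring

lemma per (A : Alg) (c : O) : Per (9 * c) fun d => if Primary d then chi d c else 0 := by
  intro d d' e
  have e9 : (9 : O) ∣ d - d' := (dvd_mul_right _ _).trans e
  have e3 : (3 : O) ∣ d - d' := Dvd.dvd.trans ⟨3, by norm_num⟩ e9
  by_cases h : Primary d'
  · have h' : Primary d := h.of_dvd_sub e3
    simp only [if_pos h, if_pos h']
    exact A.r2 c d d' h' h e9 ((dvd_mul_left _ _).trans e)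
  · have h' : ¬Primary d := fun k => h (k.of_dvd_sub (dvd_sub_comm.1 e3))
    simp only [if_neg h, if_neg h']

lemma ft_eq (c m : O) :
    ft (fun d => if Primary d then chi d c else 0) (9 * c) m = Gs m c := by
  unfold ft Gs
  refine sm_congr fun d => ?_
  beta_reduce
  split_ifs
  · rw [mul_comm d m]
  · rw [zero_mul]

/-- the sum over the rows with first entry zero -/
lemma inner_zero (x q : O) (y : ℝ) (w : ℂ × ℝ) (hw : 0 < w.2) :
    (∑' d : O, if ((0 : O), d) ∈ rows x q then chi d 0 * (wt y w (0, d) : ℝ) else 0) =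
      if (3 : O) ∣ x then ((Real.exp (-(1 / (y * w.2))) : ℝ) : ℂ) else 0 := by
  rw [tsum_eq_single 1]
  · have : ((0 : O), (1 : O)) ∈ rows x q ↔ (3 : O) ∣ x := by simp [rows, primary_one]
    simp only [this]
    split_ifs
    · simp [wt, hw, Dl]
    · rfl
  · intro d hd
    split_ifs with h
    · have hp : Primary d := h.2.2
      rw [(chi_eq_zero hp.ne_zero).2 fun k => hd (hp.eq_one_of_isUnit (isCoprime_zero_left.1 k)),
        zero_mul]
    · rfl

/-- the sum over the rows with a given first entry -/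
lemma inner_ne (A : Alg) (x q : O) {c : O} (hc : c ≠ 0) {y : ℝ} (hy : 0 < y) (w : ℂ × ℝ)
    (hw : 0 < w.2) :
    (∑' d : O, if (c, d) ∈ rows x q then chi d c * (wt y w (c, d) : ℝ) else 0) =
      ∑' m : O, tm x q y w.2 (c, m) * ch m w.1 := by
  by_cases h : (3 : O) ∣ c - x ∧ q ∣ c
  swap
  · have h1 : ∀ d, (c, d) ∉ rows x q := fun d k => h ⟨k.1, k.2.1⟩
    have h2 : ∀ m, gs x q m c = 0 := fun m => if_neg fun k => h k.2
    simp [h1, tm, h2]
  have hN := N_pos_real hc
  have ha := a0_pos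
  have hB := B0_pos
  have hyv : 0 < y * w.2 := mul_pos hy hw
  have h9 : (9 : O) * c ≠ 0 := mul_ne_zero (by norm_num) hc
  have key := poi_shift h9 (per A c) (mul_pos ha hyv) (toC c * w.1)
  have e1 : ∀ d : O, (if (c, d) ∈ rows x q then chi d c * (wt y w (c, d) : ℝ) else 0) =
      ((Real.exp (-(N c / (y / w.2))) : ℝ) : ℂ) * ((if Primary d then chi d c else 0) *
        (G (‖toC d + toC c * w.1‖ ^ 2 / (a0 * (y * w.2))) : ℝ)) := fun d => by
    have : (c, d) ∈ rows x q ↔ Primary d := by simp [rows, h.1, h.2]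
    simp only [this]
    split_ifs
    · rw [mul_left_comm, ← Complex.ofReal_mul, ← exp_eq_G _ hyv, ← Real.exp_add, wt, if_pos hw, Dl,
        ← N_real, ← Complex.sq_norm, add_comm (toC d)]
      congr 3
      field_simp
      ring
    · simp
  rw [tsum_congr e1, tsum_mul_left, key, ← tsum_mul_left, ← tsum_mul_left]
  refine tsum_congr fun m => ?_
  have e2 : toC m * (toC c * w.1) / (toC lam * toC (9 * c)) = toC m * w.1 / (toC lam * 9) := by
    have := toC_ne_zero hc
    have := toC_ne_zero lam_ne_zero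
    rw [map_mul, map_ofNat]
    field_simp
  have e3 : G (a0 * (y * w.2) * N m / N (9 * c)) =
      Real.exp (-(N m / (N c / (B0 * y * w.2)))) := by
    rw [G, N9]
    congr 2
    field_simp
    linear_combination (N m : ℝ) * a0_sq
  have e4 : (N c : ℂ) ≠ 0 := by exact_mod_cast hN.ne'
  rw [ft_eq, e2, e3, tm, gs, if_pos ⟨hc, h⟩, Kv_eq hy hw hN, N9, ch]
  push_cast
  field_simp

end Four

open Four

theorem pFour (A : Alg) (hb : S_Bd) : S_Four := by
  refine ⟨fun m c hc => norm_Gs m hc, adm, fun x q y w hy hw => ?_⟩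
  have h1 : Summable fun p => ‖tm x q y w.2 p‖ :=
    Summable.of_nonneg_of_le (fun _ => norm_nonneg _) (norm_tm x q hy hw) (summable_mj hy hw)
  have h2 : Summable fun p : O × O => tm x q y w.2 p * ch p.2 w.1 :=
    Summable.of_norm (h1.congr fun p => by rw [norm_mul, ch, norm_ex, mul_one])
  have h3 : Summable fun p : O × O => ‖tm x q y w.2 p.swap‖ := h1.prod_symm
  refine ⟨Summable.of_nonneg_of_le (fun _ => norm_nonneg _) (fun m => ?_) h3.prod, ?_⟩
  · exact norm_tsum_le_tsum_norm (h3.prod_factor m)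
  obtain ⟨C, hC⟩ := hb.1
  have h4 : Summable fun r : O × O =>
      if r ∈ rows x q then chi r.2 r.1 * (wt y w r : ℝ) else 0 := by
    refine Summable.of_norm_bounded (hC y w hy hw).1 fun r => ?_
    have h0 : 0 ≤ wt y w r := by rw [wt, if_pos hw]; positivity
    split_ifs
    · rw [norm_mul, Complex.norm_real, Real.norm_of_nonneg h0]
      exact mul_le_of_le_one_left h0 (norm_chi_le _ _)
    · simpa using h0
  have h5 : ∀ c : O, (∑' d : O, if (c, d) ∈ rows x q then chi d c * (wt y w (c, d) : ℝ) else 0) =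
      (if c = 0 then (if (3 : O) ∣ x then ((Real.exp (-(1 / (y * w.2))) : ℝ) : ℂ) else 0) else 0) +
        ∑' m : O, tm x q y w.2 (c, m) * ch m w.1 := fun c => by
    rcases eq_or_ne c 0 with rfl | hc
    · rw [inner_zero x q y w hw]; simp [tm, gs]
    · rw [inner_ne A x q hc hy w hw, if_neg hc, zero_add]
  rw [TH, h4.tsum_prod, tsum_congr h5, Summable.tsum_add (hasSum_ite_eq _ _).summable h2.prod,
    tsum_ite_eq, ← Summable.tsum_comm (f := fun c m => tm x q y w.2 (c, m) * ch m w.1) h2]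
  congr 1
  exact tsum_congr fun m => tsum_mul_right

end Pool.Agent.P.MP_26a8c3_nt.QT
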