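import Pool.Agent.P.MP_26a8c3_nt.QT.St
import Pool.Agent.P.MP_26a8c3_nt.QO.Top

/-! From the packages of the theta layer to the interface `S_Theta`. -/

namespace Pool.Agent.P.MP_26a8c3_nt.QT

open Pool.Agent.P.MP_26a8c3_nt.QO Pool.Agent.P.MP_26a8c3_nt.QH Pool.Agent.P.MP_26a8c3_nt.QK
open scoped Classical ComplexConjugate

namespace GlueP

lemma lp_iff {n : O} : Lp n ↔ ∃ (u : O) (k : ℕ), IsUnit u ∧ n = u * lam ^ k := by
  constructor
  · rintro ⟨k, hk⟩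
    obtain ⟨i, -, u, hu⟩ := (dvd_prime_pow prime_lam k).1 hk
    refine ⟨(u⁻¹ : Oˣ), i, Units.isUnit _, ?_⟩
    rw [← hu, mul_comm n, ← mul_assoc, Units.inv_mul, one_mul]
  · rintro ⟨u, k, hu, rfl⟩
    exact ⟨k, hu.mul_left_dvd.2 dvd_rfl⟩

lemma conj_nine (c : O) : conj (chi c 9) = chi c 3 := by
  rw [show (9 : O) = 3 ^ 2 by norm_num, chi_pow, ← conj_chi, Complex.conj_conj]

lemma B0_pos : 0 < B0 := by unfold B0; positivity

lemma ta_le {As : O → O → ℂ} (h : IsAs As) :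
    ∃ C : ℝ, ∀ x n, n ≠ 0 → ‖ta As x n‖ ≤ C * ab n := by
  obtain ⟨C, hC⟩ := h.rs
  refine ⟨√C, fun x n hn => ?_⟩
  have h1 := hC x (N n) {n} (one_le_N hn) (by simp)
  rw [Finset.sum_singleton] at h1
  have h2 := Real.le_sqrt_of_sq_le h1
  rwa [Real.sqrt_mul' _ (le_trans zero_le_one (one_le_N hn)), ← ab_eq] at h2

end GlueP

open GlueP in
theorem pTheta (ha : S_As) (hh : S_Hec) (hk : S_Hk) (hv : S_Vor) (hn : S_Nz) : S_Theta := by
  obtain ⟨As, h⟩ := ha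
  obtain ⟨u, k, hu, h0⟩ := hn As h
  obtain ⟨C, hC⟩ := ta_le h
  refine ⟨ta As, u * lam ^ k, B0, C, 1, B0_pos, norm_one, lp_iff.2 ⟨u, k, hu, rfl⟩, h0,
    fun x y hxy => ?_, fun x n c d hn hc hd => ?_, fun x n m hn hm h' => ?_, hC,
    (hh As h).2.2.2, fun α β γ δ h1 h2 h3 h4 v hv0 => ?_⟩
  · funext m
    simp only [ta, h.cusp x y hxy]
  · obtain ⟨u, k, hu, rfl⟩ := lp_iff.1 hn
    rw [(hk As h x u k hu).1 c d hc hd, conj_nine, chi_mul c 3]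
    ring
  · obtain ⟨u, k, hu, rfl⟩ := lp_iff.1 hn
    exact (hk As h x u k hu).2 m hm h'
  · rw [hv As h α β γ δ v h1 h2 h3 h4 hv0]
    ring

end Pool.Agent.P.MP_26a8c3_nt.QT
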