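import Pool.Agent.P.MP_26a8c3_nt.QG.Hec

/-! The Gauss sum identities. -/

namespace Pool.Agent.P.MP_26a8c3_nt.QT

open Pool.Agent.P.MP_26a8c3_nt.QO

theorem pGs (A : Alg) : S_Gs := QG.pGs A

end Pool.Agent.P.MP_26a8c3_nt.QT
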