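import Pool.Agent.P.MP_26a8c3_nt.QG.Hec
import Pool.Agent.P.MP_26a8c3_nt.QO.Cnt

/-! The Hecke relations. -/

namespace Pool.Agent.P.MP_26a8c3_nt.QT

open Pool.Agent.P.MP_26a8c3_nt.QO

theorem pHec (A : Alg) (_hg : S_Gs) (_hf : S_Four) : S_Hec :=
  QG.pHec A (summable_N_inv_pow le_rfl)

end Pool.Agent.P.MP_26a8c3_nt.QT
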