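import Pool.Agent.P.MP_26a8c3_nt.QT.St

/-! The theta coefficients in closed form, from the Hecke relations. -/

namespace Pool.Agent.P.MP_26a8c3_nt.QT

open MeasureTheory Set Filter Topology
open Pool.Agent.P.MP_26a8c3_nt.QO Pool.Agent.P.MP_26a8c3_nt.QH Pool.Agent.P.MP_26a8c3_nt.QK
open scoped Classical MatrixGroups ComplexConjugate ENNReal

namespace HkP

lemma cop_ul {u p : O} (hu : IsUnit u) (k : ℕ) (hp : Primary p) : IsCoprime p (u * lam ^ k) :=
  ((isCoprime_mul_unit_left_right hu p 1).2 isCoprime_one_right |>.of_mul_right_left).mul_right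
    hp.isCoprime_lam.pow_right

lemma cube {T : O → ℂ}
    (h : ∀ m p, Prime p → Primary p → m ≠ 0 → T (m * p ^ 3) = (ab p : ℝ) * T m) {d : O}
    (hd : Primary d) : ∀ m, m ≠ 0 → T (m * d ^ 3) = (ab d : ℝ) * T m := by
  refine primary_ind (P := fun d => ∀ m, m ≠ 0 → T (m * d ^ 3) = (ab d : ℝ) * T m)
    (fun m _ => by simp) (fun p a e1 e2 e3 ih m hm => ?_) hd
  rw [show m * (p * a) ^ 3 = m * a ^ 3 * p ^ 3 by ring,
    h _ p e1 e2 (mul_ne_zero hm (pow_ne_zero 3 e3.ne_zero)), ih m hm, ab_mul]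
  push_cast
  ring

lemma sqf (A : Alg) {T : O → ℂ}
    (h : ∀ m p, Prime p → Primary p → ¬ p ∣ m →
      T (m * p) = chi p m * conj (chi p 9) * tau p * T m) {μ : O}
    (hμ : ∀ p, Primary p → IsCoprime p μ) {c : O} (hc : SQ c) :
    T (μ * c) = chi c μ * conj (chi c 9) * tau c * T μ := by
  refine primary_ind (P := fun c => SQ c → T (μ * c) = chi c μ * conj (chi c 9) * tau c * T μ)
    (fun _ => by simp [A.r4.1]) (fun p a e1 e2 e3 ih hs => ?_) hc.1 hc
  rw [show μ * (p * a) = μ * a * p by ring,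
    h _ p e1 e2 (e1.coprime_iff_not_dvd.1 ((hμ p e2).mul_right hs.coprime)), ih (hs.right e2),
    A.r4.2.2.1 p a e2 e3 hs.coprime, chi_mul, chi_mul_left e1.ne_zero e3.ne_zero,
    chi_mul_left e1.ne_zero e3.ne_zero, map_mul]
  ring

lemma exists_sq {n : O} (hn : Primary n) (h : ¬ Squarefree n) :
    ∃ p, Prime p ∧ Primary p ∧ p ^ 2 ∣ n := by
  rw [squarefree_iff_irreducible_sq_not_dvd_of_ne_zero hn.ne_zero] at h
  push Not at h
  obtain ⟨q, h1, h2⟩ := h
  have e := normalize_associated q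
  refine ⟨normalize q, e.symm.prime h1.prime, primary_normalize fun h3 =>
    hn.not_lam_dvd (h3.trans ((dvd_mul_right q q).trans h2)), ?_⟩
  rw [pow_two]
  exact (e.mul_mul e).dvd.trans h2

lemma zero {T : O → ℂ}
    (h : ∀ m p, Prime p → Primary p → m ≠ 0 → T (m * p ^ 3) = (ab p : ℝ) * T m)
    (h' : ∀ m p, Prime p → Primary p → ¬ p ∣ m → T (m * p ^ 2) = 0) {μ : O} (h0 : μ ≠ 0)
    (hμ : ∀ p, Primary p → IsCoprime p μ) (j : ℕ) :
    ∀ n, N n = j → Primary n → (¬ ∃ c d, SQ c ∧ Primary d ∧ n = c * d ^ 3) → T (μ * n) = 0 := by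
  induction j using Nat.strong_induction_on with
  | _ j ih =>
    intro n hj hn hx
    obtain ⟨p, e1, e2, n', rfl⟩ := exists_sq hn fun hs =>
      hx ⟨n, 1, ⟨hn, hs⟩, primary_one, by simp⟩
    by_cases hp : p ∣ n'
    · obtain ⟨a, rfl⟩ := hp
      have ha : Primary a := (hn.of_mul (e2.pow 2)).of_mul e2
      have h1 := two_le_N e1
      have h2 := N_pos ha.ne_zero
      rw [show μ * (p ^ 2 * (p * a)) = μ * a * p ^ 3 by ring,
        h _ p e1 e2 (mul_ne_zero h0 ha.ne_zero), ih (N a) ?_ a rfl ha ?_, mul_zero]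
      · rw [← hj, map_mul, map_mul, map_pow]
        calc N a < N p * N a := by nlinarith
          _ ≤ N p ^ 2 * (N p * N a) := Nat.le_mul_of_pos_left _ (by positivity)
      · rintro ⟨c, d, hc, hd, rfl⟩
        exact hx ⟨c, d * p, hc, hd.mul e2, by ring⟩
    · rw [show μ * (p ^ 2 * n') = μ * n' * p ^ 2 by ring]
      exact h' _ p e1 e2 fun e => (e1.dvd_or_dvd e).elim
        (e1.coprime_iff_not_dvd.1 (hμ p e2)) hp

end HkP

open Pool.Agent.P.MP_26a8c3_nt.QT.HkP in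
theorem pHk (A : Alg) (h : S_Hec) : S_Hk := by
  intro As hA x u k hu
  obtain ⟨h1, h2, h3, -⟩ := h As hA
  have h0 : u * lam ^ k ≠ 0 := mul_ne_zero hu.ne_zero (pow_ne_zero k lam_ne_zero)
  refine ⟨fun c d hc hd => ?_, fun n hn hx =>
    zero (h1 x) (h2 x) h0 (fun p hp => cop_ul hu k hp) _ n rfl hn hx⟩
  rw [← mul_assoc, cube (h1 x) hd _ (mul_ne_zero h0 hc.ne_zero),
    sqf A (h3 x) (fun p hp => cop_ul hu k hp) hc]
  ring

end Pool.Agent.P.MP_26a8c3_nt.QT
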