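import Pool.Agent.P.MP_26a8c3_nt.QT.St
import Pool.Agent.P.MP_26a8c3_nt.QK.Lim

/-! The unfolded inner products. -/

namespace Pool.Agent.P.MP_26a8c3_nt.QT

open MeasureTheory Set Filter Topology
open Pool.Agent.P.MP_26a8c3_nt.QO Pool.Agent.P.MP_26a8c3_nt.QH Pool.Agent.P.MP_26a8c3_nt.QK
open scoped Classical MatrixGroups ComplexConjugate ENNReal

namespace Inn

lemma nu_res : nu.restrict (Ioi 0) = nu := by
  unfold nu
  rw [restrict_withDensity measurableSet_Ioi, Measure.restrict_restrict measurableSet_Ioi,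
    inter_self]

lemma dm_res : dm.restrict (FF ×ˢ Ioi (0 : ℝ)) = (volume.restrict FF).prod nu := by
  rw [dm, ← Measure.prod_restrict, nu_res]

instance : IsFiniteMeasure (volume.restrict FF) := isFiniteMeasure_restrict.2 volume_FF_lt_top.ne

lemma ae_nu : ∀ᵐ v ∂nu, 0 < v :=
  (withDensity_absolutelyContinuous _ _).ae_le (ae_restrict_mem measurableSet_Ioi)

variable {E : Type} [NormedAddCommGroup E] [NormedSpace ℝ E]

lemma key (f : ℝ → E) : EqOn (fun v : ℝ => (ENNReal.ofReal (v ^ 3)⁻¹).toReal • f v)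
    (fun v : ℝ => v ^ ((-1 : ℝ) - 1) • (fun s : ℝ => s • f s⁻¹) (v ^ (-1 : ℝ))) (Ioi 0) := by
  intro v hv
  have hv' : 0 < v := hv
  simp only
  rw [ENNReal.toReal_ofReal (by positivity), Real.rpow_sub hv', Real.rpow_neg_one, inv_inv,
    smul_smul, Real.rpow_one]
  congr 1
  field_simp

lemma md : Measurable fun v : ℝ => ENNReal.ofReal (v ^ 3)⁻¹ := by fun_prop

lemma int_nu (f : ℝ → E) {y : ℝ} (hy : 0 < y) :
    ∫ v, f v ∂nu = ∫ u in Ioi (0 : ℝ), (y ^ 2 * u) • f (y * u)⁻¹ := by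
  have h1 := integral_comp_rpow_Ioi (fun s : ℝ => s • f s⁻¹) (p := -1) (by norm_num)
  have h2 := integral_comp_mul_left_Ioi' (fun s : ℝ => s • f s⁻¹) 0 hy
  simp only [abs_neg, abs_one, one_mul] at h1
  rw [nu, integral_withDensity_eq_integral_toReal_smul md (.of_forall fun _ => ENNReal.ofReal_lt_top),
    setIntegral_congr_fun measurableSet_Ioi (key f), h1, mul_zero] at *
  rw [← h2, ← integral_smul]
  refine setIntegral_congr_fun measurableSet_Ioi fun u _ => ?_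
  simp only [smul_smul]
  congr 1
  ring

lemma integrable_nu (f : ℝ → E) (h : IntegrableOn (fun s : ℝ => s • f s⁻¹) (Ioi 0)) :
    Integrable f nu := by
  rw [nu, integrable_withDensity_iff_integrable_smul' md (.of_forall fun _ => ENNReal.ofReal_lt_top)]
  exact ((integrableOn_Ioi_comp_rpow_iff' (fun s : ℝ => s • f s⁻¹) (p := -1) (by norm_num)).2
    h).congr_fun (key f).symm measurableSet_Ioi

lemma maj {y y' : ℝ} (hy : 0 < y) :
    Integrable (fun v : ℝ => Real.exp (-(1 / (y * v))) * ((1 + y' / v) * (1 + y' * v))) nu := by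
  refine integrable_nu _ ?_
  have h0 := int_gam (s := 0) (r := y⁻¹) (by norm_num) (inv_pos.2 hy)
  have h1 := int_gam (s := 1) (r := y⁻¹) (by norm_num) (inv_pos.2 hy)
  have h2 := int_gam (s := 2) (r := y⁻¹) (by norm_num) (inv_pos.2 hy)
  refine IntegrableOn.congr_fun (((h0.const_mul y').add (h1.const_mul (1 + y' ^ 2))).add
    (h2.const_mul y')) (fun s hs => ?_) measurableSet_Ioi
  have hs' : 0 < s := hs
  have e : 1 / (y * s⁻¹) = y⁻¹ * s := by field_simp
  simp only [Pi.add_apply, Real.rpow_zero, Real.rpow_one, Real.rpow_two, smul_eq_mul, e]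
  field_simp
  ring

lemma norm_nf {y : ℝ} (hy : 0 < y) : ‖nf y‖ = y ^ (-(4 / 3) : ℝ) := by
  rw [nf, Complex.norm_real, Real.norm_of_nonneg (by positivity)]

lemma integ (hb : S_Bd) (q : O) {y y' : ℝ} (hy : 0 < y) (hy' : 0 < y') : Integrable
    (fun w : ℂ × ℝ => nf y * ((Real.exp (-(1 / (y * w.2))) : ℝ) : ℂ) * conj (FT 0 q y' w))
    ((volume.restrict FF).prod nu) := by
  obtain ⟨⟨C, hC⟩, hm, -⟩ := hb
  have h1 := (((maj (y' := y') hy).const_mul (‖nf y‖ * ‖nf y'‖ * C))).comp_snd (volume.restrict FF)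
  refine h1.mono' (Measurable.aestronglyMeasurable ?_) ?_
  · refine Measurable.mul (by fun_prop) (Complex.continuous_conj.measurable.comp ?_)
    exact (hm _ _ hy').const_mul _
  · have : ∀ᵐ w ∂(volume.restrict FF).prod nu, 0 < w.2 :=
      Measure.quasiMeasurePreserving_snd.ae ae_nu
    refine this.mono fun w hw => ?_
    rw [norm_mul, norm_mul, Complex.norm_conj, FT, norm_mul, Complex.norm_real,
      Real.norm_of_nonneg (Real.exp_pos _).le]
    calc _ ≤ ‖nf y‖ * Real.exp (-(1 / (y * w.2))) *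
          (‖nf y'‖ * (C * ((1 + y' / w.2) * (1 + y' * w.2)))) := by
          gcongr
          exact (hC y' w hy' hw).2.2 _
      _ = _ := by ring

lemma cn_zero (q : O) {y v : ℝ} (hy : 0 < y) (hv : 0 < v) :
    cn 0 q 0 y v = ((v ^ (2 / 3 : ℝ) : ℝ) : ℂ) * sc q (y / v) := by
  have : B0 * (N (0 : O) : ℝ) = 0 := by simp
  rw [cn, this, ff_zero hy hv, sc]
  simp

lemma cont_sc (hf : S_Four) (q : O) : ContinuousOn (sc q) (Ioi 0) := by
  have h := ((hf.2.1 0 q 0).continuousOn_ff (B := B0 * (N (0 : O) : ℝ)) (by simp)).comp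
    (f := fun s : ℝ => (s, (1 : ℝ))) (s := Ioi 0) (by fun_prop) fun s hs => ⟨hs, mem_Ioi.2 one_pos⟩
  refine h.congr fun s hs => ?_
  have := cn_zero q hs one_pos
  rw [Real.one_rpow, div_one, Complex.ofReal_one, one_mul] at this
  exact this.symm

lemma inner (hf : S_Four) (ho : S_Orth) (q : O) {y v : ℝ} (hy : 0 < y) (hv : 0 < v) :
    ∫ z in FF, conj (FT 0 q y (z, v)) = ((volume FF).toReal : ℝ) *
      (nf y * ((Real.exp (-(1 / (y * v))) : ℝ) : ℂ) +
        ((v ^ (2 / 3 : ℝ) : ℝ) : ℂ) * conj (sc q (y / v))) := by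
  obtain ⟨h1, h2, -⟩ := ho _ (hf.2.2 0 q y (0, v) hy hv).1
  have h3 : IntegrableOn (fun z => ∑' m, co 0 q m y v * ch m z) FF :=
    (h1.continuousOn.integrableOn_compact (isCompact_closedBall 0 18)).mono_set
      fun _ hz => mem_closedBall_zero_iff.2 (norm_le_of_FF hz)
  have h4 : ∀ z, FT 0 q y (z, v) = nf y * (((Real.exp (-(1 / (y * v))) : ℝ) : ℂ) +
      ∑' m, co 0 q m y v * ch m z) := fun z => by
    rw [FT, (hf.2.2 0 q y (z, v) hy hv).2, if_pos (dvd_zero _)]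
  have h5 : nf y * co 0 q 0 y v = cn 0 q 0 y v := rfl
  simp only [h4]
  rw [integral_conj, integral_const_mul, integral_add (integrable_const _) h3, h2, integral_const,
    measureReal_restrict_apply_univ, Complex.real_smul, Measure.real, ← mul_add, mul_left_comm,
    mul_add, h5, cn_zero q hy hv]
  simp only [map_mul, map_add, nf, Complex.conj_ofReal]

/-- the weight -/
noncomputable def wg (u : ℝ) : ℝ := u ^ (1 / 3 : ℝ) * Real.exp (-(1 * u))

lemma int_wg : IntegrableOn wg (Ioi 0) := int_gam (by norm_num) one_pos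

lemma wg_nonneg {u : ℝ} (hu : 0 < u) : 0 ≤ wg u := by
  unfold wg
  positivity

/-- the main term -/
noncomputable def HH (q : O) (Y : ℝ) : ℂ := ∫ u in Ioi (0 : ℝ), (wg u : ℂ) * conj (sc q (Y * u))

lemma meas_H (hf : S_Four) (q : O) {Y : ℝ} (hY : 0 < Y) : AEStronglyMeasurable
    (fun u : ℝ => (wg u : ℂ) * conj (sc q (Y * u))) (volume.restrict (Ioi 0)) := by
  refine int_wg.ofReal.aestronglyMeasurable.mul (ContinuousOn.aestronglyMeasurable ?_
    measurableSet_Ioi)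
  exact Complex.continuous_conj.comp_continuousOn
    ((cont_sc hf q).comp (by fun_prop) fun u hu => mul_pos hY hu)

lemma bd_H {C : ℝ} {q : O} (hC : ∀ y, 0 < y → ‖sc q y‖ ≤ C) {Y : ℝ} (hY : 0 < Y) :
    ∀ᵐ u ∂volume.restrict (Ioi (0 : ℝ)), ‖(wg u : ℂ) * conj (sc q (Y * u))‖ ≤ wg u * C := by
  refine (ae_restrict_mem measurableSet_Ioi).mono fun u hu => ?_
  rw [norm_mul, Complex.norm_conj, Complex.norm_real, Real.norm_of_nonneg (wg_nonneg hu)]
  exact mul_le_mul_of_nonneg_left (hC _ (mul_pos hY hu)) (wg_nonneg hu)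

lemma lim_H (hf : S_Four) {C a : ℝ} {q : O} (hC : ∀ y, 0 < y → ‖sc q y‖ ≤ C)
    (ha : Tendsto (sc q) atTop (𝓝 (a : ℂ))) :
    Tendsto (HH q) atTop (𝓝 ((a * ∫ u in Ioi (0 : ℝ), wg u : ℝ) : ℂ)) := by
  have e : ((a * ∫ u in Ioi (0 : ℝ), wg u : ℝ) : ℂ) = ∫ u in Ioi (0 : ℝ), (wg u : ℂ) * conj (a : ℂ) := by
    rw [integral_mul_const, integral_complex_ofReal, Complex.conj_ofReal, Complex.ofReal_mul,
      mul_comm]
  rw [e]
  refine tendsto_integral_filter_of_dominated_convergence (fun u => wg u * C)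
    ((eventually_gt_atTop 0).mono fun Y hY => meas_H hf q hY)
    ((eventually_gt_atTop 0).mono fun Y hY => bd_H hC hY) (int_wg.mul_const C) ?_
  refine (ae_restrict_mem measurableSet_Ioi).mono fun u hu => Tendsto.const_mul _ ?_
  exact (Complex.continuous_conj.tendsto _).comp (ha.comp (tendsto_id.atTop_mul_const hu))

/-- the secondary term -/
noncomputable def sec (y y' u : ℝ) : ℝ :=
  (y * y') ^ (-(1 / 3) : ℝ) * (y / y' * u * Real.exp (-(y / y' * u))) * Real.exp (-u)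

lemma sec_le {y y' u : ℝ} (hy : 0 < y) (hy' : 0 < y') (hu : 0 < u) :
    ‖(sec y y' u : ℂ)‖ ≤ (y * y') ^ (-(1 / 3) : ℝ) * Real.exp (-u) := by
  have h : y / y' * u * Real.exp (-(y / y' * u)) ≤ 1 := by
    rw [Real.exp_neg, ← div_eq_mul_inv, div_le_one (Real.exp_pos _)]
    linarith [Real.add_one_le_exp (y / y' * u)]
  rw [Complex.norm_real, sec, Real.norm_of_nonneg (by positivity)]
  exact mul_le_mul_of_nonneg_right (mul_le_of_le_one_right (by positivity) h) (Real.exp_pos _).le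

lemma pointwise (q : O) (V : ℂ) {y y' u : ℝ} (hy : 0 < y) (hy' : 0 < y') (hu : 0 < u) :
    (y ^ 2 * u) • (nf y * ((Real.exp (-(1 / (y * (y * u)⁻¹))) : ℝ) : ℂ) *
      (V * (nf y' * ((Real.exp (-(1 / (y' * (y * u)⁻¹))) : ℝ) : ℂ) +
        ((((y * u)⁻¹) ^ (2 / 3 : ℝ) : ℝ) : ℂ) * conj (sc q (y' / (y * u)⁻¹))))) =
    V * ((sec y y' u : ℂ) + (wg u : ℂ) * conj (sc q (y * y' * u))) := by
  have e1 : 1 / (y * (y * u)⁻¹) = u := by field_simp
  have e2 : 1 / (y' * (y * u)⁻¹) = y / y' * u := by field_simp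
  have e3 : y' / (y * u)⁻¹ = y * y' * u := by field_simp
  have p1 : ∀ {x : ℝ}, 0 < x → x ^ (-(4 / 3) : ℝ) = x ^ (-(1 / 3) : ℝ) * x⁻¹ := fun hx => by
    rw [← Real.rpow_neg_one, ← Real.rpow_add hx]
    norm_num
  have e4 : y ^ 2 * u * y ^ (-(4 / 3) : ℝ) * y' ^ (-(4 / 3) : ℝ) =
      (y * y') ^ (-(1 / 3) : ℝ) * (y / y' * u) := by
    rw [p1 hy, p1 hy', Real.mul_rpow hy.le hy'.le]
    field_simp
  have e5 : y ^ 2 * u * y ^ (-(4 / 3) : ℝ) * ((y * u)⁻¹) ^ (2 / 3 : ℝ) = u ^ (1 / 3 : ℝ) := by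
    have a1 : y ^ 2 * y ^ (-(4 / 3) : ℝ) = y ^ (2 / 3 : ℝ) := by
      rw [← Real.rpow_two, ← Real.rpow_add hy]
      norm_num
    have a2 : u = u ^ (1 / 3 : ℝ) * u ^ (2 / 3 : ℝ) := by
      rw [← Real.rpow_add hu]
      norm_num
    have a3 := Real.rpow_pos_of_pos hy (2 / 3)
    have a4 := Real.rpow_pos_of_pos hu (2 / 3)
    rw [Real.inv_rpow (by positivity), Real.mul_rpow hy.le hu.le, mul_right_comm (y ^ 2), a1]
    field_simp
    exact a2.trans (mul_comm _ _)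
  have c4 := congrArg (fun x : ℝ => (x : ℂ)) e4
  have c5 := congrArg (fun x : ℝ => (x : ℂ)) e5
  rw [e1, e2, e3, Complex.real_smul, sec, wg, nf, nf, one_mul]
  simp only [Complex.ofReal_mul] at c4 c5 ⊢
  linear_combination V * (Real.exp (-u) : ℝ) * (Real.exp (-(y / y' * u)) : ℝ) * c4 +
    V * (Real.exp (-u) : ℝ) * conj (sc q (y * y' * u)) * c5

lemma main (hb : S_Bd) (hf : S_Four) (ho : S_Orth) {C : ℝ} {q : O}
    (hC : ∀ y, 0 < y → ‖sc q y‖ ≤ C) {y y' : ℝ} (hy : 0 < y) (hy' : 0 < y') :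
    ‖JJ q y y' - ((volume FF).toReal : ℝ) * HH q (y * y')‖ ≤
      (volume FF).toReal * (y * y') ^ (-(1 / 3) : ℝ) := by
  have hY := mul_pos hy hy'
  have hE : IntegrableOn (fun u : ℝ => (y * y') ^ (-(1 / 3) : ℝ) * Real.exp (-u)) (Ioi 0) :=
    (integrableOn_exp_neg_Ioi 0).const_mul _
  have hb' : ∀ᵐ u ∂volume.restrict (Ioi (0 : ℝ)),
      ‖(sec y y' u : ℂ)‖ ≤ (y * y') ^ (-(1 / 3) : ℝ) * Real.exp (-u) :=
    (ae_restrict_mem measurableSet_Ioi).mono fun u hu => sec_le hy hy' hu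
  have h1 : IntegrableOn (fun u => (sec y y' u : ℂ)) (Ioi 0) :=
    hE.mono' (Measurable.aestronglyMeasurable (by unfold sec; fun_prop)) hb'
  have h2 : IntegrableOn (fun u : ℝ => (wg u : ℂ) * conj (sc q (y * y' * u))) (Ioi 0) :=
    (int_wg.mul_const C).mono' (meas_H hf q hY) (bd_H hC hY)
  have h3 : JJ q y y' = ((volume FF).toReal : ℝ) *
      ((∫ u in Ioi (0 : ℝ), (sec y y' u : ℂ)) + HH q (y * y')) := by
    rw [JJ, dm_res, integral_prod_symm _ (integ hb q hy hy'), int_nu _ hy, HH,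
      ← integral_add h1 h2, ← integral_const_mul]
    refine setIntegral_congr_fun measurableSet_Ioi fun u hu => ?_
    have hu' : 0 < u := hu
    simp only
    rw [integral_const_mul, inner hf ho q hy' (by positivity), pointwise q _ hy hy' hu']
  rw [h3, mul_add, add_sub_cancel_right, norm_mul, Complex.norm_real,
    Real.norm_of_nonneg ENNReal.toReal_nonneg]
  refine mul_le_mul_of_nonneg_left ((norm_integral_le_of_norm_le hE hb').trans_eq ?_)
    ENNReal.toReal_nonneg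
  rw [integral_const_mul, integral_exp_neg_Ioi_zero, mul_one]

lemma lim (hb : S_Bd) (hf : S_Four) (ho : S_Orth) {C a : ℝ} {q : O}
    (hC : ∀ y, 0 < y → ‖sc q y‖ ≤ C) (ha : Tendsto (sc q) atTop (𝓝 (a : ℂ))) (ε : ℝ) (hε : 0 < ε) :
    ∃ Y, ∀ y ≥ Y, ∀ y' ≥ Y,
      ‖JJ q y y' - (((volume FF).toReal * (a * ∫ u in Ioi (0 : ℝ), wg u) : ℝ) : ℂ)‖ ≤ ε := by
  set V := (volume FF).toReal
  have h1 := ((tendsto_rpow_neg_atTop (y := 1 / 3) (by norm_num)).const_mul V).add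
    (tendsto_iff_norm_sub_tendsto_zero.1 ((lim_H hf hC ha).const_mul (V : ℂ)))
  rw [mul_zero, add_zero] at h1
  obtain ⟨Y, hY⟩ := eventually_atTop.1 (h1.eventually (ge_mem_nhds hε))
  refine ⟨max Y 1, fun y hy y' hy' => ?_⟩
  have a1 : 1 ≤ y := (le_max_right _ _).trans hy
  have a2 : 1 ≤ y' := (le_max_right _ _).trans hy'
  have a3 : Y ≤ y * y' := ((le_max_left _ _).trans hy).trans (le_mul_of_one_le_right (by linarith) a2)
  refine (norm_sub_le_norm_sub_add_norm_sub _ (V * HH q (y * y')) _).trans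
    (le_trans ?_ (hY _ a3))
  rw [Complex.ofReal_mul]
  exact add_le_add (main hb hf ho hC (by linarith) (by linarith)) le_rfl

end Inn

open Inn in
theorem pInn (hb : S_Bd) (hf : S_Four) (ho : S_Orth) (hc : S_Cst) : S_Inn := by
  obtain ⟨s, C, -, hC, h1, hp⟩ := hc
  refine ⟨fun q y y' hy hy' => ?_, (volume FF).toReal * (s * ∫ u in Ioi (0 : ℝ), wg u),
    (volume FF).toReal * (1 + ∫ u in Ioi (0 : ℝ), wg u * C), fun y hy => ?_,
    lim hb hf ho (hC 1) h1, fun p p1 p2 => ?_⟩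
  · rw [IntegrableOn, dm_res]
    exact integ hb q hy hy'
  · have h0 : 0 < y := by linarith
    have a1 := main hb hf ho (hC 1) h0 h0
    have a2 : ‖HH 1 (y * y)‖ ≤ ∫ u in Ioi (0 : ℝ), wg u * C :=
      norm_integral_le_of_norm_le (int_wg.mul_const C) (bd_H (hC 1) (mul_pos h0 h0))
    have a3 : (y * y) ^ (-(1 / 3) : ℝ) ≤ 1 :=
      Real.rpow_le_one_of_one_le_of_nonpos (by nlinarith) (by norm_num)
    refine (norm_le_norm_sub_add _ _).trans ((add_le_add a1 le_rfl).trans ?_)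
    rw [norm_mul, Complex.norm_real, Real.norm_of_nonneg ENNReal.toReal_nonneg, mul_add]
    gcongr
  · refine Metric.tendsto_atTop.2 fun ε hε => ?_
    obtain ⟨Y, hY⟩ := lim hb hf ho (hC p) (hp p p1 p2) (ε / 2) (half_pos hε)
    refine ⟨Y, fun y hy => ?_⟩
    rw [dist_eq_norm]
    refine lt_of_le_of_lt ?_ (half_lt_self hε)
    have e : (volume FF).toReal * (s * ∫ u in Ioi (0 : ℝ), wg u) / (N p + 1) =
        (volume FF).toReal * (s / (N p + 1) * ∫ u in Ioi (0 : ℝ), wg u) := by ring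
    rw [e]
    exact hY y hy y hy

end Pool.Agent.P.MP_26a8c3_nt.QT
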