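import Pool.Agent.P.MP_26a8c3_nt.QT.St
import Pool.Agent.P.MP_26a8c3_nt.QO.Kub
import Pool.Agent.P.MP_26a8c3_nt.QR.R1

/-! The Kubota symbol on the group and the transformation law of the approximate theta function. -/

namespace Pool.Agent.P.MP_26a8c3_nt.QT

open Pool.Agent.P.MP_26a8c3_nt.QO Pool.Agent.P.MP_26a8c3_nt.QH Pool.Agent.P.MP_26a8c3_nt.QO.PKub
open scoped Classical MatrixGroups ComplexConjugate

namespace PKub9

lemma kub0 {c d α β γ δ : O} (hd : Primary d) (h : α * δ - β * γ = 1)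
    (hβ : 9 ∣ β) (hδ : Primary δ) (hco : IsCoprime c δ) :
    chi (c * β + d * δ) (c * α + d * γ) = chi d c * chi δ γ := by
  have h9 : (9 : O) ∣ c * β + d * δ - d * δ := by simpa using hβ.mul_left c
  have hD : Primary (c * β + d * δ) := (hd.mul hδ).of_dvd_sub (three_dvd_nine.trans h9)
  have e1 : chi (c * β + d * δ) (c * α + d * γ) * chi (c * β + d * δ) δ =
      chi (c * β + d * δ) c := by
    rw [← chi_mul]; exact chi_congr ⟨γ, by linear_combination c * h⟩
  rw [pR2 pR1 c _ _ hD (hd.mul hδ) h9 ⟨β, by ring⟩, chi_mul_left hd.ne_zero hδ.ne_zero,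
    pR1 _ _ hD hδ, chi_congr (n := δ) (y := c * β) ⟨d, by ring⟩, chi_mul] at e1
  have e2 := chi_det h
  have e3 : chi δ c ≠ 0 := fun e => (chi_eq_zero hδ.ne_zero).1 e hco
  apply mul_left_cancel₀ e3
  linear_combination chi δ γ * e1 - chi (c * β + d * δ) (c * α + d * γ) * chi δ c * e2

lemma rm_inj (g : SL(2, O)) : Function.Injective (rm g) := by
  intro r s e
  have h := det2 g
  have e1 := congrArg Prod.fst e
  have e2 := congrArg Prod.snd e
  simp only [rm] at e1 e2
  refine Prod.ext ?_ ?_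
  · linear_combination g 1 1 * e1 - g 1 0 * e2 - (r.1 - s.1) * h
  · linear_combination g 0 0 * e2 - g 0 1 * e1 - (r.2 - s.2) * h

lemma wt_ac (g : SL(2, O)) (y : ℝ) {w : ℂ × ℝ} (hw : 0 < w.2) (r : O × O) :
    wt y (ac g w) r = wt y w (rm g r) := by
  have hD : 0 < Dl (toC (g 1 0)) (toC (g 1 1)) w := Dl_pos' (Matrix.SpecialLinearGroup.map toC g) hw
  rw [wt, wt, if_pos hw, if_pos (ac_snd_pos g hw), Dl_ac g _ _ hw, ac_snd g hw, ht]
  congr 2
  simp only [rm]
  field_simp

end PKub9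

open PKub9

theorem pKub9 : S_Kub9 := by
  intro c d α β γ δ hd h hβ hδ
  by_cases h0 : c = 0
  · simp only [h0, zero_mul, zero_add, chi_mul_left hd.ne_zero hδ.ne_zero, chi_mul]
    by_cases hu : IsUnit d
    · simp [hd.eq_one_of_isUnit hu]
    · have e : ∀ x, d ∣ x → chi d x = 0 := fun x hx =>
        (chi_eq_zero hd.ne_zero).2 fun e => hu (e.isUnit_of_dvd' hx dvd_rfl)
      simp [e d dvd_rfl, e 0 (dvd_zero _)]
  have hco : IsCoprime δ (9 * γ) := by
    rw [show (9 : O) = 3 * 3 by norm_num]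
    exact (hδ.isCoprime_three.mul_right hδ.isCoprime_three).mul_right ⟨α, -β, by linear_combination h⟩
  obtain ⟨t, ht⟩ := exists_shift h0 hco
  have h9 : ∀ x : O, (9 : O) ∣ t * (9 * x) := fun x => ⟨t * x, by ring⟩
  have hδ' : Primary (δ + t * (9 * γ)) := hδ.of_dvd_sub (by simpa using three_dvd_nine.trans (h9 γ))
  have hD : Primary (c * β + d * δ) :=
    (hd.mul hδ).of_dvd_sub (by simpa using (three_dvd_nine.trans hβ).mul_left c)
  have e := kub0 (α := α) (β := β + t * (9 * α)) (γ := γ) hd (by linear_combination h)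
    (dvd_add hβ (h9 α)) hδ' ht
  rw [pR2 pR1 γ _ _ hδ' hδ (by simpa using h9 γ) ⟨t * 9, by ring⟩,
    show c * (β + t * (9 * α)) + d * (δ + t * (9 * γ)) =
      c * β + d * δ + t * (9 * (c * α + d * γ)) by ring] at e
  rw [← e]
  exact pR2 pR1 _ _ _ hD (hD.of_dvd_sub (by simpa using three_dvd_nine.trans (h9 _)))
    (by simpa using h9 _) ⟨-(t * 9), by ring⟩

theorem pTr : S_Tr := by
  intro g S y w hg hS hw
  have h := det2 g
  have hδ : Primary (g 1 1) := hg.2
  have e2 := chi_mul_conj hδ.ne_zero (g 1 0)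
  rw [cop_of ⟨-g 0 1, g 0 0, by linear_combination h⟩] at e2
  rw [TH, TH, ← tsum_mul_left]
  symm
  refine ((rm_inj g).tsum_eq fun r hr => ?_).symm.trans (tsum_congr fun r => ?_)
  · by_contra hc
    exact hr (by simp only [if_neg fun e => hc (Set.image_subset_range _ _ e), mul_zero])
  · simp only [(rm_inj g).mem_set_image]
    split_ifs with hr
    · rw [wt_ac g y hw, show chi (rm g r).2 (rm g r).1 = chi r.2 r.1 * chi (g 1 1) (g 1 0) from
        pKub9 _ _ _ _ _ _ (hS r hr) h hg.1 hδ]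
      linear_combination chi r.2 r.1 * (wt y w (rm g r) : ℂ) * e2
    · simp

end Pool.Agent.P.MP_26a8c3_nt.QT
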