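import Pool.Agent.P.MP_26a8c3_nt.QT.St

/-! Local convergence in mean square to the limit series. -/

namespace Pool.Agent.P.MP_26a8c3_nt.QT

open MeasureTheory Set Filter Topology
open Pool.Agent.P.MP_26a8c3_nt.QO Pool.Agent.P.MP_26a8c3_nt.QH Pool.Agent.P.MP_26a8c3_nt.QK
open scoped Classical MatrixGroups ComplexConjugate ENNReal

namespace Loc

theorem B0_nonneg (m : O) : 0 ≤ B0 * (N m : ℝ) := by
  unfold B0
  positivity

theorem norm_ch (m : O) (z : ℂ) : ‖ch m z‖ = 1 := norm_ex _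

theorem nq_nonneg {v0 v1 : ℝ} (h0 : 0 < v0) (f : ℝ → ℂ) : 0 ≤ nq v0 v1 f :=
  setIntegral_nonneg measurableSet_Icc fun v hv => by
    have : 0 < v := h0.trans_le hv.1
    positivity

theorem lint_nu {v0 v1 : ℝ} (h0 : 0 < v0) {f : ℝ → ℂ} (hf : ContinuousOn f (Ioi 0)) :
    ∫⁻ v in Icc v0 v1, ‖f v‖ₑ ^ 2 ∂nu = ENNReal.ofReal (nq v0 v1 f) := by
  have hs : Icc v0 v1 ⊆ Ioi (0 : ℝ) := fun v hv => h0.trans_le hv.1
  have hc : ContinuousOn f (Icc v0 v1) := hf.mono hs
  have hm : AEMeasurable (fun v => ‖f v‖ₑ ^ 2) (volume.restrict (Icc v0 v1)) :=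
    ((hc.aemeasurable measurableSet_Icc).enorm).pow_const 2
  have hi : IntegrableOn (fun v => ‖f v‖ ^ 2 / v ^ 3) (Icc v0 v1) :=
    ContinuousOn.integrableOn_Icc
      ((hc.norm.pow 2).div (by fun_prop) fun v hv => pow_ne_zero _ (ne_of_gt (hs hv)))
  rw [nu, restrict_withDensity measurableSet_Icc, Measure.restrict_restrict measurableSet_Icc,
    inter_eq_left.2 hs, lintegral_withDensity_eq_lintegral_mul₀ measurable_rho.aemeasurable hm, nq,
    ofReal_integral_eq_lintegral_ofReal hi]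
  · refine setLIntegral_congr_fun measurableSet_Icc fun v hv => ?_
    have : 0 < v := hs hv
    simp only [Pi.mul_apply]
    rw [div_eq_inv_mul, ENNReal.ofReal_mul (by positivity), ENNReal.ofReal_pow (norm_nonneg _),
      ofReal_norm]
  · refine (ae_restrict_iff' measurableSet_Icc).2 (Eventually.of_forall fun v hv => ?_)
    have : 0 < v := hs hv
    positivity

theorem aem_nu {v0 v1 : ℝ} (h0 : 0 < v0) {f : ℝ → ℂ} (hf : ContinuousOn f (Ioi 0)) :
    AEMeasurable (fun v => ‖f v‖ₑ ^ 2) (nu.restrict (Icc v0 v1)) :=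
  (((hf.mono fun _ hv => h0.trans_le hv.1).aemeasurable measurableSet_Icc).enorm).pow_const 2

theorem nu_Icc {v0 v1 : ℝ} (h0 : 0 < v0) : nu (Icc v0 v1) ≠ ⊤ := by
  have := lint_nu (v1 := v1) h0 (f := fun _ => 1) continuousOn_const
  simp only [enorm_one, one_pow, lintegral_const, MeasurableSet.univ, Measure.restrict_apply,
    univ_inter, one_mul] at this
  rw [this]
  exact ENNReal.ofReal_ne_top

theorem enorm_add_sq (a b : ℂ) : ‖a + b‖ₑ ^ 2 ≤ 2 * ‖a‖ₑ ^ 2 + 2 * ‖b‖ₑ ^ 2 := by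
  have h : ‖a + b‖ ^ 2 ≤ 2 * ‖a‖ ^ 2 + 2 * ‖b‖ ^ 2 := by
    have h1 := norm_add_le a b
    have h2 := norm_nonneg (a + b)
    nlinarith [sq_nonneg (‖a‖ - ‖b‖)]
  simp only [← ofReal_norm]
  rw [← ENNReal.ofReal_pow (norm_nonneg _), ← ENNReal.ofReal_pow (norm_nonneg _),
    ← ENNReal.ofReal_pow (norm_nonneg _), ← ENNReal.ofReal_ofNat 2,
    ← ENNReal.ofReal_mul (by norm_num), ← ENNReal.ofReal_mul (by norm_num),
    ← ENNReal.ofReal_add (by positivity) (by positivity)]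
  exact ENNReal.ofReal_le_ofReal h

theorem ball_le (z0 : ℂ) : ∃ a : ℂ, ∀ f : ℂ → ℝ≥0∞,
    ∫⁻ z in Metric.ball z0 1, f z ≤ ∫⁻ z in FF, f (z + a) := by
  refine ⟨z0 - ⟨9 / 4, 9 * √3 / 4⟩, fun f => ?_⟩
  rw [← (measurePreserving_add_right volume _).setLIntegral_comp_preimage_emb
    (MeasurableEquiv.addRight (z0 - ⟨9 / 4, 9 * √3 / 4⟩)).measurableEmbedding f]
  refine lintegral_mono_set fun z hz => ball_subset_FF ?_
  have hz' : ‖z + (z0 - ⟨9 / 4, 9 * √3 / 4⟩) - z0‖ < 1 := mem_ball_iff_norm.1 hz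
  rw [mem_ball_iff_norm]
  rwa [show z + (z0 - ⟨9 / 4, 9 * √3 / 4⟩) - z0 = z - ⟨9 / 4, 9 * √3 / 4⟩ by ring] at hz'

theorem prod_le (s : Set ℂ) (t : Set ℝ) (F : ℂ × ℝ → ℝ≥0∞) :
    ∫⁻ w in s ×ˢ t, F w ∂dm ≤ ∫⁻ v in t, ∫⁻ z in s, F (z, v) ∂volume ∂nu := by
  rw [dm, ← Measure.prod_restrict, ← lintegral_prod_swap]
  exact lintegral_prod_le _

/-- the inner integral at a fixed height -/
theorem inner_le (ho : S_Orth) (z0 c : ℂ) (b : O → ℂ) (hb : Summable fun m => ‖b m‖) :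
    ∫⁻ z in Metric.ball z0 1, ‖c + ∑' m, b m * ch m z‖ₑ ^ 2 ≤
      2 * ‖c‖ₑ ^ 2 * volume (Metric.ball z0 1) + 2 * (volume FF * ∑' m, ‖b m‖ₑ ^ 2) := by
  obtain ⟨a, ha⟩ := ball_le z0
  refine (lintegral_mono fun z => enorm_add_sq _ _).trans ?_
  rw [lintegral_add_left measurable_const, setLIntegral_const,
    lintegral_const_mul' _ _ (by norm_num), ← (ho b hb).2.2 a]
  exact add_le_add le_rfl (mul_le_mul' le_rfl (ha fun z => ‖∑' m, b m * ch m z‖ₑ ^ 2))

end Loc

open Loc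

theorem pLoc (hf : S_Four) (ho : S_Orth) (hc : S_Cont) : S_Loc := by
  intro As hA x z0 v0 v1 h0 h1
  set b : ℝ → O → ℝ → ℂ := fun y m v => cn x 1 m y v - As x m * ((kB (B0 * N m) v : ℝ) : ℂ)
    with hb
  have hcont : ∀ y, 0 < y → ∀ m, ContinuousOn (b y m) (Ioi 0) := fun y hy m =>
    ((hf.2.1 x 1 m).cont_ff (B0_nonneg m) hy).sub (continuousOn_const.mul
      (Complex.continuous_ofReal.comp_continuousOn (continuousOn_kB (B0_nonneg m))))
  have hs2 : ∀ v, 0 < v → Summable fun m => ‖As x m * ((kB (B0 * N m) v : ℝ) : ℂ)‖ := by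
    intro v hv
    obtain ⟨u, hu, hu'⟩ := (hc As hA x).1 (min v v⁻¹) (lt_min hv (inv_pos.2 hv))
    refine hu.of_nonneg_of_le (fun _ => norm_nonneg _) fun m => le_trans ?_ (hu' m v ⟨min_le_left _ _, ?_⟩)
    · exact le_mul_of_one_le_left (norm_nonneg _) (le_add_of_nonneg_right (norm_nonneg _))
    · rw [le_inv_comm₀ hv (lt_min hv (inv_pos.2 hv))]
      exact min_le_right _ _
  have key : ∀ y, 0 < y → ∫⁻ w in Metric.ball z0 1 ×ˢ Icc v0 v1,
      ‖FT x 1 y w - tht (As x) w‖ₑ ^ 2 ∂dm ≤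
      2 * volume (Metric.ball z0 1) * nu (Icc v0 v1) * ‖nf y‖ₑ ^ 2 +
        2 * volume FF * ∑' m, ENNReal.ofReal (nq v0 v1 (b y m)) := by
    intro y hy
    refine (prod_le _ _ _).trans ?_
    have h2 : ∀ v ∈ Icc v0 v1, ∫⁻ z in Metric.ball z0 1,
        ‖FT x 1 y (z, v) - tht (As x) (z, v)‖ₑ ^ 2 ≤
        2 * volume (Metric.ball z0 1) * ‖nf y‖ₑ ^ 2 + 2 * volume FF * ∑' m, ‖b y m v‖ₑ ^ 2 := by
      intro v hv
      have hv0 : 0 < v := h0.trans_le hv.1
      have s1 : Summable fun m => ‖cn x 1 m y v‖ := by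
        have := ((hf.2.2 x 1 y (0, v) hy hv0).1).mul_left ‖nf y‖
        exact this.congr fun m => (norm_mul _ _).symm
      have s2 := hs2 v hv0
      have s3 : Summable fun m => ‖b y m v‖ :=
        (s1.add s2).of_nonneg_of_le (fun _ => norm_nonneg _) fun m => norm_sub_le _ _
      have e : ∀ z, FT x 1 y (z, v) - tht (As x) (z, v) =
          nf y * (if (3 : O) ∣ x then ((Real.exp (-(1 / (y * v))) : ℝ) : ℂ) else 0) +
            ∑' m, b y m v * ch m z := by
        intro z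
        have t1 : Summable fun m => cn x 1 m y v * ch m z :=
          s1.of_norm_bounded fun m => by rw [norm_mul, norm_ch, mul_one]
        have t2 : Summable fun m => As x m * ((kB (B0 * N m) v : ℝ) : ℂ) * ch m z :=
          s2.of_norm_bounded fun m => by rw [norm_mul _ (ch m z), norm_ch, mul_one]
        rw [FT, (hf.2.2 x 1 y (z, v) hy hv0).2, mul_add, ← tsum_mul_left, tht, add_sub_assoc]
        simp only [hb, sub_mul]
        rw [t1.tsum_sub t2]
        congr 3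
        funext m
        rw [← mul_assoc]
        rfl
      simp only [e]
      refine (inner_le ho z0 _ _ s3).trans ?_
      rw [mul_right_comm, mul_assoc 2 (volume FF)]
      gcongr
      rw [enorm_mul]
      refine mul_le_of_le_one_right' ?_
      split_ifs
      · rw [← ofReal_norm, Complex.norm_real, Real.norm_of_nonneg (Real.exp_pos _).le]
        refine ENNReal.ofReal_le_one.2 (Real.exp_le_one_iff.2 ?_)
        have : 0 < 1 / (y * v) := by positivity
        linarith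
      · simp
    refine (setLIntegral_mono' measurableSet_Icc h2).trans (le_of_eq ?_)
    rw [lintegral_add_left measurable_const, setLIntegral_const,
      lintegral_const_mul' _ _ (ENNReal.mul_ne_top (by norm_num) volume_FF_lt_top.ne),
      lintegral_tsum fun m => aem_nu h0 (hcont y hy m), mul_right_comm]
    simp only [lint_nu h0 (hcont y hy _)]
  have t1 : Tendsto (fun y => ‖nf y‖ₑ ^ 2) atTop (𝓝 0) := by
    have a1 : Tendsto nf atTop (𝓝 0) := by
      have := (Complex.continuous_ofReal.tendsto 0).comp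
        (tendsto_rpow_neg_atTop (y := 4 / 3) (by norm_num))
      rw [Complex.ofReal_zero] at this
      exact this
    have := ENNReal.Tendsto.pow (n := 2) a1.enorm
    simpa using this
  have t2 : Tendsto (fun y => ∑' m, ENNReal.ofReal (nq v0 v1 (b y m))) atTop (𝓝 0) := by
    refine ENNReal.tendsto_nhds_zero.2 fun ε hε => ?_
    obtain ⟨δ, -, hδ, hδε⟩ := ENNReal.lt_iff_exists_real_btwn.1 hε
    obtain ⟨Y, hY⟩ := hA.strong x v0 v1 δ h0 h1 (ENNReal.ofReal_pos.1 hδ)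
    filter_upwards [eventually_ge_atTop Y] with y hy
    rw [ENNReal.tsum_eq_iSup_sum]
    refine iSup_le fun A => le_trans ?_ hδε.le
    rw [← ENNReal.ofReal_sum_of_nonneg fun m _ => nq_nonneg h0 _]
    exact ENNReal.ofReal_le_ofReal (hY y hy A)
  have k1 : 2 * volume (Metric.ball z0 1) * nu (Icc v0 v1) ≠ ⊤ :=
    ENNReal.mul_ne_top (ENNReal.mul_ne_top (by norm_num) measure_ball_lt_top.ne) (nu_Icc h0)
  have k2 : 2 * volume FF ≠ ⊤ := ENNReal.mul_ne_top (by norm_num) volume_FF_lt_top.ne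
  have t3 := (ENNReal.Tendsto.const_mul t1 (Or.inr k1)).add
    (ENNReal.Tendsto.const_mul t2 (Or.inr k2))
  simp only [mul_zero, add_zero] at t3
  refine tendsto_of_tendsto_of_tendsto_of_le_of_le' tendsto_const_nhds t3
    (Eventually.of_forall fun _ => zero_le) ?_
  filter_upwards [eventually_gt_atTop 0] with y hy using key y hy

end Pool.Agent.P.MP_26a8c3_nt.QT
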