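import Pool.Agent.P.MP_26a8c3_nt.QT.St

/-! Some coefficient at a power of `lam` is not zero. -/

namespace Pool.Agent.P.MP_26a8c3_nt.QT

open MeasureTheory Set Filter Topology
open Pool.Agent.P.MP_26a8c3_nt.QO Pool.Agent.P.MP_26a8c3_nt.QH Pool.Agent.P.MP_26a8c3_nt.QK
open scoped Classical MatrixGroups ComplexConjugate ENNReal

namespace NzP

theorem tht_const {A : O → ℂ} (h : ∀ m, m ≠ 0 → A m = 0) (w : ℂ × ℝ) :
    tht A w = A 0 * ((kB 0 w.2 : ℝ) : ℂ) := by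
  unfold tht
  rw [tsum_eq_single 0 fun m hm => by rw [h m hm, zero_mul, zero_mul]]
  simp [ch]

theorem k0_zero (v v' : ℝ) : k0 0 v = k0 0 v' := by simp [k0]

theorem kB_ne : kB 0 (1 / 10) ≠ kB 0 1 := by
  intro h
  have h1 : (0 : ℝ) < kB 0 1 := kB_pos le_rfl one_pos
  rw [kB_eq (by norm_num), k0_zero _ 1] at h
  rw [kB_eq one_pos] at h h1
  rw [Real.one_rpow, one_mul] at h h1
  have h2 : (1 / 10 : ℝ) ^ (2 / 3 : ℝ) < 1 := Real.rpow_lt_one (by norm_num) (by norm_num) (by norm_num)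
  nlinarith

theorem height : (ac (Um (3 : O)) ((0 : ℂ), (1 : ℝ))).2 = 1 / 10 := by
  rw [ac_snd _ (by norm_num)]
  have h3 : toC 3 = 3 := map_ofNat toC 3
  simp [ht, Dl, h3]
  norm_num

end NzP

open NzP in
theorem pNz (hk : S_Hk) (ha : S_Aut) : S_Nz := by
  intro As hA
  by_contra hn
  have h0 : ∀ (u : O) (k : ℕ), IsUnit u → ta As 0 (u * lam ^ k) = 0 := fun u k hu => by
    by_contra h
    exact hn ⟨u, k, hu, h⟩
  have h1 : ∀ m, m ≠ 0 → As 0 m = 0 := fun m hm => by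
    have ht : ta As 0 m = 0 := by
      obtain ⟨u, k, n, hu, hp, rfl⟩ := exists_decomp hm
      by_cases hc : ∃ c d, SQ c ∧ Primary d ∧ n = c * d ^ 3
      · obtain ⟨c, d, hc, hd, rfl⟩ := hc
        rw [(hk As hA 0 u k hu).1 c d hc hd, h0 u k hu, mul_zero]
      · exact (hk As hA 0 u k hu).2 n hp hc
    refine (mul_eq_zero.1 ht).resolve_right ?_
    exact_mod_cast (Real.rpow_pos_of_pos (ab_pos hm) _).ne'
  have h2 := ha As hA (Um 3) 0 ((0 : ℂ), (1 : ℝ)) (Um_mem 3) one_pos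
  rw [Um11, Um10, chi_one_left, map_one, one_mul, hA.cusp (0 + 3) 0 (by simp),
    tht_const h1, tht_const h1, height] at h2
  exact kB_ne (by exact_mod_cast mul_left_cancel₀ hA.zero h2)

end Pool.Agent.P.MP_26a8c3_nt.QT
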