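import Pool.Agent.P.MP_26a8c3_nt.QT.Glue
import Pool.Agent.P.MP_26a8c3_nt.QK.Odd

/-! The Voronoi identity from automorphy. -/

namespace Pool.Agent.P.MP_26a8c3_nt.QT

open Pool.Agent.P.MP_26a8c3_nt.QO Pool.Agent.P.MP_26a8c3_nt.QH Pool.Agent.P.MP_26a8c3_nt.QK
open scoped Classical MatrixGroups ComplexConjugate

namespace Vor2

lemma tht_eq {As : O → O → ℂ} {C : ℝ} {x : O} (h : ∀ n, n ≠ 0 → ‖ta As x n‖ ≤ C * ab n)
    (z : ℂ) {v : ℝ} (hv : 0 < v) :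
    tht (As x) (z, v) = As x 0 * (kB 0 v : ℝ) + Ser (ta As x) B0 z v := by
  have a0 : ab 0 = 0 := by simp [ab]
  have hs : Summable fun n : O =>
      ta As x n / ab n * (kB B0 (ab n * v) : ℝ) * ex (toC n * z / (toC lam * 9)) :=
    .of_norm (by simpa only [norm_mul (_ * _), norm_ex, mul_one] using
      Ser_summable GlueP.B0_pos h hv)
  have h1 : HasSum (fun n : O => if n = 0 then As x 0 * (kB 0 v : ℝ) else 0)
      (As x 0 * (kB 0 v : ℝ)) := hasSum_ite_eq 0 _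
  rw [tht, Ser, ← (h1.add hs.hasSum).tsum_eq]
  refine tsum_congr fun n => ?_
  rcases eq_or_ne n 0 with rfl | hn
  · simp [a0, ch, ex]
  · have hp := ab_pos hn
    have e : ab n ^ (-(2 / 3) : ℝ) = ab n ^ (1 / 3 : ℝ) / ab n := by
      rw [← Real.rpow_sub_one hp.ne']
      norm_num
    rw [if_neg hn, zero_add, ← ab_sq, mul_comm B0, kB_scale hp, e, ta, ch]
    push_cast
    ring

lemma ac_eq {g : SL(2, O)} (hγ : g 1 0 ≠ 0) (ζ : ℂ) {v : ℝ} (hv : 0 < v) :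
    ac g (-(toC (g 1 1) / toC (g 1 0)) + ζ, v) =
      (toC (g 0 0) / toC (g 1 0) - conj ζ / (toC (g 1 0) ^ 2 * ((‖ζ‖ ^ 2 + v ^ 2 : ℝ) : ℂ)),
        v / (N (g 1 0) * (‖ζ‖ ^ 2 + v ^ 2))) := by
  have h0 := toC_ne_zero hγ
  have hd : toC (g 0 0) * toC (g 1 1) - toC (g 0 1) * toC (g 1 0) = 1 := by
    rw [← map_mul, ← map_mul, ← map_sub, det2 g, map_one]
  have e1 : toC (g 1 0) * (-(toC (g 1 1) / toC (g 1 0)) + ζ) + toC (g 1 1) = toC (g 1 0) * ζ := by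
    field_simp
    ring
  have e2 : Dl (toC (g 1 0)) (toC (g 1 1)) (-(toC (g 1 1) / toC (g 1 0)) + ζ, v) =
      N (g 1 0) * (‖ζ‖ ^ 2 + v ^ 2) := by
    rw [Dl, e1, map_mul, N_real, Complex.sq_norm]
    ring
  have h1 : conj (toC (g 1 0)) ≠ 0 := by simpa using hγ
  have h2 : ((‖ζ‖ ^ 2 + v ^ 2 : ℝ) : ℂ) ≠ 0 := Complex.ofReal_ne_zero.2 (by positivity)
  have h3 : ((‖ζ‖ ^ 2 + v ^ 2 : ℝ) : ℂ) = ζ * conj ζ + (v : ℂ) ^ 2 := by
    rw [Complex.mul_conj']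
    push_cast
    rfl
  rw [ac_pos _ hv, ht, e2, Bf, e1]
  refine Prod.ext ?_ rfl
  simp only [map_mul, Complex.ofReal_mul, Complex.ofReal_natCast, N_complex]
  generalize ((‖ζ‖ ^ 2 + v ^ 2 : ℝ) : ℂ) = D at h2 h3
  field_simp
  linear_combination (-(toC (g 0 0) * toC (g 1 0))) * h3 - conj ζ * hd

end Vor2

open Vor2 in
theorem pVor2 (A : Alg) (ha : S_Aut) : S_Vor := by
  intro As h α β γ δ v h1 h2 h3 h4 hv
  obtain ⟨C, hC⟩ := GlueP.ta_le h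
  obtain ⟨k1, -, k2⟩ := A.kub.2.2 α β γ δ h1 h2 h3
  let g : SL(2, O) := ⟨!![α, β; γ, δ], by rw [Matrix.det_fin_two_of]; exact h1⟩
  have hN : (0 : ℝ) < N γ := one_pos.trans_le (one_le_N h4)
  have := vor_of_cov (α := α) (δ := δ) (κ := chi α γ) (c := fun v => As 0 0 * (kB 0 v : ℝ))
    (c' := fun v => As γ 0 * (kB 0 v : ℝ)) GlueP.B0_pos (hC 0) (hC γ) h4 hv fun ζ => by
      have e := ha As h g 0 (-(toC δ / toC γ) + ζ, v) ⟨h3, k1⟩ hv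
      have e2 : ac g (-(toC δ / toC γ) + ζ, v) = _ := ac_eq (g := g) h4 ζ hv
      rw [e2, tht_eq (hC 0) _ (by change 0 < v / (N γ * _); positivity), zero_add,
        tht_eq (hC _) _ hv] at e
      rw [k2]
      exact e
  rw [this]
  ring

end Pool.Agent.P.MP_26a8c3_nt.QT
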