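import Pool.Agent.P.MP_26a8c3_nt.QT.Defs

/-! Interface statements of the theta layer. Each is proved in its own file. -/

namespace Pool.Agent.P.MP_26a8c3_nt.QT

open MeasureTheory Set Filter Topology
open Pool.Agent.P.MP_26a8c3_nt.QO Pool.Agent.P.MP_26a8c3_nt.QH Pool.Agent.P.MP_26a8c3_nt.QK
open scoped Classical MatrixGroups ComplexConjugate ENNReal

/-- the Kubota symbol on the group -/
def S_Kub9 : Prop :=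
  ∀ c d α β γ δ : O, Primary d → α * δ - β * γ = 1 → 9 ∣ β → Primary δ →
    chi (c * β + d * δ) (c * α + d * γ) = chi d c * chi δ γ

/-- unfolding -/
def S_Unf : Prop :=
  ∃ ν : Measure (ℂ × ℝ), (∀ᵐ w ∂ν, 0 < w.2) ∧
    (∀ ψ : ℂ × ℝ → ℝ≥0∞, Measurable ψ → Per9 ψ →
      ∫⁻ w, ∑' r : Row, ψ (ac (sec0 r) w) ∂ν = ∫⁻ w in FF ×ˢ Ioi (0 : ℝ), ψ w ∂dm) ∧
    ∀ Ψ : ℂ × ℝ → ℂ, Measurable Ψ → Per9 Ψ → IntegrableOn Ψ (FF ×ˢ Ioi (0 : ℝ)) dm →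
      Integrable (fun w => ∑' r : Row, Ψ (ac (sec0 r) w)) ν ∧
        ∫ w, ∑' r : Row, Ψ (ac (sec0 r) w) ∂ν = ∫ w in FF ×ˢ Ioi (0 : ℝ), Ψ w ∂dm

/-- convergence, size, measurability and periodicity -/
def S_Bd : Prop :=
  (∃ C : ℝ, ∀ (y : ℝ) (w : ℂ × ℝ), 0 < y → 0 < w.2 →
    Summable (wt y w) ∧ ∑' r, wt y w r ≤ C * ((1 + y / w.2) * (1 + y * w.2)) ∧
      ∀ S, ‖TH S y w‖ ≤ C * ((1 + y / w.2) * (1 + y * w.2))) ∧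
  (∀ S y, 0 < y → Measurable (TH S y)) ∧ ∀ x q y, 0 < y → Per9 (TH (rows x q) y)

/-- the transformation law -/
def S_Tr : Prop :=
  ∀ (g : SL(2, O)) (S : Set (O × O)) (y : ℝ) (w : ℂ × ℝ), g ∈ G0 → (∀ r ∈ S, Primary r.2) →
    0 < w.2 → TH S y (ac g w) = conj (chi (g 1 1) (g 1 0)) * TH (rm g '' S) y w

/-- the Fourier expansion -/
def S_Four : Prop :=
  (∀ m c, c ≠ 0 → ‖Gs m c‖ ≤ 81 * N c) ∧
  (∀ x q m, Adm (fun c : O => (N c : ℝ)) (gs x q m)) ∧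
  ∀ (x q : O) (y : ℝ) (w : ℂ × ℝ), 0 < y → 0 < w.2 →
    Summable (fun m => ‖co x q m y w.2‖) ∧
      TH (rows x q) y w = (if (3 : O) ∣ x then ((Real.exp (-(1 / (y * w.2))) : ℝ) : ℂ) else 0) +
        ∑' m, co x q m y w.2 * ch m w.1

/-- orthogonality of the characters -/
def S_Orth : Prop :=
  ∀ b : O → ℂ, Summable (fun m => ‖b m‖) →
    Continuous (fun z => ∑' m, b m * ch m z) ∧
    (∫ z in FF, ∑' m, b m * ch m z) = ((volume FF).toReal : ℝ) * b 0 ∧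
    ∀ a : ℂ, ∫⁻ z in FF, ‖∑' m, b m * ch m (z + a)‖ₑ ^ 2 = volume FF * ∑' m, ‖b m‖ₑ ^ 2

/-- identities for the Gauss sums -/
def S_Gs : Prop :=
  (∀ (p c m : O) (k : ℕ), Prime p → Primary p → c ≠ 0 → ¬ p ∣ c → 1 ≤ k →
    Gs m (p ^ k * c) = Gs m c * chi p c ^ (2 * k) * gk p k m) ∧
  (∀ p c m : O, Prime p → Primary p → c ≠ 0 → ¬ p ∣ c → Gs (m * p) c = chi p c ^ 2 * Gs m c) ∧
  (∀ (p m : O) (k : ℕ), Prime p → Primary p → 1 ≤ k → p ^ k ∣ m →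
    gk p k m = if 3 ∣ k then ((N p : ℂ) - 1) * (N p : ℂ) ^ (k - 1) else 0) ∧
  (∀ (p m : O) (k l : ℕ), Prime p → Primary p → ¬ p ∣ m → l + 2 ≤ k → gk p k (m * p ^ l) = 0) ∧
  (∀ p m : O, Prime p → Primary p → ¬ p ∣ m → gk p 3 (m * p ^ 2) = -(N p : ℂ) ^ 2) ∧
  (∀ p m : O, Prime p → Primary p → ¬ p ∣ m →
    gk p 1 m = conj (chi p m) * chi p 9 * ft (chi p) p 1) ∧
  ∀ m c : O, c ≠ 0 → 3 ∣ c → Gs m c * el m 9 = Gs m c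

/-- the constant term -/
def S_Cst : Prop :=
  ∃ s0 C : ℝ, 0 < s0 ∧ (∀ q y, 0 < y → ‖sc q y‖ ≤ C) ∧ Tendsto (sc 1) atTop (𝓝 (s0 : ℂ)) ∧
    ∀ p, Prime p → Primary p → Tendsto (sc p) atTop (𝓝 ((s0 / (N p + 1) : ℝ) : ℂ))

/-- the unfolded inner products -/
def S_Inn : Prop :=
  (∀ q y y', 0 < y → 0 < y' → IntegrableOn
      (fun w : ℂ × ℝ => nf y * ((Real.exp (-(1 / (y * w.2))) : ℝ) : ℂ) * conj (FT 0 q y' w))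
      (FF ×ˢ Ioi (0 : ℝ)) dm) ∧
    ∃ R C : ℝ, (∀ y, 1 ≤ y → ‖JJ 1 y y‖ ≤ C) ∧
      (∀ ε > 0, ∃ Y, ∀ y ≥ Y, ∀ y' ≥ Y, ‖JJ 1 y y' - R‖ ≤ ε) ∧
      ∀ p, Prime p → Primary p →
        Tendsto (fun y => JJ p y y) atTop (𝓝 ((R / (N p + 1) : ℝ) : ℂ))

/-- the sum over classes of rows -/
def S_Cls : Prop :=
  ∀ (q : O) (L : Type) [Fintype L] (lab : O × O → L),
    (∀ r r' : Row, lab r.1 = lab r'.1 ↔
      (3 : O) ∣ r.1.1 - r'.1.1 ∧ q ∣ r.1.1 * r'.1.2 - r'.1.1 * r.1.2) →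
    ∀ (y y' : ℝ) (w : ℂ × ℝ), 0 < y → 0 < y' → 0 < w.2 →
      ∑' r : Row, ((Real.exp (-(1 / (y * (ac (sec0 r) w).2))) : ℝ) : ℂ) *
          conj (TH (rows 0 q) y' (ac (sec0 r) w)) =
        ∑ l : L, TH {r | Primary r.2 ∧ lab r = l} y w * conj (TH {r | Primary r.2 ∧ lab r = l} y' w)

/-- boundedness and the Cauchy property on boxes -/
def S_Box1 : Prop :=
  (∃ C : ℝ, ∀ (x : O) (v0 y : ℝ), 0 < v0 → 1 ≤ y →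
      ∫⁻ w in FF ×ˢ Ici v0, ‖FT x 1 y w‖ₑ ^ 2 ∂dm ≤ ENNReal.ofReal (C * (1 + v0⁻¹ ^ 2))) ∧
    ∀ (v0 ε : ℝ), 0 < v0 → 0 < ε → ∃ Y, ∀ x, ∀ y ≥ Y, ∀ y' ≥ Y,
      ∫⁻ w in FF ×ˢ Ici v0, ‖FT x 1 y w - FT x 1 y' w‖ₑ ^ 2 ∂dm ≤ ENNReal.ofReal ε

/-- the share of the rows divisible by a prime, on boxes -/
def S_Box2 : Prop :=
  ∀ p, Prime p → Primary p → ∀ (v0 ε : ℝ), 0 < v0 → 0 < ε → ∃ Y, ∀ x, ∀ y ≥ Y,
    ∫⁻ w in FF ×ˢ Ici v0, ‖FT x p y w - FT x 1 y w / (N p + 1)‖ₑ ^ 2 ∂dm ≤ ENNReal.ofReal ε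

/-- the same for the Fourier coefficients -/
def S_Coef : Prop :=
  (∃ C : ℝ, ∀ (x : O) (v0 v1 y : ℝ) (A : Finset O), 0 < v0 → v0 < v1 → 1 ≤ y →
    ∑ m ∈ A, nq v0 v1 (cn x 1 m y) ≤ C * (1 + v0⁻¹ ^ 2)) ∧
  (∀ (x : O) (v0 v1 ε : ℝ), 0 < v0 → v0 < v1 → 0 < ε → ∃ Y, ∀ y ≥ Y, ∀ y' ≥ Y, ∀ A : Finset O,
    ∑ m ∈ A, nq v0 v1 (fun v => cn x 1 m y v - cn x 1 m y' v) ≤ ε) ∧
  ∀ (p x m : O) (v0 v1 : ℝ), Prime p → Primary p → 0 < v0 → v0 < v1 →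
    Tendsto (fun y => nq v0 v1 (fun v => cn x p m y v - cn x 1 m y v / (N p + 1))) atTop (𝓝 0)

/-- the limit coefficients -/
structure IsAs (As : O → O → ℂ) : Prop where
  lim : ∀ x m, Lm x 1 m (As x m)
  limp : ∀ p x m, Prime p → Primary p → Lm x p m (As x m / (N p + 1))
  cusp : ∀ x x', (3 : O) ∣ x - x' → As x = As x'
  zero : As 0 0 ≠ 0
  rs : ∃ C : ℝ, ∀ (x : O) (U : ℝ) (A : Finset O), 1 ≤ U → (∀ m ∈ A, (N m : ℝ) ≤ U) →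
    ∑ m ∈ A, ‖ta As x m‖ ^ 2 ≤ C * U
  strong : ∀ (x : O) (v0 v1 ε : ℝ), 0 < v0 → v0 < v1 → 0 < ε → ∃ Y, ∀ y ≥ Y, ∀ A : Finset O,
    ∑ m ∈ A, nq v0 v1 (fun v => cn x 1 m y v - As x m * ((kB (B0 * N m) v : ℝ) : ℂ)) ≤ ε

/-- the limit coefficients exist -/
def S_As : Prop := ∃ As, IsAs As

/-- the Hecke relations -/
def S_Hec : Prop :=
  ∀ As, IsAs As →
    (∀ x m p, Prime p → Primary p → m ≠ 0 → ta As x (m * p ^ 3) = (ab p : ℝ) * ta As x m) ∧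
    (∀ x m p, Prime p → Primary p → ¬ p ∣ m → ta As x (m * p ^ 2) = 0) ∧
    (∀ x m p, Prime p → Primary p → ¬ p ∣ m →
      ta As x (m * p) = chi p m * conj (chi p 9) * tau p * ta As x m) ∧
    ∀ m, ta As 0 m * el m 9 = ta As 0 m

/-- the coefficients in closed form -/
def S_Hk : Prop :=
  ∀ As, IsAs As → ∀ (x u : O) (k : ℕ), IsUnit u →
    (∀ c d, SQ c → Primary d → ta As x (u * lam ^ k * (c * d ^ 3)) =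
      chi c (u * lam ^ k) * conj (chi c 9) * tau c * (ab d : ℝ) * ta As x (u * lam ^ k)) ∧
    ∀ n, Primary n → (¬ ∃ c d, SQ c ∧ Primary d ∧ n = c * d ^ 3) → ta As x (u * lam ^ k * n) = 0

/-- the limit series converges and is continuous -/
def S_Cont : Prop :=
  ∀ As, IsAs As → ∀ x,
    (∀ v0 > 0, ∃ u : O → ℝ, Summable u ∧ ∀ m, ∀ v ∈ Icc v0 v0⁻¹,
      (1 + ab m) * ‖As x m * ((kB (B0 * N m) v : ℝ) : ℂ)‖ ≤ u m) ∧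
    ContinuousOn (tht (As x)) {w | 0 < w.2}

/-- local convergence in mean square to the limit series -/
def S_Loc : Prop :=
  ∀ As, IsAs As → ∀ (x : O) (z0 : ℂ) (v0 v1 : ℝ), 0 < v0 → v0 < v1 →
    Tendsto (fun y => ∫⁻ w in Metric.ball z0 1 ×ˢ Icc v0 v1,
      ‖FT x 1 y w - tht (As x) w‖ₑ ^ 2 ∂dm) atTop (𝓝 0)

/-- automorphy of the limit series -/
def S_Aut : Prop :=
  ∀ As, IsAs As → ∀ (g : SL(2, O)) (x : O) (w : ℂ × ℝ), g ∈ G0 → 0 < w.2 →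
    tht (As x) (ac g w) = conj (chi (g 1 1) (g 1 0)) * tht (As (x + g 1 0)) w

/-- the Voronoi identity for the Bessel kernel -/
def S_Vor : Prop :=
  ∀ As, IsAs As → ∀ (α β γ δ : O) (v : ℝ), α * δ - β * γ = 1 → Primary α → 9 ∣ β → γ ≠ 0 → 0 < v →
    ∑' m, ang m * ta As 0 m * el (m * α) (9 * γ) * ((kB B0 (ab m / (N γ * v)) : ℝ) : ℂ) =
      chi α γ * ang γ ^ 2 * ((N γ * v ^ 2 : ℝ) : ℂ) *
        ∑' m, conj (ang m) * ta As γ m * el (-(m * δ)) (9 * γ) * ((kB B0 (ab m * v) : ℝ) : ℂ)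

/-- some coefficient at a power of `lam` is not zero -/
def S_Nz : Prop := ∀ As, IsAs As → ∃ (u : O) (k : ℕ), IsUnit u ∧ ta As 0 (u * lam ^ k) ≠ 0

end Pool.Agent.P.MP_26a8c3_nt.QT
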