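import Pool.Agent.P.MP_26a8c3_nt.QT.St
import Pool.Agent.P.MP_26a8c3_nt.QO.Cnt

/-! The limit series converges locally uniformly and is continuous. -/

namespace Pool.Agent.P.MP_26a8c3_nt.QT

open MeasureTheory Set Filter Topology
open Pool.Agent.P.MP_26a8c3_nt.QO Pool.Agent.P.MP_26a8c3_nt.QH Pool.Agent.P.MP_26a8c3_nt.QK
open scoped Classical MatrixGroups ComplexConjugate ENNReal

namespace Cont

lemma B0_pos : 0 < B0 := by unfold B0; positivity

lemma ab_sq (m : O) : ab m ^ 2 = N m := norm_toC_sq m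

lemma one_le_ab {m : O} (hm : m ≠ 0) : 1 ≤ ab m := by
  have h := one_le_N hm
  rw [← ab_sq] at h
  exact (one_le_sq_iff₀ (norm_nonneg _)).1 h

/-- linear growth of the coefficients -/
lemma As_le {As : O → O → ℂ} (h : IsAs As) :
    ∃ C : ℝ, 0 ≤ C ∧ ∀ x m, m ≠ 0 → ‖As x m‖ ≤ C * ab m := by
  obtain ⟨C, hC⟩ := h.rs
  refine ⟨1 + |C|, by positivity, fun x m hm => ?_⟩
  have h1 := hC x (N m) {m} (one_le_N hm) fun m' hm' => by rw [Finset.mem_singleton.1 hm']
  rw [Finset.sum_singleton, ← ab_sq] at h1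
  have hr := one_le_ab hm
  have h2 : ‖As x m‖ ≤ ‖ta As x m‖ := by
    rw [ta, norm_mul, Complex.norm_real]
    exact le_mul_of_one_le_right (norm_nonneg _)
      ((Real.one_le_rpow hr (by norm_num)).trans (le_abs_self _))
  refine h2.trans (le_of_sq_le_sq (h1.trans ?_) (by positivity))
  rw [mul_pow]
  refine mul_le_mul_of_nonneg_right ?_ (sq_nonneg _)
  nlinarith [le_abs_self C, abs_nonneg C]

lemma exp_le {c r : ℝ} (hc : 0 < c) (hr : 1 ≤ r) :
    (1 + r) * r * Real.exp (-(c * r)) ≤ 1440 / c ^ 6 * (r ^ 2) ^ (-(2 : ℝ)) := by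
  have hr0 : 0 < r := by linarith
  have h := Real.pow_div_factorial_le_exp (c * r) (by positivity) 6
  have h6 : ((Nat.factorial 6 : ℕ) : ℝ) = 720 := by norm_num [Nat.factorial]
  rw [h6] at h
  have h1 : Real.exp (-(c * r)) ≤ 720 / (c * r) ^ 6 := by
    rw [Real.exp_neg, ← inv_div]
    exact inv_anti₀ (by positivity) h
  rw [Real.rpow_neg (by positivity), Real.rpow_two]
  calc (1 + r) * r * Real.exp (-(c * r)) ≤ (r + r) * r * (720 / (c * r) ^ 6) := by gcongr
    _ = _ := by field_simp; ring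

lemma bound {As : O → O → ℂ} (h : IsAs As) (x : O) {v0 : ℝ} (h0 : 0 < v0) :
    ∃ u : O → ℝ, Summable u ∧ ∀ m, ∀ v ∈ Icc v0 v0⁻¹,
      (1 + ab m) * ‖As x m * ((kB (B0 * N m) v : ℝ) : ℂ)‖ ≤ u m := by
  obtain ⟨C, hC0, hC⟩ := As_le h
  obtain ⟨K, hK0, hK⟩ := kB_le
  have hc : 0 < √B0 * v0 := mul_pos (Real.sqrt_pos.2 B0_pos) h0
  have hk : ∀ m, ∀ v ∈ Icc v0 v0⁻¹, ‖((kB (B0 * N m) v : ℝ) : ℂ)‖ ≤
      K * v0⁻¹ ^ (2 / 3 : ℝ) * Real.exp (-(√B0 * v0 * ab m)) := by
    intro m v hv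
    have hv0 : 0 < v := h0.trans_le hv.1
    have hB : 0 ≤ B0 * N m := mul_nonneg B0_pos.le (Nat.cast_nonneg _)
    rw [Complex.norm_real, Real.norm_of_nonneg (kB_pos hB hv0).le]
    refine (hK _ _ hB hv0).trans ?_
    have ha : 0 ≤ ab m := norm_nonneg _
    rw [Real.sqrt_mul B0_pos.le, ← ab_sq, Real.sqrt_sq ha]
    refine mul_le_mul (mul_le_mul_of_nonneg_left (Real.rpow_le_rpow hv0.le hv.2 (by norm_num))
      hK0.le) (Real.exp_le_exp.2 (neg_le_neg ?_)) (Real.exp_pos _).le (by positivity)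
    rw [mul_right_comm]
    exact mul_le_mul_of_nonneg_left hv.1 (by positivity)
  refine ⟨fun m => (if m = 0 then ‖As x 0‖ * (K * v0⁻¹ ^ (2 / 3 : ℝ)) else 0) +
    C * (K * v0⁻¹ ^ (2 / 3 : ℝ)) * (1440 / (√B0 * v0) ^ 6) * (N m : ℝ) ^ (-(2 : ℝ)),
    (hasSum_ite_eq 0 _).summable.add ((summable_N_rpow one_lt_two).mul_left _), fun m v hv => ?_⟩
  have h1 := hk m v hv
  rw [norm_mul]
  by_cases hm : m = 0
  · subst hm
    have ha : ab 0 = 0 := by simp [ab]
    rw [ha, mul_zero, neg_zero, Real.exp_zero, mul_one] at h1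
    simp only [if_true]
    rw [ha, add_zero, one_mul]
    exact (mul_le_mul_of_nonneg_left h1 (norm_nonneg _)).trans
      (le_add_of_nonneg_right (by positivity))
  · have hr := one_le_ab hm
    simp only [if_neg hm]
    rw [zero_add, ← ab_sq]
    calc (1 + ab m) * (‖As x m‖ * ‖((kB (B0 * ab m ^ 2) v : ℝ) : ℂ)‖)
        ≤ (1 + ab m) * (C * ab m *
          (K * v0⁻¹ ^ (2 / 3 : ℝ) * Real.exp (-(√B0 * v0 * ab m)))) := by
          rw [ab_sq]
          exact mul_le_mul_of_nonneg_left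
            (mul_le_mul (hC x m hm) h1 (norm_nonneg _) (by positivity)) (by positivity)
      _ = C * (K * v0⁻¹ ^ (2 / 3 : ℝ)) *
          ((1 + ab m) * ab m * Real.exp (-(√B0 * v0 * ab m))) := by ring
      _ ≤ C * (K * v0⁻¹ ^ (2 / 3 : ℝ)) * (1440 / (√B0 * v0) ^ 6 * (ab m ^ 2) ^ (-(2 : ℝ))) :=
          mul_le_mul_of_nonneg_left (exp_le hc hr) (by positivity)
      _ = _ := by ring

lemma continuous_ch (m : O) : Continuous (ch m) := by
  unfold ch ex
  fun_prop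

end Cont

open Cont in
theorem pCont : S_Cont := by
  intro As h x
  refine ⟨fun v0 h0 => bound h x h0, fun w hw => ?_⟩
  have hw' : 0 < w.2 := hw
  have h0 : 0 < min (w.2 / 2) (2 * w.2)⁻¹ := lt_min (by positivity) (by positivity)
  set v0 := min (w.2 / 2) (2 * w.2)⁻¹ with hv0
  obtain ⟨u, hu, hb⟩ := bound h x h0
  have h1 : v0 < w.2 := (min_le_left _ _).trans_lt (by linarith)
  have h2 : w.2 < v0⁻¹ := by
    have : (2 * w.2)⁻¹⁻¹ ≤ v0⁻¹ := inv_anti₀ h0 (min_le_right _ _)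
    rw [inv_inv] at this
    linarith
  have hc : ContinuousOn (tht (As x)) {w' : ℂ × ℝ | w'.2 ∈ Ioo v0 v0⁻¹} := by
    refine continuousOn_tsum (fun m => ?_) hu fun m w' hw => ?_
    · refine (continuousOn_const.mul ?_).mul ((continuous_ch m).comp continuous_fst).continuousOn
      exact (cont_kB (mul_nonneg B0_pos.le (Nat.cast_nonneg _))).comp continuous_snd.continuousOn
        fun w' hw => h0.trans hw.1
    · have ha : 0 ≤ ab m := norm_nonneg _
      rw [norm_mul, ch, norm_ex, mul_one]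
      exact (le_mul_of_one_le_left (norm_nonneg _) (by linarith)).trans
        (hb m _ (Ioo_subset_Icc_self hw))
  exact (hc.continuousAt ((isOpen_Ioo.preimage continuous_snd).mem_nhds ⟨h1, h2⟩)).continuousWithinAt

end Pool.Agent.P.MP_26a8c3_nt.QT
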