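import Pool.Agent.P.MP_26a8c3_nt.QT.St
import Pool.Agent.P.MP_26a8c3_nt.QH.Box

/-! Orthogonality of the characters of the torus. -/

namespace Pool.Agent.P.MP_26a8c3_nt.QT

open MeasureTheory Set Filter Topology
open Pool.Agent.P.MP_26a8c3_nt.QO Pool.Agent.P.MP_26a8c3_nt.QH Pool.Agent.P.MP_26a8c3_nt.QK
open scoped Classical MatrixGroups ComplexConjugate ENNReal

namespace Orth

theorem enorm_sq (z : ℂ) : ‖z‖ₑ ^ 2 = ENNReal.ofReal (‖z‖ ^ 2) := by
  rw [ENNReal.ofReal_pow (norm_nonneg _), ofReal_norm_eq_enorm]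

theorem lpar {b : O → ℂ} (hb : Summable fun m => ‖b m‖) :
    ∫⁻ z in FF, ‖∑' m, b m * QH.ch m z‖ₑ ^ 2 = volume FF * ∑' m, ‖b m‖ₑ ^ 2 := by
  have hp := parseval_norm hb
  have hc : Continuous fun z => ‖∑' m, b m * QH.ch m z‖ ^ 2 := (continuous_series hb).norm.pow 2
  have hi : IntegrableOn (fun z => ‖∑' m, b m * QH.ch m z‖ ^ 2) FF :=
    (hc.continuousOn.integrableOn_compact (isCompact_closedBall 0 18)).mono_set
      fun _ hz => mem_closedBall_zero_iff.2 (norm_le_of_FF hz)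
  simp only [enorm_sq]
  rw [← ofReal_integral_eq_lintegral_ofReal hi (Eventually.of_forall fun z => by positivity),
    ← hp.tsum_eq, ENNReal.ofReal_tsum_of_nonneg
      (fun m => mul_nonneg V9_pos.le (by positivity)) hp.summable, ← ENNReal.tsum_mul_left]
  refine tsum_congr fun m => ?_
  rw [ENNReal.ofReal_mul V9_pos.le, ofReal_V9]

end Orth

theorem pOrth : S_Orth := fun b hb => by
  refine ⟨continuous_series hb, integral_series hb, fun a => ?_⟩
  have h := lintegral_FF_add (f := fun z => ‖∑' m, b m * QH.ch m z‖ₑ ^ 2)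
    (fun t z => by simp only [ch_per]) a
  exact h.trans (Orth.lpar hb)

end Pool.Agent.P.MP_26a8c3_nt.QT
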