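import Pool.Agent.P.MP_26a8c3_nt.QT.As
import Pool.Agent.P.MP_26a8c3_nt.QT.Aut
import Pool.Agent.P.MP_26a8c3_nt.QT.Bd
import Pool.Agent.P.MP_26a8c3_nt.QT.Box
import Pool.Agent.P.MP_26a8c3_nt.QT.Cls
import Pool.Agent.P.MP_26a8c3_nt.QT.Coef
import Pool.Agent.P.MP_26a8c3_nt.QT.Cont
import Pool.Agent.P.MP_26a8c3_nt.QT.Cst
import Pool.Agent.P.MP_26a8c3_nt.QT.Four
import Pool.Agent.P.MP_26a8c3_nt.QT.Glue
import Pool.Agent.P.MP_26a8c3_nt.QT.Gs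
import Pool.Agent.P.MP_26a8c3_nt.QT.Hec
import Pool.Agent.P.MP_26a8c3_nt.QT.Hk
import Pool.Agent.P.MP_26a8c3_nt.QT.Inn
import Pool.Agent.P.MP_26a8c3_nt.QT.Kub9
import Pool.Agent.P.MP_26a8c3_nt.QT.Loc
import Pool.Agent.P.MP_26a8c3_nt.QT.Nz
import Pool.Agent.P.MP_26a8c3_nt.QT.Orth
import Pool.Agent.P.MP_26a8c3_nt.QT.Vor2

/-! The cubic theta function: assembly. -/

namespace Pool.Agent.P.MP_26a8c3_nt.QT

open Pool.Agent.P.MP_26a8c3_nt.QO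

theorem theta (A : Alg) : S_Theta :=
  have hb := pBd A
  have hf := pFour A hb
  have hi := pInn hb hf pOrth (pCst A)
  have hc := pCls hb pTr
  have hh := pHec A (pGs A) hf
  have hk := pHk A hh
  have ha := pAut hb pTr pCont (pLoc hf pOrth pCont)
  pTheta (pAs hf (pCst A) (pCoef hf pOrth (pBox1 hb pTr hi hc) (pBox2 hb pTr hi hc))) hh hk
    (pVor2 A ha) (pNz hk ha)

end Pool.Agent.P.MP_26a8c3_nt.QT
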