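import Pool.Agent.P.MP_26a8c3_nt.QO.StR
import Pool.Agent.P.MP_26a8c3_nt.QO.Sym
import Pool.Agent.P.MP_26a8c3_nt.QO.Poi
import Pool.Agent.P.MP_26a8c3_nt.QH.Gam
import Pool.Agent.P.MP_26a8c3_nt.QK.Shape

/-! Definitions for the cubic theta function. -/

namespace Pool.Agent.P.MP_26a8c3_nt.QT

open MeasureTheory Set Filter Topology
open Pool.Agent.P.MP_26a8c3_nt.QO Pool.Agent.P.MP_26a8c3_nt.QH Pool.Agent.P.MP_26a8c3_nt.QK
open scoped Classical MatrixGroups ComplexConjugate ENNReal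

noncomputable section

/-- periodicity under the lattice `9 O` -/
def Per9 {E : Type} (f : ℂ × ℝ → E) : Prop :=
  ∀ (t : O) (w : ℂ × ℝ), 0 < w.2 → f (w.1 + toC (9 * t), w.2) = f w

/-- row times matrix -/
def rm (g : SL(2, O)) (r : O × O) : O × O :=
  (r.1 * g 0 0 + r.2 * g 1 0, r.1 * g 0 1 + r.2 * g 1 1)

/-- the weight of a row -/
def wt (y : ℝ) (w : ℂ × ℝ) (r : O × O) : ℝ :=
  if 0 < w.2 then Real.exp (-(Dl (toC r.1) (toC r.2) w / (y * w.2))) else 0

/-- the approximate theta function of a set of rows -/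
def TH (S : Set (O × O)) (y : ℝ) (w : ℂ × ℝ) : ℂ :=
  ∑' r : O × O, if r ∈ S then chi r.2 r.1 * (wt y w r : ℝ) else 0

/-- the rows of the cusp `x` whose first entry is divisible by `q` -/
def rows (x q : O) : Set (O × O) := {r | (3 : O) ∣ r.1 - x ∧ q ∣ r.1 ∧ Primary r.2}

/-- the normalising factor -/
def nf (y : ℝ) : ℂ := ((y ^ (-(4 / 3) : ℝ) : ℝ) : ℂ)

/-- the normalised approximate theta function -/
def FT (x q : O) (y : ℝ) (w : ℂ × ℝ) : ℂ := nf y * TH (rows x q) y w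

/-- the characters of `ℂ / 9 O` -/
def ch (m : O) (z : ℂ) : ℂ := ex (toC m * z / (toC lam * 9))

/-- the constant in the Bessel kernel -/
def B0 : ℝ := 4 * Real.pi ^ 2 / 243

/-- the Gauss sums of the Fourier expansion -/
def Gs (m c : O) : ℂ :=
  sm (9 * c) fun d => if Primary d then chi d c * el (m * d) (9 * c) else 0

/-- the local Gauss sums -/
def gk (p : O) (k : ℕ) (m : O) : ℂ := sm (p ^ k) fun a => chi p (9 * a) ^ k * el (m * a) (p ^ k)

/-- the coefficients of the Dirichlet series -/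
def gs (x q m c : O) : ℂ :=
  if c ≠ 0 ∧ (3 : O) ∣ c - x ∧ q ∣ c then ((a0 / 81 : ℝ) : ℂ) * Gs m c else 0

/-- the Fourier coefficient -/
def co (x q m : O) (y v : ℝ) : ℂ := aa (fun c : O => (N c : ℝ)) (gs x q m) (B0 * N m) y v

/-- the normalised Fourier coefficient -/
def cn (x q m : O) (y v : ℝ) : ℂ := ff (fun c : O => (N c : ℝ)) (gs x q m) (B0 * N m) y v

/-- the sum that governs the constant term -/
def sc (q : O) (y : ℝ) : ℂ :=
  ((y ^ (-(1 / 3) : ℝ) : ℝ) : ℂ) *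
    ∑' c : O, gs 0 q 0 c / (N c : ℂ) * ((Real.exp (-(N c / y)) : ℝ) : ℂ)

/-- the unfolded inner product -/
def JJ (q : O) (y y' : ℝ) : ℂ :=
  ∫ w in FF ×ˢ Ioi (0 : ℝ), nf y * ((Real.exp (-(1 / (y * w.2))) : ℝ) : ℂ) * conj (FT 0 q y' w) ∂dm

/-- weighted square norm on an interval -/
def nq (v0 v1 : ℝ) (f : ℝ → ℂ) : ℝ := ∫ v in Icc v0 v1, ‖f v‖ ^ 2 / v ^ 3

/-- the normalised coefficient converges to `A` times the Bessel shape -/
def Lm (x q m : O) (A : ℂ) : Prop := Lim (fun c : O => (N c : ℝ)) (gs x q m) (B0 * N m) A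

/-- the limit series -/
def tht (As : O → ℂ) (w : ℂ × ℝ) : ℂ :=
  ∑' m : O, As m * ((kB (B0 * N m) w.2 : ℝ) : ℂ) * ch m w.1

/-- the normalised coefficients -/
def ta (As : O → O → ℂ) (x m : O) : ℂ := As x m * ((ab m ^ (1 / 3 : ℝ) : ℝ) : ℂ)

end

end Pool.Agent.P.MP_26a8c3_nt.QT
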