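import Pool.Agent.P.MP_26a8c3_nt.QT.St
import Pool.Agent.P.MP_26a8c3_nt.QH.Unf

/-! Unfolding. -/

namespace Pool.Agent.P.MP_26a8c3_nt.QT

open MeasureTheory Set Filter Topology
open Pool.Agent.P.MP_26a8c3_nt.QO Pool.Agent.P.MP_26a8c3_nt.QH Pool.Agent.P.MP_26a8c3_nt.QK
open scoped Classical MatrixGroups ComplexConjugate ENNReal

theorem pUnf : S_Unf :=
  ⟨muG, ae_up_muG, fun _ hm hp => unfold_l row_sec0 hm hp,
    fun _ _ hp hi => (QH.unfold row_sec0 hp hi).2.2⟩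

end Pool.Agent.P.MP_26a8c3_nt.QT
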