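import Pool.Agent.P.MP_26a8c3_nt.QT.St
import Pool.Agent.P.MP_26a8c3_nt.QK.Odd

/-! The Voronoi identity for the Bessel kernel. -/

namespace Pool.Agent.P.MP_26a8c3_nt.QT

open MeasureTheory Set Filter Topology
open Pool.Agent.P.MP_26a8c3_nt.QO Pool.Agent.P.MP_26a8c3_nt.QH Pool.Agent.P.MP_26a8c3_nt.QK
open scoped Classical MatrixGroups ComplexConjugate ENNReal

namespace VorP

theorem B0_pos : 0 < B0 := by
  unfold B0
  positivity

theorem ta_le {As : O → O → ℂ} (h : IsAs As) :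
    ∃ C : ℝ, ∀ x n, n ≠ 0 → ‖ta As x n‖ ≤ C * ab n := by
  obtain ⟨C, hC⟩ := h.rs
  refine ⟨√C, fun x n hn => ?_⟩
  have h1 := hC x (N n) {n} (one_le_N hn) (by simp)
  rw [Finset.sum_singleton] at h1
  have h2 := Real.le_sqrt_of_sq_le h1
  rwa [Real.sqrt_mul' _ (Nat.cast_nonneg _), ← ab_eq] at h2

theorem tht_eq {As : O → O → ℂ} (h : IsAs As) (x : O) (z : ℂ) {v : ℝ} (hv : 0 < v) :
    tht (As x) (z, v) = As x 0 * ((kB 0 v : ℝ) : ℂ) + Ser (ta As x) B0 z v := by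
  obtain ⟨C, hC⟩ := ta_le h
  have hs := Ser_summable B0_pos (hC x) hv
  have hs' : Summable fun n : O =>
      ta As x n / ab n * (kB B0 (ab n * v) : ℝ) * ex (toC n * z / (toC lam * 9)) :=
    hs.of_norm_bounded fun n => by rw [norm_mul, norm_ex, mul_one]
  have h0 := hasSum_ite_eq (0 : O) (As x 0 * ((kB 0 v : ℝ) : ℂ))
  rw [tht, Ser, ← h0.tsum_eq, ← h0.summable.tsum_add hs']
  refine tsum_congr fun n => ?_
  rcases eq_or_ne n 0 with rfl | hn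
  · have : ab 0 = 0 := by simp [ab]
    simp [this, ch]
  · have h1 := ab_pos hn
    have h2 : B0 * (N n : ℝ) = ab n ^ 2 * B0 := by rw [mul_comm, ← norm_toC_sq, ab]
    have h3 : ab n ^ (-(2 / 3) : ℝ) = ab n ^ (1 / 3 : ℝ) / ab n := by
      rw [← Real.rpow_sub_one h1.ne']
      norm_num
    rw [if_neg hn, zero_add, h2, kB_scale h1, h3, ta, ch]
    push_cast
    ring

theorem ac_eq (g : SL(2, O)) (hγ : g 1 0 ≠ 0) (ζ : ℂ) {v : ℝ} (hv : 0 < v) :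
    ac g (-(toC (g 1 1) / toC (g 1 0)) + ζ, v) =
      (toC (g 0 0) / toC (g 1 0) - conj ζ / (toC (g 1 0) ^ 2 * ((‖ζ‖ ^ 2 + v ^ 2 : ℝ) : ℂ)),
        v / (N (g 1 0) * (‖ζ‖ ^ 2 + v ^ 2))) := by
  have hc := toC_ne_zero hγ
  have hd : toC (g 0 0) * toC (g 1 1) - toC (g 0 1) * toC (g 1 0) = 1 := by
    rw [← map_mul, ← map_mul, ← map_sub, det2, map_one]
  have e1 : toC (g 1 0) * (-(toC (g 1 1) / toC (g 1 0)) + ζ) + toC (g 1 1) = toC (g 1 0) * ζ := by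
    field_simp
    ring
  have e2 : toC (g 0 0) * (-(toC (g 1 1) / toC (g 1 0)) + ζ) + toC (g 0 1) =
      toC (g 0 0) * ζ - 1 / toC (g 1 0) := by
    field_simp
    linear_combination -hd
  have e3 : Dl (toC (g 1 0)) (toC (g 1 1)) (-(toC (g 1 1) / toC (g 1 0)) + ζ, v) =
      N (g 1 0) * (‖ζ‖ ^ 2 + v ^ 2) := by
    rw [Dl, e1, map_mul, Complex.normSq_eq_norm_sq, Complex.normSq_eq_norm_sq, norm_toC_sq]
    ring
  have e4 : ((N (g 1 0) : ℝ) : ℂ) = toC (g 1 0) * conj (toC (g 1 0)) := by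
    rw [Complex.mul_conj, Complex.normSq_eq_norm_sq, norm_toC_sq]
  have e5 : ((‖ζ‖ ^ 2 : ℝ) : ℂ) = ζ * conj ζ := by
    rw [Complex.mul_conj, Complex.normSq_eq_norm_sq]
  have hc' : conj (toC (g 1 0)) ≠ 0 := (map_ne_zero _).2 hc
  have hp : ((‖ζ‖ ^ 2 + v ^ 2 : ℝ) : ℂ) ≠ 0 := Complex.ofReal_ne_zero.2 (by positivity)
  rw [ac_pos g hv, ht, e3, Bf, e1, e2]
  congr 1
  rw [Complex.ofReal_mul, e4, map_mul]
  rw [Complex.ofReal_add, e5, Complex.ofReal_pow] at hp ⊢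
  field_simp
  ring

end VorP

open VorP in
theorem pVor (A : Alg) (_hc : S_Cont) (ha : S_Aut) : S_Vor := by
  intro As hA α β γ δ v hd hα hβ hγ hv
  obtain ⟨C, hC⟩ := ta_le hA
  obtain ⟨hδ, -, hχ⟩ := A.kub.2.2 α β γ δ hd hα hβ
  have hN : (0 : ℝ) < N γ := one_pos.trans_le (one_le_N hγ)
  let g : SL(2, O) := ⟨!![α, β; γ, δ], by rw [Matrix.det_fin_two_of]; exact hd⟩
  have hg : g ∈ G0 := ⟨hβ, hδ⟩
  rw [mul_comm (chi α γ)]
  refine vor_of_cov B0_pos (hC 0) (hC γ) hγ (c := fun v => As 0 0 * ((kB 0 v : ℝ) : ℂ))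
    (c' := fun v => As γ 0 * ((kB 0 v : ℝ) : ℂ)) hv fun ζ => ?_
  have h1 := ha As hA g 0 (-(toC δ / toC γ) + ζ, v) hg hv
  have h2 : ac g (-(toC δ / toC γ) + ζ, v) = _ := ac_eq g hγ ζ hv
  rw [h2, zero_add, tht_eq hA _ _ hv, tht_eq hA _ _ (by positivity)] at h1
  rw [hχ]
  exact h1

end Pool.Agent.P.MP_26a8c3_nt.QT
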